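import Pool.Agent.Lib.MP_4e922d_lc.Spec
import Pool.Agent.Lib.MP_694cb9_lc.SName

/-!
# Module T: sets that exist in a transitive model of ZF by Separation

`Dfn N P` says that the predicate `P` of `n` variables is given by a formula, interpreted in `N`
(for values in `N`).  The closure lemmas are applied by unification, so that no formula has to be
written down.
-/

namespace SymExt

universe u

namespace ModT

/-- The predicate `P` is definable over `N` (on values in `N`). -/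
def Dfn (N : Set ZFSet.{u}) {n : ℕ} (P : (Fin n → ZFSet.{u}) → Prop) : Prop :=
  ∃ φ : Fml n, ∀ v : Fin n → ZFSet.{u}, (∀ i, v i ∈ N) → (Sat N φ v ↔ P v)

variable {N : Set ZFSet.{u}} {n : ℕ}

theorem Dfn.congr {P Q : (Fin n → ZFSet.{u}) → Prop} (h : Dfn N P)
    (e : ∀ v, (∀ i, v i ∈ N) → (P v ↔ Q v)) : Dfn N Q := by
  obtain ⟨φ, hφ⟩ := h
  exact ⟨φ, fun v hv => (hφ v hv).trans (e v hv)⟩

theorem dmem (i j : Fin n) : Dfn N (fun v => v i ∈ v j) := ⟨.mem i j, fun _ _ => Iff.rfl⟩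

theorem deq (i j : Fin n) : Dfn N (fun v => v i = v j) := ⟨.eq i j, fun _ _ => Iff.rfl⟩

theorem dimp {P Q : (Fin n → ZFSet.{u}) → Prop} (hP : Dfn N P) (hQ : Dfn N Q) :
    Dfn N (fun v => P v → Q v) := by
  obtain ⟨φ, hφ⟩ := hP
  obtain ⟨ψ, hψ⟩ := hQ
  refine ⟨.imp φ ψ, fun v hv => ?_⟩
  simp only [Sat]
  rw [hφ v hv, hψ v hv]

theorem dnot {P : (Fin n → ZFSet.{u}) → Prop} (hP : Dfn N P) : Dfn N (fun v => ¬ P v) := by
  obtain ⟨φ, hφ⟩ := hP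
  refine ⟨φ.neg, fun v hv => ?_⟩
  rw [sat_neg, hφ v hv]

theorem dand {P Q : (Fin n → ZFSet.{u}) → Prop} (hP : Dfn N P) (hQ : Dfn N Q) :
    Dfn N (fun v => P v ∧ Q v) := by
  obtain ⟨φ, hφ⟩ := hP
  obtain ⟨ψ, hψ⟩ := hQ
  refine ⟨φ.and ψ, fun v hv => ?_⟩
  rw [sat_and, hφ v hv, hψ v hv]

theorem dor {P Q : (Fin n → ZFSet.{u}) → Prop} (hP : Dfn N P) (hQ : Dfn N Q) :
    Dfn N (fun v => P v ∨ Q v) :=
  (dimp (dnot hP) hQ).congr fun v _ => by tauto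

theorem diff {P Q : (Fin n → ZFSet.{u}) → Prop} (hP : Dfn N P) (hQ : Dfn N Q) :
    Dfn N (fun v => P v ↔ Q v) :=
  (dand (dimp hP hQ) (dimp hQ hP)).congr fun v _ => by tauto

theorem dall {Q : ZFSet.{u} → (Fin n → ZFSet.{u}) → Prop}
    (h : Dfn N (fun v : Fin (n + 1) → ZFSet.{u} => Q (v 0) (fun i => v i.succ))) :
    Dfn N (fun v => ∀ x ∈ N, Q x v) := by
  obtain ⟨φ, hφ⟩ := h
  refine ⟨.all φ, fun v hv => ?_⟩
  simp only [Sat]
  refine forall₂_congr fun x hx => ?_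
  rw [hφ (Fin.cons x v) fun i => Fin.cases (by simpa using hx) (fun i => by simpa using hv i) i]
  simp only [Fin.cons_zero, Fin.cons_succ]

theorem dex {Q : ZFSet.{u} → (Fin n → ZFSet.{u}) → Prop}
    (h : Dfn N (fun v : Fin (n + 1) → ZFSet.{u} => Q (v 0) (fun i => v i.succ))) :
    Dfn N (fun v => ∃ x ∈ N, Q x v) := by
  obtain ⟨φ, hφ⟩ := h
  refine ⟨φ.ex, fun v hv => ?_⟩
  rw [sat_ex]
  refine exists_congr fun x => and_congr_right fun hx => ?_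
  rw [hφ (Fin.cons x v) fun i => Fin.cases (by simpa using hx) (fun i => by simpa using hv i) i]
  simp only [Fin.cons_zero, Fin.cons_succ]

/-! ### Pairs -/

theorem dupair (h : IsZF N) (i j k : Fin n) :
    Dfn N (fun v => v i = ({v j, v k} : ZFSet.{u})) := by
  refine (dall (Q := fun z v => z ∈ v i ↔ (z = v j ∨ z = v k))
    (diff (dmem _ _) (dor (deq _ _) (deq _ _)))).congr fun v hv => ?_
  constructor
  · intro h1
    ext z
    rw [ZFSet.mem_pair]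
    constructor
    · intro hz
      exact (h1 z (h.trans _ (hv i) z hz)).1 hz
    · intro hz
      have hzN : z ∈ N := by
        rcases hz with rfl | rfl
        · exact hv j
        · exact hv k
      exact (h1 z hzN).2 hz
  · intro h1 z _
    rw [h1, ZFSet.mem_pair]

theorem pair_eq (x y : ZFSet.{u}) : ZFSet.pair x y = {({x, x} : ZFSet), ({x, y} : ZFSet)} := by
  rw [ZFSet.pair, ZFSet.pair_eq_singleton]

theorem opair_mem (h : IsZF N) {x y : ZFSet.{u}} (hx : x ∈ N) (hy : y ∈ N) :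
    ZFSet.pair x y ∈ N := by
  rw [pair_eq]
  exact h.pair _ (h.pair _ hx _ hx) _ (h.pair _ hx _ hy)

theorem of_opair_mem (h : IsZF N) {x y : ZFSet.{u}} (hxy : ZFSet.pair x y ∈ N) :
    x ∈ N ∧ y ∈ N := by
  rw [pair_eq] at hxy
  have h2 : ({x, y} : ZFSet.{u}) ∈ N := h.trans _ hxy _ (by simp)
  exact ⟨h.trans _ h2 _ (by simp), h.trans _ h2 _ (by simp)⟩

theorem dopair (h : IsZF N) (i j k : Fin n) :
    Dfn N (fun v => v i = ZFSet.pair (v j) (v k)) := by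
  refine (dex (Q := fun a v => ∃ b ∈ N, a = ({v j, v j} : ZFSet.{u}) ∧
    b = ({v j, v k} : ZFSet.{u}) ∧ v i = ({a, b} : ZFSet.{u}))
    (dex (dand (dupair h _ _ _) (dand (dupair h _ _ _) (dupair h _ _ _))))).congr fun v hv => ?_
  rw [pair_eq]
  constructor
  · rintro ⟨a, _, b, _, rfl, rfl, h3⟩
    exact h3
  · intro h3
    exact ⟨_, h.pair _ (hv j) _ (hv j), _, h.pair _ (hv j) _ (hv k), rfl, rfl, h3⟩

/-- `(v i, v j) ∈ v k`. -/
theorem dpmem (h : IsZF N) (i j k : Fin n) :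
    Dfn N (fun v => ZFSet.pair (v i) (v j) ∈ v k) := by
  refine (dex (Q := fun a v => a = ZFSet.pair (v i) (v j) ∧ a ∈ v k)
    (dand (dopair h _ _ _) (dmem _ _))).congr fun v hv => ?_
  constructor
  · rintro ⟨a, _, rfl, h3⟩
    exact h3
  · intro h3
    exact ⟨_, opair_mem h (hv i) (hv j), rfl, h3⟩

/-- `((v i, v j), v k) ∈ v l`. -/
theorem dppmem (h : IsZF N) (i j k l : Fin n) :
    Dfn N (fun v => ZFSet.pair (ZFSet.pair (v i) (v j)) (v k) ∈ v l) := by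
  refine (dex (Q := fun a v => a = ZFSet.pair (v i) (v j) ∧ ZFSet.pair a (v k) ∈ v l)
    (dand (dopair h _ _ _) (dpmem h _ _ _))).congr fun v hv => ?_
  constructor
  · rintro ⟨a, _, rfl, h3⟩
    exact h3
  · intro h3
    exact ⟨_, opair_mem h (hv i) (hv j), rfl, h3⟩

/-! ### Separation -/

theorem sep_mem (h : IsZF N) {P : (Fin (n + 1) → ZFSet.{u}) → Prop} (hP : Dfn N P)
    (p : Fin n → ZFSet.{u}) (hp : ∀ i, p i ∈ N) {x : ZFSet.{u}} (hx : x ∈ N) :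
    ∃ y ∈ N, ∀ z, z ∈ y ↔ z ∈ x ∧ P (Fin.cons z p) := by
  obtain ⟨φ, hφ⟩ := hP
  refine ⟨_, h.sep x hx n φ p hp, fun z => ?_⟩
  rw [ZFSet.mem_sep]
  refine and_congr_right fun hz => ?_
  exact hφ _ fun i => Fin.cases (by simpa using h.trans x hx z hz) (fun i => by simpa using hp i) i

theorem natSet_mem' (h : IsZF N) (l : ℕ) : natSet.{u} l ∈ N :=
  h.trans _ h.omega _ (mem_omega_iff.2 ⟨l, rfl⟩)

/-- Components of the pairs. -/
theorem of_pp (h : IsZF N) {a b c g : ZFSet.{u}} (hg : g ∈ N)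
    (hm : ZFSet.pair (ZFSet.pair a b) c ∈ g) : a ∈ N ∧ b ∈ N ∧ c ∈ N := by
  have h1 := of_opair_mem h (h.trans _ hg _ hm)
  have h2 := of_opair_mem h h1.1
  exact ⟨h2.1, h2.2, h1.2⟩

theorem stProd (h : IsZF N) : StProd N := by
  intro X hX Z hZ
  -- the union of `X` and `Z`
  have hU : X ∪ Z ∈ N := by
    have : X ∪ Z = ZFSet.sUnion {X, Z} := rfl
    rw [this]
    exact h.union _ (h.pair _ hX _ hZ)
  obtain ⟨P1, hP1, hP1'⟩ := h.power _ hU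
  obtain ⟨P2, hP2, hP2'⟩ := h.power _ hP1
  have hd : Dfn N (fun v : Fin 3 → ZFSet.{u} => ∃ x ∈ N, ∃ z ∈ N, x ∈ v 1 ∧ z ∈ v 2 ∧
      v 0 = ZFSet.pair x z) :=
    dex (dex (dand (dmem _ _) (dand (dmem _ _) (dopair h _ _ _))))
  obtain ⟨W, hW, hW'⟩ := sep_mem h hd ![X, Z] (by
    intro i; fin_cases i
    · exact hX
    · exact hZ) hP2
  refine ⟨W, hW, fun w => ?_⟩
  rw [hW']
  constructor
  · rintro ⟨_, x, _, z, _, h1, h2, h3⟩
    exact ⟨x, h1, z, h2, h3⟩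
  · rintro ⟨x, h1, z, h2, rfl⟩
    have hxN := h.trans _ hX _ h1
    have hzN := h.trans _ hZ _ h2
    refine ⟨?_, x, hxN, z, hzN, h1, h2, rfl⟩
    rw [hP2']
    refine ⟨opair_mem h hxN hzN, fun a ha => ?_⟩
    rw [pair_eq, ZFSet.mem_pair] at ha
    rw [hP1']
    rcases ha with rfl | rfl
    · refine ⟨h.pair _ hxN _ hxN, fun b hb => ?_⟩
      rw [ZFSet.mem_pair] at hb
      rw [ZFSet.mem_union]
      rcases hb with rfl | rfl <;> exact Or.inl h1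
    · refine ⟨h.pair _ hxN _ hzN, fun b hb => ?_⟩
      rw [ZFSet.mem_pair] at hb
      rw [ZFSet.mem_union]
      rcases hb with rfl | rfl
      · exact Or.inl h1
      · exact Or.inr h2

theorem stTop (h : IsZF N) : StTop N := by
  intro X hX g hg
  obtain ⟨P, hP, hP'⟩ := h.power _ hX
  have hd : Dfn N (fun v : Fin 4 → ZFSet.{u} => ∀ x ∈ N, x ∈ v 0 → ∃ l ∈ N, l ∈ v 3 ∧
      ZFSet.pair (ZFSet.pair x x) l ∈ v 2 ∧ ∀ y ∈ N, y ∈ v 1 →
        ZFSet.pair (ZFSet.pair x y) l ∈ v 2 → y ∈ v 0) :=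
    dall (dimp (dmem _ _) (dex (dand (dmem _ _) (dand (dppmem h _ _ _ _)
      (dall (dimp (dmem _ _) (dimp (dppmem h _ _ _ _) (dmem _ _))))))))
  obtain ⟨τ, hτ, hτ'⟩ := sep_mem h hd ![X, g, ZFSet.omega] (by
    intro i; fin_cases i
    · exact hX
    · exact hg
    · exact h.omega) hP
  refine ⟨τ, hτ, fun O => ?_⟩
  rw [hτ', hP', and_assoc]
  refine and_congr_right fun hO => and_congr_right fun _ => ?_
  constructor
  · intro h1 x hx
    obtain ⟨l, _, hl, h2, h3⟩ := h1 x (h.trans _ hO _ hx) hx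
    obtain ⟨l, rfl⟩ := mem_omega_iff.1 hl
    exact ⟨l, h2, fun y hy hy' => h3 y (h.trans _ hX _ hy) hy hy'⟩
  · intro h1 x _ hx
    obtain ⟨l, h2, h3⟩ := h1 x hx
    exact ⟨natSet l, natSet_mem' h l, mem_omega_iff.2 ⟨l, rfl⟩, h2, fun y _ hy hy' => h3 y hy hy'⟩

theorem stBall (h : IsZF N) : StBall N := by
  intro X hX g hg x hx l
  have hd : Dfn N (fun v : Fin 4 → ZFSet.{u} => ZFSet.pair (ZFSet.pair (v 1) (v 0)) (v 2) ∈ v 3) :=
    dppmem h _ _ _ _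
  obtain ⟨O, hO, hO'⟩ := sep_mem h hd ![x, natSet l, g] (by
    intro i; fin_cases i
    · exact hx
    · exact natSet_mem' h l
    · exact hg) hX
  exact ⟨O, hO, hO'⟩

theorem stCov1 (h : IsZF N) : StCov1 N := by
  intro X hX g hg τ hτ l
  have hd : Dfn N (fun v : Fin 4 → ZFSet.{u} => ∃ x ∈ N, x ∈ v 1 ∧ ∀ y ∈ N, y ∈ v 0 →
      ZFSet.pair (ZFSet.pair x y) (v 3) ∈ v 2) :=
    dex (dand (dmem _ _) (dall (dimp (dmem _ _) (dppmem h _ _ _ _))))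
  obtain ⟨V, hV, hV'⟩ := sep_mem h hd ![X, g, natSet l] (by
    intro i; fin_cases i
    · exact hX
    · exact hg
    · exact natSet_mem' h l) hτ
  refine ⟨V, hV, fun O => ?_⟩
  rw [hV']
  refine and_congr_right fun hO => ?_
  constructor
  · rintro ⟨x, _, hx, h1⟩
    exact ⟨x, hx, fun y hy => h1 y (h.trans _ (h.trans _ hτ _ hO) _ hy) hy⟩
  · rintro ⟨x, hx, h1⟩
    exact ⟨x, h.trans _ hX _ hx, hx, fun y _ hy => h1 y hy⟩

theorem stCov2 (h : IsZF N) : StCov2 N := by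
  intro X hX g hg τ hτ seq hseq Φ hΦ r hr
  have hd : Dfn N (fun v : Fin 7 → ZFSet.{u} => ∃ l ∈ N, l ∈ v 6 ∧
      (∃ x ∈ N, x ∈ v 1 ∧ ZFSet.pair (ZFSet.pair x x) l ∈ v 2) ∧
      ∀ i ∈ N, i ∈ v 6 → ∀ x ∈ N, ZFSet.pair (ZFSet.pair (v 5) i) l ∈ v 4 →
        ZFSet.pair i x ∈ v 3 → ¬ x ∈ v 0) :=
    dex (dand (dmem _ _) (dand (dex (dand (dmem _ _) (dppmem h _ _ _ _)))
      (dall (dimp (dmem _ _) (dall (dimp (dppmem h _ _ _ _) (dimp (dpmem h _ _ _)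
        (dnot (dmem _ _)))))))))
  obtain ⟨V, hV, hV'⟩ := sep_mem h hd ![X, g, seq, Φ, r, ZFSet.omega] (by
    intro i; fin_cases i
    · exact hX
    · exact hg
    · exact hseq
    · exact hΦ
    · exact hr
    · exact h.omega) hτ
  refine ⟨V, hV, fun O => ?_⟩
  rw [hV']
  refine and_congr_right fun hO => ?_
  constructor
  · rintro ⟨l, _, hl, ⟨x, _, hx, hx'⟩, h1⟩
    obtain ⟨l, rfl⟩ := mem_omega_iff.1 hl
    refine ⟨l, ⟨x, hx, hx'⟩, fun i y hy hy' => ?_⟩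
    have hyN := (of_opair_mem h (h.trans _ hseq _ hy')).2
    exact h1 (natSet i) (natSet_mem' h i) (mem_omega_iff.2 ⟨i, rfl⟩) y hyN hy hy'
  · rintro ⟨l, ⟨x, hx, hx'⟩, h1⟩
    refine ⟨natSet l, natSet_mem' h l, mem_omega_iff.2 ⟨l, rfl⟩,
      ⟨x, h.trans _ hX _ hx, hx, hx'⟩, fun i _ hi y _ hy hy' => ?_⟩
    obtain ⟨i, rfl⟩ := mem_omega_iff.1 hi
    exact h1 i y hy hy'

theorem stRel (h : IsZF N) : StRel N := by
  intro A hA X hX g hg seq hseq Φ hΦ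
  obtain ⟨W, hW, hW'⟩ := stProd h A hA X hX
  have hd : Dfn N (fun v : Fin 7 → ZFSet.{u} => ∃ r ∈ N, r ∈ v 1 ∧ ∃ y ∈ N, y ∈ v 2 ∧
      v 0 = ZFSet.pair r y ∧ ∀ i ∈ N, i ∈ v 6 → ∀ x ∈ N, ∀ l ∈ N, l ∈ v 6 →
        ZFSet.pair i x ∈ v 4 → (ZFSet.pair (ZFSet.pair y x) l ∈ v 3 ↔
          ZFSet.pair (ZFSet.pair r i) l ∈ v 5)) :=
    dex (dand (dmem _ _) (dex (dand (dmem _ _) (dand (dopair h _ _ _)
      (dall (dimp (dmem _ _) (dall (dall (dimp (dmem _ _) (dimp (dpmem h _ _ _)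
        (diff (dppmem h _ _ _ _) (dppmem h _ _ _ _))))))))))))
  obtain ⟨f, hf, hf'⟩ := sep_mem h hd ![A, X, g, seq, Φ, ZFSet.omega] (by
    intro i; fin_cases i
    · exact hA
    · exact hX
    · exact hg
    · exact hseq
    · exact hΦ
    · exact h.omega) hW
  refine ⟨f, hf, fun w => ?_⟩
  rw [hf']
  constructor
  · rintro ⟨_, r, _, hr, y, _, hy, hw, h1⟩
    refine ⟨r, hr, y, hy, hw, fun i x l hx => ?_⟩
    have hxN := (of_opair_mem h (h.trans _ hseq _ hx)).2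
    exact h1 (natSet i) (natSet_mem' h i) (mem_omega_iff.2 ⟨i, rfl⟩) x hxN (natSet l)
      (natSet_mem' h l) (mem_omega_iff.2 ⟨l, rfl⟩) hx
  · rintro ⟨r, hr, y, hy, hw, h1⟩
    refine ⟨(hW' w).2 ⟨r, hr, y, hy, hw⟩, r, h.trans _ hA _ hr, hr, y, h.trans _ hX _ hy, hy, hw,
      fun i _ hi x _ l _ hl hx => ?_⟩
    obtain ⟨i, rfl⟩ := mem_omega_iff.1 hi
    obtain ⟨l, rfl⟩ := mem_omega_iff.1 hl
    exact h1 i x l hx

theorem stRel' (h : IsZF N) : StRel' N := by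
  intro A hA X hX g hg seq hseq Φ hΦ
  obtain ⟨W, hW, hW'⟩ := stProd h X hX A hA
  have hd : Dfn N (fun v : Fin 7 → ZFSet.{u} => ∃ r ∈ N, r ∈ v 1 ∧ ∃ y ∈ N, y ∈ v 2 ∧
      v 0 = ZFSet.pair y r ∧ ∀ i ∈ N, i ∈ v 6 → ∀ x ∈ N, ∀ l ∈ N, l ∈ v 6 →
        ZFSet.pair i x ∈ v 4 → (ZFSet.pair (ZFSet.pair y x) l ∈ v 3 ↔
          ZFSet.pair (ZFSet.pair r i) l ∈ v 5)) :=
    dex (dand (dmem _ _) (dex (dand (dmem _ _) (dand (dopair h _ _ _)
      (dall (dimp (dmem _ _) (dall (dall (dimp (dmem _ _) (dimp (dpmem h _ _ _)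
        (diff (dppmem h _ _ _ _) (dppmem h _ _ _ _))))))))))))
  obtain ⟨f, hf, hf'⟩ := sep_mem h hd ![A, X, g, seq, Φ, ZFSet.omega] (by
    intro i; fin_cases i
    · exact hA
    · exact hX
    · exact hg
    · exact hseq
    · exact hΦ
    · exact h.omega) hW
  refine ⟨f, hf, fun w => ?_⟩
  rw [hf']
  constructor
  · rintro ⟨_, r, _, hr, y, _, hy, hw, h1⟩
    refine ⟨r, hr, y, hy, hw, fun i x l hx => ?_⟩
    have hxN := (of_opair_mem h (h.trans _ hseq _ hx)).2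
    exact h1 (natSet i) (natSet_mem' h i) (mem_omega_iff.2 ⟨i, rfl⟩) x hxN (natSet l)
      (natSet_mem' h l) (mem_omega_iff.2 ⟨l, rfl⟩) hx
  · rintro ⟨r, hr, y, hy, hw, h1⟩
    refine ⟨(hW' w).2 ⟨y, hy, r, hr, hw⟩, r, h.trans _ hA _ hr, hr, y, h.trans _ hX _ hy, hy, hw,
      fun i _ hi x _ l _ hl hx => ?_⟩
    obtain ⟨i, rfl⟩ := mem_omega_iff.1 hi
    obtain ⟨l, rfl⟩ := mem_omega_iff.1 hl
    exact h1 i x l hx

end ModT

/-- Module T. -/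
theorem stT : StT.{u} := fun _ h =>
  ⟨ModT.stProd h, ModT.stTop h, ModT.stBall h, ModT.stCov1 h, ModT.stCov2 h, ModT.stRel h,
    ModT.stRel' h⟩

end SymExt
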