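import Pool.Agent.Lib.MP_4e922d_lc.Mcu

/-!
# A compact metrizable space which is not separable
-/

namespace SymExt

namespace Cir

open Name

/-! ### The metric -/

/-- The points: the point at infinity and the points of the circles. -/
abbrev P : Type := Option (ℕ × T)

/-- The metric on the one-point compactification of the sum of the circles. -/
noncomputable def dX : P → P → ℝ
  | none, none => 0
  | none, some a => (1 / 2) ^ a.1
  | some a, none => (1 / 2) ^ a.1
  | some a, some b => if a.1 = b.1 then (1 / 2) ^ a.1 * ‖a.2 - b.2‖ else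
      (1 / 2) ^ a.1 + (1 / 2) ^ b.1

theorem norm_le_half (t : T) : ‖t‖ ≤ 1 / 2 := by
  have := AddCircle.norm_le_half_period (1 : ℝ) (x := t) one_ne_zero
  simpa using this

theorem pw_pos (n : ℕ) : (0 : ℝ) < (1 / 2) ^ n := by positivity

theorem dX_nonneg (x y : P) : 0 ≤ dX x y := by
  rcases x with _ | a <;> rcases y with _ | b
  · exact le_rfl
  · exact (pw_pos _).le
  · exact (pw_pos _).le
  · simp only [dX]
    split
    · positivity
    · positivity

theorem dX_symm (x y : P) : dX x y = dX y x := by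
  rcases x with _ | a <;> rcases y with _ | b
  · rfl
  · rfl
  · rfl
  · simp only [dX]
    by_cases h : a.1 = b.1
    · rw [if_pos h, if_pos h.symm, h, norm_sub_rev]
    · rw [if_neg h, if_neg (fun h' => h h'.symm), add_comm]

theorem dX_zero (x y : P) : dX x y = 0 ↔ x = y := by
  rcases x with _ | a <;> rcases y with _ | b
  · simp [dX]
  · simp [dX]
  · simp [dX]
  · simp only [dX]
    by_cases h : a.1 = b.1
    · rw [if_pos h, mul_eq_zero, norm_eq_zero, sub_eq_zero]
      constructor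
      · rintro (h1 | h1)
        · exact absurd h1 (pw_pos _).ne'
        · rw [Prod.ext h h1]
      · intro h1
        exact Or.inr (congrArg Prod.snd (Option.some.inj h1))
    · rw [if_neg h]
      have h1 := pw_pos a.1
      have h2 := pw_pos b.1
      constructor
      · intro h3; linarith
      · intro h3
        exact absurd (congrArg Prod.fst (Option.some.inj h3)) h

theorem dX_tri (x y z : P) : dX x z ≤ dX x y + dX y z := by
  rcases x with _ | ⟨n, t⟩ <;> rcases y with _ | ⟨m, s⟩ <;> rcases z with _ | ⟨l, r⟩ <;>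
    simp only [dX]
  · simp
  · simp
  · have := pw_pos m; linarith
  · have h1 := pw_pos m
    have h2 := pw_pos l
    split
    · rename_i h; subst h
      have : 0 ≤ (1 / 2 : ℝ) ^ m * ‖s - r‖ := by positivity
      linarith
    · linarith
  · simp
  · have h1 := pw_pos n
    have h2 := pw_pos l
    split
    · rename_i h; subst h
      have h3 := norm_le_half (t - r)
      nlinarith
    · linarith
  · have h1 := pw_pos n
    have h2 := pw_pos m
    split
    · rename_i h; subst h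
      have : 0 ≤ (1 / 2 : ℝ) ^ n * ‖t - s‖ := by positivity
      linarith
    · linarith
  · have h1 := pw_pos n
    have h2 := pw_pos m
    have h3 := pw_pos l
    have e1 := norm_le_half (t - s)
    have e2 := norm_le_half (s - r)
    have e3 := norm_le_half (t - r)
    have f1 := norm_nonneg (t - s)
    have f2 := norm_nonneg (s - r)
    by_cases h12 : n = m
    · subst h12
      by_cases h23 : n = l
      · subst h23
        simp only [if_true]
        have h4 : ‖t - r‖ ≤ ‖t - s‖ + ‖s - r‖ := norm_sub_le_norm_sub_add_norm_sub t s r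
        nlinarith
      · simp only [if_neg h23, if_true]
        have : 0 ≤ (1 / 2 : ℝ) ^ n * ‖t - s‖ := by positivity
        linarith
    · by_cases h23 : m = l
      · subst h23
        simp only [if_neg h12, if_true]
        have : 0 ≤ (1 / 2 : ℝ) ^ m * ‖s - r‖ := by positivity
        linarith
      · by_cases h13 : n = l
        · subst h13
          simp only [if_neg h12, if_neg h23, if_true]
          nlinarith
        · simp only [if_neg h12, if_neg h23, if_neg h13]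
          linarith

/-! ### The names -/

open Classical in
/-- The condition with one value. -/
noncomputable def sgl (x : Pt) (η : Set ℕ) (b : Bool) : Cond :=
  ⟨fun y ζ => if y = x ∧ ζ = η then some b else none, by
    refine (Set.countable_singleton (x, η)).mono ?_
    rintro ⟨y, ζ⟩ h
    by_contra hcon
    apply h
    refine if_neg ?_
    rintro ⟨rfl, rfl⟩
    exact hcon rfl⟩

theorem sgl_f {x y : Pt} {η ζ : Set ℕ} {b c : Bool} :
    (sgl x η b).f y ζ = some c ↔ y = x ∧ ζ = η ∧ b = c := by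
  classical
  simp only [sgl]
  by_cases h : y = x ∧ ζ = η
  · rw [if_pos h]
    constructor
    · intro h'; exact ⟨h.1, h.2, Option.some.inj h'⟩
    · intro h'; rw [h'.2.2]
  · rw [if_neg h]
    constructor
    · intro h'; cases h'
    · intro h'; exact absurd ⟨h'.1, h'.2.1⟩ h

theorem ac_sgl (σ : Equiv.Perm Pt) (x : Pt) (η : Set ℕ) (b : Bool) :
    ac σ (sgl x η b) = sgl (σ x) η b := by
  have h1 : (ac σ (sgl x η b)).f = (sgl (σ x) η b).f := by
    funext y ζ
    refine Option.ext fun c => ?_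
    rw [ac_f]
    refine sgl_f.trans (Iff.trans ?_ sgl_f.symm)
    rw [Equiv.Perm.inv_eq_iff_eq]
  cases hA : ac σ (sgl x η b)
  cases hB : sgl (σ x) η b
  rw [hA, hB] at h1
  simpa using h1

/-- The name of the generic set. -/
noncomputable def aN (x : Pt) : Name B :=
  Name.mk (Set ℕ) (fun η => rN η) fun η => e (sgl x η true)

/-- The name of the point of the circle. -/
noncomputable def AN (n : ℕ) (t : T) : Name B :=
  Name.mk (Set ℕ) (fun ξ => aN (n, t, ξ)) fun _ => ⊤

/-- The names of the points. -/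
noncomputable def xel : P → Name B
  | none => empN
  | some a => AN a.1 a.2

/-- The name of the space. -/
noncomputable def XN : Name B := Name.mk P xel fun _ => ⊤

/-- The name of the metric. -/
noncomputable def GN : Name B :=
  Name.mk {a : P × P × ℕ // dX a.1 a.2.1 < rat a.2.2}
    (fun a => opN (opN (xel a.1.1) (xel a.1.2.1)) (natN a.1.2.2)) fun _ => ⊤

theorem beq_rN_ne {s t : Set ℕ} (h : s ≠ t) : beq (rN s) (rN t) = ⊥ := by
  by_contra hcon
  obtain ⟨C, U, hG, hb, hop, _⟩ := exists_good sys (O := Bool) (R := Empty)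
    (fun b _ => cond b (rN s) (rN t)) (fun r _ => r.elim) _ hcon
  have h1 : rN s ∈ C := hop true [] (by simp)
  have h2 : rN t ∈ C := hop false [] (by simp)
  rw [hG.beq_iff _ _ h1 h2, val_rN hG, val_rN hG] at hb
  exact h (realSet_inj hb)

theorem bmem_rN_aN (η : Set ℕ) (x : Pt) : bmem (rN η) (aN x) = e (sgl x η true) := by
  apply le_antisymm
  · refine iSup_le fun ζ => ?_
    change e (sgl x ζ true) ⊓ beq (rN η) (rN ζ) ≤ _
    by_cases h : η = ζ
    · rw [h]; exact inf_le_left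
    · rw [beq_rN_ne h, inf_bot_eq]; exact bot_le
  · exact le_bmem_of_le (y := aN x) η le_rfl (by
      change _ ≤ beq (rN η) (rN η)
      rw [beq_refl]; exact le_top)

theorem beq_aN_ne {x y : Pt} (h : x ≠ y) : beq (aN x) (aN y) = ⊥ := by
  by_contra hcon
  obtain ⟨p, hp⟩ := RO.dense_e.dense _ hcon
  obtain ⟨η, hη⟩ := set_not_countable (p.ctb.image Prod.snd)
  have hη' : ∀ z, p.f z η = none := by
    intro z
    by_contra h'
    exact hη ⟨(z, η), h', rfl⟩
  obtain ⟨q1, h1, h2, h3⟩ := exists_union2 (p := p) (q := sgl x η true) (by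
    intro z ζ b b' e1 e2
    obtain ⟨rfl, rfl, _⟩ := sgl_f.1 e2
    rw [hη'] at e1
    cases e1)
  obtain ⟨q, h4, h5, _⟩ := exists_union2 (p := q1) (q := sgl y η false) (by
    intro z ζ b b' e1 e2
    obtain ⟨rfl, rfl, _⟩ := sgl_f.1 e2
    rcases h3 _ _ _ e1 with e3 | e3
    · rw [hη'] at e3
      cases e3
    · exact absurd (sgl_f.1 e3).1.symm h)
  have e1 : e q ≤ bmem (rN η) (aN x) := by
    rw [bmem_rN_aN]; exact e_mono (h4.trans h2)
  have e2 : e q ≤ bmem (rN η) (aN y) :=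
    bmem_congr_right ((e_mono (h4.trans h1)).trans hp) e1
  rw [bmem_rN_aN] at e2
  obtain ⟨r, hr1, hr2⟩ := RO.dense_e.compat q (sgl y η true) (by
    rw [inf_eq_left.2 e2]; exact e_ne_bot q)
  have e3 := hr1 y η false (h5 y η false (sgl_f.2 ⟨rfl, rfl, rfl⟩))
  have e4 := hr2 y η true (sgl_f.2 ⟨rfl, rfl, rfl⟩)
  rw [e3] at e4
  cases e4

theorem bmem_aN_AN_ne {n m : ℕ} {t s : T} (h : (n, t) ≠ (m, s)) (ξ : Set ℕ) :
    bmem (aN (n, t, ξ)) (AN m s) = ⊥ := by
  refine le_bot_iff.1 (iSup_le fun ζ => ?_)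
  change ⊤ ⊓ beq (aN (n, t, ξ)) (aN (m, s, ζ)) ≤ ⊥
  rw [beq_aN_ne, inf_bot_eq]
  intro h'
  apply h
  rw [Prod.mk.injEq, Prod.mk.injEq] at h'
  rw [h'.1, h'.2.1]

theorem bmem_aN_AN (n : ℕ) (t : T) (ξ : Set ℕ) : bmem (aN (n, t, ξ)) (AN n t) = ⊤ :=
  top_le_iff.1 (le_bmem_of_le (y := AN n t) ξ le_rfl (by
    change _ ≤ beq (aN (n, t, ξ)) (aN (n, t, ξ))
    rw [beq_refl]))

theorem beq_xel_ne {i j : P} (h : i ≠ j) : beq (xel i) (xel j) = ⊥ := by
  have key : ∀ (a : ℕ × T) (j : P), some a ≠ j → beq (xel (some a)) (xel j) = ⊥ := by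
    intro a j h
    refine le_bot_iff.1 ?_
    have h1 : beq (xel (some a)) (xel j) ≤ bmem (aN (a.1, a.2, ∅)) (xel j) :=
      bmem_congr_right le_rfl (by
        change _ ≤ bmem (aN (a.1, a.2, ∅)) (AN a.1 a.2)
        rw [bmem_aN_AN]; exact le_top)
    rcases j with _ | b
    · refine h1.trans (iSup_le fun i => i.elim)
    · refine h1.trans (le_of_eq (bmem_aN_AN_ne (fun h' => h ?_) _))
      have : a = b := h'
      rw [this]
  rcases i with _ | a
  · rcases j with _ | b
    · exact absurd rfl h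
    · rw [beq_symm]
      exact key b none (Ne.symm h)
  · exact key a j h

/-! ### Action of the group -/

theorem am_aN (u : ↥Gp) (x : Pt) : sys.am u (aN x) = aN (u.1 x) := by
  change Name.mk (Set ℕ) (fun η => sys.am u (rN η)) (fun η => actB u (e (sgl x η true))) = _
  rw [aN]
  congr 1
  · exact funext fun η => SymSys.am_pure sys (pure_rN η) u
  · funext η
    rw [act_e, ac_sgl]

/-- The rotation angles of an automorphism. -/
noncomputable def rt (u : ↥Gp) (n : ℕ) : ℚ := u.2.choose n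

theorem rt_spec (u : ↥Gp) (x : Pt) :
    (u.1 x).1 = x.1 ∧ (u.1 x).2.1 = x.2.1 + (((rt u x.1 : ℚ) : ℝ) : T) := u.2.choose_spec x

theorem am_AN (u : ↥Gp) (n : ℕ) (t : T) :
    beq (sys.am u (AN n t)) (AN n (t + (((rt u n : ℚ) : ℝ) : T))) = ⊤ := by
  rw [beq_eq_bsub]
  have h1 : bsub (sys.am u (AN n t)) (AN n (t + (((rt u n : ℚ) : ℝ) : T))) = ⊤ := by
    refine top_le_iff.1 (le_bsub_iff.2 fun ξ Δ _ _ => ?_)
    change Δ ≤ bmem (sys.am u (aN (n, t, ξ))) _
    rw [am_aN]
    obtain ⟨h1, h2⟩ := rt_spec u (n, t, ξ)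
    have h3 : u.1 (n, t, ξ) = (n, t + (((rt u n : ℚ) : ℝ) : T), (u.1 (n, t, ξ)).2.2) :=
      Prod.ext h1 (Prod.ext h2 rfl)
    rw [h3, bmem_aN_AN]
    exact le_top
  have h2 : bsub (AN n (t + (((rt u n : ℚ) : ℝ) : T))) (sys.am u (AN n t)) = ⊤ := by
    refine top_le_iff.1 (le_bsub_iff.2 fun ξ Δ _ _ => ?_)
    change Δ ≤ bmem (aN (n, t + (((rt u n : ℚ) : ℝ) : T), ξ)) _
    set z : Pt := u.1⁻¹ (n, t + (((rt u n : ℚ) : ℝ) : T), ξ) with hz
    have h3 : u.1 z = (n, t + (((rt u n : ℚ) : ℝ) : T), ξ) := by rw [hz]; exact ais _ _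
    obtain ⟨h4, h5⟩ := rt_spec u z
    rw [h3] at h4 h5
    have h6 : z.1 = n := h4.symm
    rw [h6] at h5
    have h7 : z.2.1 = t := (add_right_cancel h5).symm
    have h8 : z = (n, t, z.2.2) := Prod.ext h6 (Prod.ext h7 rfl)
    have h9 : aN (n, t + (((rt u n : ℚ) : ℝ) : T), ξ) = sys.am u (aN (n, t, z.2.2)) := by
      rw [am_aN, ← h8, h3]
      rfl
    rw [h9, SymSys.bmem_am, bmem_aN_AN, (sys.act u).map_top]
    exact le_top
  rw [h1, h2, top_inf_eq]

theorem hs_aN (x : Pt) : sys.HS (aN x) := by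
  rw [SymSys.hs_iff]
  refine ⟨⟨H (x.1 + 1) {x}, H_mem ⟨Set.countable_singleton x, ?_⟩, fun u hu => ?_⟩,
    fun η => SymSys.hs_pure sys (pure_rN η)⟩
  · intro y hy
    rw [Set.mem_singleton_iff.1 hy]
    exact Nat.lt_succ_self _
  · rw [am_aN, hu.2 x rfl, beq_refl]

theorem fixed_AN (n : ℕ) (t : T) {k : ℕ} (hk : n < k) (E : Set Pt) :
    sys.Fixed (H k E) (AN n t) := by
  intro u hu
  have h1 := am_AN u n t
  have h2 := (rt_spec u (n, t, ∅)).2
  rw [hu.1 (n, t, ∅) hk] at h2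
  have h3 : t = t + (((rt u n : ℚ) : ℝ) : T) := h2
  rw [← h3] at h1
  exact h1

theorem hs_AN (n : ℕ) (t : T) : sys.HS (AN n t) := by
  rw [SymSys.hs_iff]
  exact ⟨⟨H (n + 1) ∅, H_mem ⟨Set.countable_empty, fun x hx => absurd hx (by simp)⟩,
    fixed_AN n t (Nat.lt_succ_self n) ∅⟩, fun ξ => hs_aN _⟩

theorem hs_xel (i : P) : sys.HS (xel i) := by
  rcases i with _ | a
  · exact SymSys.hs_pure sys pure_empN
  · exact hs_AN _ _

/-- The action on the points. -/
noncomputable def gP (u : ↥Gp) : P → P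
  | none => none
  | some a => some (a.1, a.2 + (((rt u a.1 : ℚ) : ℝ) : T))

theorem am_xel (u : ↥Gp) (i : P) : beq (sys.am u (xel i)) (xel (gP u i)) = ⊤ := by
  rcases i with _ | a
  · change beq (sys.am u empN) empN = ⊤
    rw [SymSys.am_pure sys pure_empN, beq_refl]
  · exact am_AN u a.1 a.2

theorem dX_gP (u : ↥Gp) (i j : P) : dX (gP u i) (gP u j) = dX i j := by
  rcases i with _ | a <;> rcases j with _ | b
  · rfl
  · rfl
  · rfl
  · simp only [dX, gP]
    by_cases h : a.1 = b.1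
    · rw [if_pos h, if_pos h, h, add_sub_add_right_eq_sub]
    · rw [if_neg h, if_neg h]

theorem hs_XN : sys.HS XN := by
  rw [SymSys.hs_iff]
  refine ⟨⟨⊤, sys.top_mem, SymSys.fixed_of_bsub fun u _ => top_le_iff.1 (le_bsub_iff.2
    fun i Δ _ _ => ?_)⟩, hs_xel⟩
  refine le_bmem_of_le (y := XN) (gP u i) le_top ?_
  change Δ ≤ beq (sys.am u (xel i)) (xel (gP u i))
  rw [am_xel]
  exact le_top

theorem hs_GN : sys.HS GN := by
  rw [SymSys.hs_iff]
  refine ⟨⟨⊤, sys.top_mem, SymSys.fixed_of_bsub fun u _ => top_le_iff.1 (le_bsub_iff.2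
    fun a Δ _ _ => ?_)⟩, fun a => SymSys.hs_opN (SymSys.hs_opN (hs_xel _) (hs_xel _))
      (SymSys.hs_pure sys (pure_natN _))⟩
  obtain ⟨⟨i, j, l⟩, ha⟩ := a
  refine le_bmem_of_le (y := GN) ⟨(gP u i, gP u j, l), by
    change dX (gP u i) (gP u j) < rat l
    rw [dX_gP]; exact ha⟩ le_top ?_
  change Δ ≤ beq (sys.am u (opN (opN (xel i) (xel j)) (natN l)))
    (opN (opN (xel (gP u i)) (xel (gP u j))) (natN l))
  rw [am_opN, am_opN, SymSys.am_pure sys (pure_natN l)]
  refine le_beq_opN (le_beq_opN ?_ ?_) (by rw [beq_refl]; exact le_top)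
  · rw [am_xel]; exact le_top
  · rw [am_xel]; exact le_top

/-! ### Arcs -/

/-- The arc with center `a` and radius `1 / (m + 1)`. -/
def arc (J : ℚ × ℕ) : Set T := {t | ‖t - (((J.1 : ℚ) : ℝ) : T)‖ < 1 / (J.2 + 1)}

theorem isOpen_arc (J : ℚ × ℕ) : IsOpen (arc J) :=
  isOpen_lt (by fun_prop) continuous_const

theorem norm_coe_le (x : ℝ) : ‖(x : T)‖ ≤ |x| := by
  have h1 : ‖(x : T)‖ = |x - round x| := UnitAddCircle.norm_eq
  rw [h1]
  simpa using round_le x 0

theorem exists_arc (t : T) {δ : ℝ} (hδ : 0 < δ) : ∃ J, t ∈ arc J ∧ ∀ s ∈ arc J, ‖t - s‖ < δ := by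
  obtain ⟨m, hm⟩ := exists_nat_one_div_lt (half_pos hδ)
  have hm0 : (0 : ℝ) < 1 / (m + 1) := by positivity
  have h1 : ∃ a : ℚ, ‖t - (((a : ℚ) : ℝ) : T)‖ < 1 / (m + 1) := by
    induction t using QuotientAddGroup.induction_on with
    | H x =>
      obtain ⟨a, h1, h2⟩ := exists_rat_btwn (show x < x + 1 / (m + 1) by linarith)
      refine ⟨a, ?_⟩
      have h3 := norm_coe_le (x - a)
      rw [abs_of_neg (by linarith)] at h3
      refine lt_of_le_of_lt ?_ (show -(x - a) < 1 / (m + 1) by linarith)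
      exact h3
  obtain ⟨a, ha⟩ := h1
  refine ⟨(a, m), ha, fun s hs => ?_⟩
  have hs' : ‖s - (((a : ℚ) : ℝ) : T)‖ < 1 / (m + 1) := hs
  calc ‖t - s‖ ≤ ‖t - (((a : ℚ) : ℝ) : T)‖ + ‖(((a : ℚ) : ℝ) : T) - s‖ :=
        norm_sub_le_norm_sub_add_norm_sub _ _ _
    _ < 1 / (m + 1) + 1 / (m + 1) := add_lt_add ha (by rw [norm_sub_rev]; exact hs')
    _ < δ := by linarith

/-- The Boolean value of: the arc `J` of the `n`-th circle is contained in a member of `V`. -/
noncomputable def bJ (V : Name B) (n : ℕ) (J : ℚ × ℕ) : B :=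
  ⨆ i : V.idx, V.wt i ⊓ ⨅ t : {t // t ∈ arc J}, bmem (AN n t.1) (V.elt i)

/-- Compactness of the circle. -/
theorem circle_compact (V : Name B) (n : ℕ) :
    (⨅ t : T, ⨆ J : {J // t ∈ arc J}, bJ V n J.1) ≤
      ⨆ L : {L : List (ℚ × ℕ) // ∀ t, ∃ J ∈ L, t ∈ arc J}, ⨅ J : {J // J ∈ L.1}, bJ V n J.1 := by
  refine le_of_forall_e fun p hp => ?_
  obtain ⟨q, hq, hdec⟩ := exists_decide (fun J : ℚ × ℕ => bJ V n J) p
  have h1 : ∀ t : T, ∃ J, t ∈ arc J ∧ e q ≤ bJ V n J := by
    intro t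
    have h2 : e q ≤ ⨆ J : {J // t ∈ arc J}, bJ V n J.1 :=
      (e_mono hq).trans (hp.trans (iInf_le _ t))
    obtain ⟨r, hr, J, hJ⟩ := RO.dense_e.exists_iSup h2
    refine ⟨J.1, J.2, (hdec J.1).resolve_right fun h3 => ?_⟩
    exact RO.dense_e.not_both hJ ((e_mono hr).trans h3)
  choose J hJ1 hJ2 using h1
  have : Fact ((0 : ℝ) < 1) := ⟨one_pos⟩
  obtain ⟨F, hF⟩ := (isCompact_univ (X := T)).elim_finite_subcover (fun t => arc (J t))
    (fun t => isOpen_arc _) fun t _ => Set.mem_iUnion.2 ⟨t, hJ1 t⟩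
  refine ⟨q, hq, intro_iSup ⟨F.toList.map J, fun t => ?_⟩ (le_iInf fun J' => ?_)⟩
  · obtain ⟨s, hs, hs'⟩ := Set.mem_iUnion₂.1 (hF (Set.mem_univ t))
    exact ⟨J s, List.mem_map.2 ⟨s, Finset.mem_toList.2 hs, rfl⟩, hs'⟩
  · obtain ⟨J', hJ'⟩ := J'
    obtain ⟨s, _, rfl⟩ := List.mem_map.1 hJ'
    exact hJ2 s

end Cir

end SymExt
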