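import Pool.Agent.Lib.MP_694cb9_lc.Defs

/-!
# Compact metrizable spaces in transitive models of ZF

`Fml`, `Sat`, `IsZF` (transitive model of ZF) and `natSet` (the natural number `n` as a set) are
in `Pool.Agent.Lib.MP_694cb9_lc.Defs`.  All notions below are the notions of the transitive
model `N`: the sets, functions, metrics, topologies and covers that are considered are elements
of `N`.
-/

namespace SymExt

universe u

/-- The `k`-th non-negative rational number (every non-negative rational number occurs). -/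
noncomputable def rat (k : ℕ) : ℝ := ((Nat.unpair k).1 : ℝ) / ((Nat.unpair k).2 + 1)

/-- The set `g` is the graph of the real-valued function `d` on `X × X`, coded by rational
upper bounds: `((x, y), k) ∈ g` if and only if `d x y < rat k`. -/
def IsGraph (X g : ZFSet.{u}) (d : ZFSet.{u} → ZFSet.{u} → ℝ) : Prop :=
  ∀ z, z ∈ g ↔ ∃ x ∈ X, ∃ y ∈ X, ∃ k : ℕ, d x y < rat k ∧
    z = ZFSet.pair (ZFSet.pair x y) (natSet k)

/-- `d` is a metric on `X` that belongs to the model `N`. -/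
structure MetricIn (N : Set ZFSet.{u}) (X : ZFSet.{u}) (d : ZFSet.{u} → ZFSet.{u} → ℝ) :
    Prop where
  nonneg : ∀ x ∈ X, ∀ y ∈ X, 0 ≤ d x y
  zero_iff : ∀ x ∈ X, ∀ y ∈ X, d x y = 0 ↔ x = y
  symm : ∀ x ∈ X, ∀ y ∈ X, d x y = d y x
  tri : ∀ x ∈ X, ∀ y ∈ X, ∀ z ∈ X, d x z ≤ d x y + d y z
  /-- the (coded) graph of `d` is an element of `N` -/
  mem : ∃ g ∈ N, IsGraph X g d

/-- The subset `O` of `X` is open for the metric `d`. -/
def OpenFor (X : ZFSet.{u}) (d : ZFSet.{u} → ZFSet.{u} → ℝ) (O : ZFSet.{u}) : Prop :=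
  O ⊆ X ∧ ∀ x ∈ O, ∃ ε > 0, ∀ y ∈ X, d x y < ε → y ∈ O

/-- In `N`, every cover of `X` by members of `τ` has a finite subcover. -/
def CompactIn (N : Set ZFSet.{u}) (X τ : ZFSet.{u}) : Prop :=
  ∀ V ∈ N, V ⊆ τ → (∀ x ∈ X, ∃ O ∈ V, x ∈ O) →
    ∃ s : Set ZFSet.{u}, s.Finite ∧ (∀ O ∈ s, O ∈ V) ∧ ∀ x ∈ X, ∃ O ∈ s, x ∈ O

/-- In `N`, `(X, τ)` is a compact metrizable topological space: `τ` is the set of the open sets
(in `N`) of some metric on `X` in `N`, and every open cover has a finite subcover. -/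
def CompactMetrizable (N : Set ZFSet.{u}) (X τ : ZFSet.{u}) : Prop :=
  X ∈ N ∧ τ ∈ N ∧ (∃ d, MetricIn N X d ∧ ∀ O, O ∈ τ ↔ O ∈ N ∧ OpenFor X d O) ∧ CompactIn N X τ

/-- In `N`, there is an injection of `A` into `B` (so `A` is equipotent to a subset of `B`). -/
def Embeds (N : Set ZFSet.{u}) (A B : ZFSet.{u}) : Prop :=
  ∃ f ∈ N, (∀ z ∈ f, ∃ a ∈ A, ∃ b ∈ B, z = ZFSet.pair a b) ∧
    (∀ a ∈ A, ∃ b, ZFSet.pair a b ∈ f) ∧
    (∀ a b b', ZFSet.pair a b ∈ f → ZFSet.pair a b' ∈ f → b = b') ∧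
    (∀ a a' b, ZFSet.pair a b ∈ f → ZFSet.pair a' b ∈ f → a = a')

/-- In `N`, the space `(X, τ)` is separable: it has a countable dense subset. -/
def SeparableIn (N : Set ZFSet.{u}) (X τ : ZFSet.{u}) : Prop :=
  ∃ D ∈ N, D ⊆ X ∧ Embeds N D ZFSet.omega ∧ ∀ O ∈ τ, O ≠ ∅ → ∃ x ∈ D, x ∈ O

/-- In `N`, `|X| ≥ 2^ℵ₀`: the set of all subsets of `ω` is equipotent to a subset of `X`. -/
def ContinuumLe (N : Set ZFSet.{u}) (X : ZFSet.{u}) : Prop :=
  ∃ R ∈ N, (∀ r, r ∈ R ↔ r ∈ N ∧ r ⊆ ZFSet.omega) ∧ Embeds N R X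

/-- The statement `M(C, S)` in `N`: every compact metrizable space is separable. -/
def MCS (N : Set ZFSet.{u}) : Prop :=
  ∀ X τ, CompactMetrizable N X τ → SeparableIn N X τ

/-- The statement `M(C(≰ ℵ₀), ≥ 2^ℵ₀)` in `N`: every uncountable compact metrizable space `X`
satisfies `|X| ≥ 2^ℵ₀`. -/
def MCU (N : Set ZFSet.{u}) : Prop :=
  ∀ X τ, CompactMetrizable N X τ → ¬ Embeds N X ZFSet.omega → ContinuumLe N X

end SymExt
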