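import Pool.Agent.Lib.MP_694cb9_lc.RO
import Pool.Agent.Lib.MP_694cb9_lc.SName
import Pool.Agent.Lib.MP_4e922d_lc.Defs

/-!
# The forcing notion and its automorphisms
-/

namespace SymExt

namespace Cir

open Name

/-- The circle. -/
abbrev T : Type := AddCircle (1 : ℝ)

/-- The index set of the generic sets. -/
abbrev Pt : Type := ℕ × T × Set ℕ

theorem set_not_countable {A : Set (Set ℕ)} (hA : A.Countable) : ∃ c, c ∉ A := by
  by_contra hcon
  push Not at hcon
  have h1 : (Set.univ : Set (Set ℕ)).Countable := hA.mono fun c _ => hcon c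
  obtain ⟨f, hf⟩ := h1.exists_eq_range ⟨∅, trivial⟩
  refine Function.cantor_surjective f fun c => ?_
  have : c ∈ Set.range f := hf ▸ trivial
  exact this

theorem ais (σ : Equiv.Perm Pt) (x : Pt) : σ (σ⁻¹ x) = x := σ.apply_symm_apply x

theorem ias (σ : Equiv.Perm Pt) (x : Pt) : σ⁻¹ (σ x) = x := σ.symm_apply_apply x

/-! ### Conditions -/

/-- Countable partial functions from `Pt × 𝒫(ω)` to `2`. -/
structure Cond where
  /-- the partial function -/
  f : Pt → Set ℕ → Option Bool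
  ctb : {c : Pt × Set ℕ | f c.1 c.2 ≠ none}.Countable

instance : Preorder Cond where
  le p q := ∀ x η b, q.f x η = some b → p.f x η = some b
  le_refl p := fun _ _ _ h => h
  le_trans p q r h1 h2 := fun x η b h => h1 x η b (h2 x η b h)

theorem le_def {p q : Cond} : p ≤ q ↔ ∀ x η b, q.f x η = some b → p.f x η = some b := Iff.rfl

/-- The empty condition. -/
def emp : Cond := ⟨fun _ _ => none, by simp⟩

/-- The domain of a condition. -/
def dm (p : Cond) : Set Pt := {x | ∃ η, p.f x η ≠ none}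

theorem dm_ctb (p : Cond) : (dm p).Countable := by
  refine (p.ctb.image Prod.fst).mono ?_
  rintro x ⟨η, h⟩
  exact ⟨(x, η), h, rfl⟩

theorem mem_dm {p : Cond} {x : Pt} {η : Set ℕ} {b : Bool} (h : p.f x η = some b) : x ∈ dm p :=
  ⟨η, by rw [h]; simp⟩

theorem f_eq_none {p : Cond} {x : Pt} (h : x ∉ dm p) (η : Set ℕ) : p.f x η = none := by
  by_contra hcon
  exact h ⟨η, hcon⟩

/-- Two conditions are compatible. -/
def Compat (p q : Cond) : Prop := ∀ x η b b', p.f x η = some b → q.f x η = some b' → b = b'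

open Classical in
theorem exists_union {ι : Type} [Countable ι] (p : ι → Cond) (h : ∀ i j, Compat (p i) (p j)) :
    ∃ u : Cond, (∀ i, u ≤ p i) ∧ ∀ x η b, u.f x η = some b → ∃ i, (p i).f x η = some b := by
  let F : Pt → Set ℕ → Option Bool := fun x η =>
    if H : ∃ i b, (p i).f x η = some b then some H.choose_spec.choose else none
  have hF : ∀ x η b, F x η = some b ↔ ∃ i, (p i).f x η = some b := by
    intro x η b
    simp only [F]
    split
    · rename_i H
      have h1 := H.choose_spec.choose_spec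
      constructor
      · intro h2
        cases h2
        exact ⟨_, h1⟩
      · rintro ⟨i, hi⟩
        rw [h _ _ _ _ _ _ h1 hi]
    · rename_i H
      constructor
      · intro h2; cases h2
      · rintro ⟨i, hi⟩
        exact absurd ⟨i, b, hi⟩ H
  refine ⟨⟨F, ?_⟩, fun i x η b hb => (hF x η b).2 ⟨i, hb⟩, fun x η b hb => (hF x η b).1 hb⟩
  refine (Set.countable_iUnion fun i => (p i).ctb).mono ?_
  rintro ⟨x, η⟩ hx
  obtain ⟨b, hb⟩ := Option.ne_none_iff_exists'.1 hx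
  obtain ⟨i, hi⟩ := (hF x η b).1 hb
  refine Set.mem_iUnion.2 ⟨i, ?_⟩
  simp [hi]

theorem exists_union2 {p q : Cond} (h : Compat p q) : ∃ u : Cond, u ≤ p ∧ u ≤ q ∧
    ∀ x η b, u.f x η = some b → p.f x η = some b ∨ q.f x η = some b := by
  obtain ⟨u, h1, h2⟩ := exists_union (fun i : Bool => cond i p q) (by
    intro i j x η b b' h3 h4
    cases i <;> cases j
    · exact Option.some.inj (h3.symm.trans h4)
    · exact (h x η b' b h4 h3).symm
    · exact h x η b b' h3 h4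
    · exact Option.some.inj (h3.symm.trans h4))
  refine ⟨u, h1 true, h1 false, fun x η b hb => ?_⟩
  obtain ⟨i, hi⟩ := h2 x η b hb
  cases i
  · exact Or.inr hi
  · exact Or.inl hi

theorem compat_of_le {p q r : Cond} (h1 : r ≤ p) (h2 : r ≤ q) : Compat p q := by
  intro x η b b' h3 h4
  have h5 := h1 x η b h3
  have h6 := h2 x η b' h4
  rw [h5] at h6
  exact Option.some.inj h6

/-- The conditions with domain in `E`. -/
def On (p : Cond) (E : Set Pt) : Prop := dm p ⊆ E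

theorem exists_lim (p : ℕ → Cond) (h : ∀ n, p (n + 1) ≤ p n) :
    ∃ u : Cond, (∀ n, u ≤ p n) ∧ ∀ E, (∀ n, On (p n) E) → On u E := by
  have hanti : ∀ n m, n ≤ m → p m ≤ p n := by
    intro n m hnm
    induction m, hnm using Nat.le_induction with
    | base => exact le_rfl
    | succ m _ ih => exact (h m).trans ih
  obtain ⟨u, h1, h2⟩ := exists_union p fun i j =>
    compat_of_le (hanti _ _ (le_max_left i j)) (hanti _ _ (le_max_right i j))
  refine ⟨u, h1, fun E hE x hx => ?_⟩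
  obtain ⟨η, hη⟩ := hx
  obtain ⟨b, hb⟩ := Option.ne_none_iff_exists'.1 hη
  obtain ⟨i, hi⟩ := h2 x η b hb
  exact hE i (mem_dm hi)

open Classical in
/-- Restriction of a condition. -/
noncomputable def rs (p : Cond) (E : Set Pt) : Cond :=
  ⟨fun x η => if x ∈ E then p.f x η else none, p.ctb.mono (by
    rintro ⟨x, η⟩ h
    by_cases hx : x ∈ E
    · simpa [hx] using h
    · simp [hx] at h)⟩

theorem rs_f {p : Cond} {E : Set Pt} {x : Pt} {η : Set ℕ} {b : Bool} :
    (rs p E).f x η = some b ↔ x ∈ E ∧ p.f x η = some b := by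
  by_cases hx : x ∈ E <;> simp [rs, hx]

theorem le_rs (p : Cond) (E : Set Pt) : p ≤ rs p E := fun _ _ _ h => (rs_f.1 h).2

theorem on_rs (p : Cond) (E : Set Pt) : On (rs p E) E := by
  rintro x ⟨η, hη⟩
  obtain ⟨b, hb⟩ := Option.ne_none_iff_exists'.1 hη
  exact (rs_f.1 hb).1

theorem rs_le {p q : Cond} {E : Set Pt} (h : p ≤ q) (hq : On q E) : rs p E ≤ q := by
  intro x η b hb
  exact rs_f.2 ⟨hq (mem_dm hb), h x η b hb⟩

theorem rs_mono {p q : Cond} (E : Set Pt) (h : p ≤ q) : rs p E ≤ rs q E := by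
  intro x η b hb
  obtain ⟨h1, h2⟩ := rs_f.1 hb
  exact rs_f.2 ⟨h1, h x η b h2⟩

theorem On.mono {p : Cond} {E E' : Set Pt} (h : On p E) (hE : E ⊆ E') : On p E' := h.trans hE

/-! ### Automorphisms -/

/-- The action of a permutation on a condition. -/
def ac (σ : Equiv.Perm Pt) (p : Cond) : Cond :=
  ⟨fun x η => p.f (σ⁻¹ x) η, by
    refine (p.ctb.image fun c => (σ c.1, c.2)).mono ?_
    rintro ⟨x, η⟩ h
    exact ⟨(σ⁻¹ x, η), h, by simp⟩⟩

theorem ac_f (σ : Equiv.Perm Pt) (p : Cond) (x : Pt) (η : Set ℕ) :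
    (ac σ p).f x η = p.f (σ⁻¹ x) η := rfl

theorem ac_mul (σ τ : Equiv.Perm Pt) (p : Cond) : ac (σ * τ) p = ac σ (ac τ p) := by
  simp only [ac, mul_inv_rev, Equiv.Perm.mul_apply]

theorem ac_one (p : Cond) : ac 1 p = p := by
  simp [ac]

theorem ac_mono (σ : Equiv.Perm Pt) {p q : Cond} (h : p ≤ q) : ac σ p ≤ ac σ q :=
  fun x η b hb => h (σ⁻¹ x) η b hb

/-- The automorphism of the forcing notion. -/
def acO (σ : Equiv.Perm Pt) : Cond ≃o Cond where
  toFun := ac σ
  invFun := ac σ⁻¹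
  left_inv p := by rw [← ac_mul, inv_mul_cancel, ac_one]
  right_inv p := by rw [← ac_mul, mul_inv_cancel, ac_one]
  map_rel_iff' := by
    intro p q
    refine ⟨fun h => ?_, fun h => ac_mono σ h⟩
    have := ac_mono σ⁻¹ h
    rwa [Equiv.coe_fn_mk, ← ac_mul, ← ac_mul, inv_mul_cancel, ac_one, ac_one] at this

theorem dm_ac (σ : Equiv.Perm Pt) (p : Cond) (x : Pt) : x ∈ dm (ac σ p) ↔ σ⁻¹ x ∈ dm p := Iff.rfl

theorem on_ac {σ : Equiv.Perm Pt} {p : Cond} {E : Set Pt} (h : On p E) : On (ac σ p) (σ '' E) := by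
  intro x hx
  exact ⟨σ⁻¹ x, h hx, by simp⟩

/-- A condition is not moved by permutations fixing its domain. -/
theorem ac_eq_of_on {σ : Equiv.Perm Pt} {p : Cond} {E : Set Pt} (h : On p E)
    (hσ : ∀ x ∈ E, σ x = x) : ac σ p = p := by
  have h1 : (fun x η => p.f (σ⁻¹ x) η) = p.f := by
    funext x η
    by_cases hx : x ∈ E
    · have : σ⁻¹ x = x := by rw [Equiv.Perm.inv_eq_iff_eq]; exact (hσ x hx).symm
      rw [this]
    · have h2 : σ⁻¹ x ∉ E := fun h' => by
        have := hσ _ h'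
        rw [ais] at this
        rw [← this] at h'
        exact hx h'
      rw [f_eq_none (fun h' => h2 (h h')), f_eq_none (fun h' => hx (h h'))]
  unfold ac
  cases p
  simp only [Cond.mk.injEq]
  exact h1

/-- The Boolean algebra. -/
abbrev B : Type := RO Cond

/-- The canonical map. -/
noncomputable abbrev e (p : Cond) : B := RO.e p

theorem e_mono {p q : Cond} (h : p ≤ q) : e p ≤ e q := RO.dense_e.mono _ _ h

theorem e_ne_bot (p : Cond) : e p ≠ ⊥ := RO.dense_e.ne_bot p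

theorem top_ne_bot : (⊤ : B) ≠ ⊥ := fun h => e_ne_bot emp (le_bot_iff.1 (h ▸ le_top))

/-! ### The group -/

/-- The group: rotations by rational angles, and permutations of the third coordinate. -/
def Gp : Subgroup (Equiv.Perm Pt) where
  carrier := {σ | ∃ r : ℕ → ℚ, ∀ x, (σ x).1 = x.1 ∧ (σ x).2.1 = x.2.1 + (((r x.1 : ℚ) : ℝ) : T)}
  mul_mem' := by
    rintro σ τ ⟨r, hr⟩ ⟨s, hs⟩
    refine ⟨fun n => s n + r n, fun x => ?_⟩
    rw [Equiv.Perm.mul_apply]
    refine ⟨((hr _).1).trans (hs x).1, ?_⟩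
    rw [(hr _).2, (hs x).2, (hs x).1]
    push_cast
    rw [add_assoc, ← AddCircle.coe_add]
  one_mem' := ⟨fun _ => 0, fun x => by simp⟩
  inv_mem' := by
    rintro σ ⟨r, hr⟩
    refine ⟨fun n => - r n, fun x => ?_⟩
    have h1 := hr (σ⁻¹ x)
    rw [ais] at h1
    refine ⟨h1.1.symm, ?_⟩
    rw [h1.2, h1.1]
    push_cast
    rw [add_assoc, ← AddCircle.coe_add, add_neg_cancel, AddCircle.coe_zero, add_zero]

/-- The action on the Boolean algebra. -/
noncomputable def actB : ↥Gp →* (B ≃o B) where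
  toFun σ := RO.lift (acO σ.1)
  map_one' := by
    have : acO (1 : Equiv.Perm Pt) = 1 := RelIso.ext fun p => ac_one p
    change RO.lift (acO 1) = 1
    rw [this, RO.lift_one]
  map_mul' σ τ := by
    have : acO (σ.1 * τ.1) = acO σ.1 * acO τ.1 := RelIso.ext fun p => ac_mul _ _ p
    change RO.lift (acO (σ.1 * τ.1)) = _
    rw [this, RO.lift_mul]

theorem act_e (σ : ↥Gp) (p : Cond) : actB σ (e p) = e (ac σ.1 p) := RO.lift_e _ _

/-- The subgroup of all automorphisms which do not rotate the first `k` circles and fix the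
points of `E`. -/
def H (k : ℕ) (E : Set Pt) : Subgroup ↥Gp where
  carrier := {σ | (∀ x : Pt, x.1 < k → (σ.1 x).2.1 = x.2.1) ∧ ∀ x ∈ E, σ.1 x = x}
  mul_mem' := by
    rintro σ τ ⟨h1, h2⟩ ⟨h3, h4⟩
    refine ⟨fun x hx => ?_, fun x hx => ?_⟩
    · change (σ.1 (τ.1 x)).2.1 = _
      obtain ⟨r, hr⟩ := τ.2
      rw [h1 _ (by rw [(hr x).1]; exact hx), h3 x hx]
    · change σ.1 (τ.1 x) = x
      rw [h4 x hx, h2 x hx]
  one_mem' := ⟨fun _ _ => rfl, fun _ _ => rfl⟩
  inv_mem' := by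
    rintro σ ⟨h1, h2⟩
    refine ⟨fun x hx => ?_, fun x hx => ?_⟩
    · change (σ.1⁻¹ x).2.1 = x.2.1
      obtain ⟨r, hr⟩ := σ.2
      have h3 := hr (σ.1⁻¹ x)
      have h4 := h1 (σ.1⁻¹ x)
      rw [ais] at h3 h4
      exact (h4 (by rw [← h3.1]; exact hx)).symm
    · change σ.1⁻¹ x = x
      rw [Equiv.Perm.inv_eq_iff_eq]
      exact (h2 x hx).symm

theorem H_mono {k k' : ℕ} {E E' : Set Pt} (hk : k ≤ k') (hE : E ⊆ E') : H k' E' ≤ H k E :=
  fun _ hσ => ⟨fun x hx => hσ.1 x (hx.trans_le hk), fun x hx => hσ.2 x (hE hx)⟩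

/-- Supports. -/
def Sup (k : ℕ) (E : Set Pt) : Prop := E.Countable ∧ ∀ x ∈ E, x.1 < k

theorem Sup.union {k k' : ℕ} {E E' : Set Pt} (h : Sup k E) (h' : Sup k' E') :
    Sup (max k k') (E ∪ E') := by
  refine ⟨h.1.union h'.1, ?_⟩
  rintro x (hx | hx)
  · exact (h.2 x hx).trans_le (le_max_left _ _)
  · exact (h'.2 x hx).trans_le (le_max_right _ _)

theorem Sup.mono {k k' : ℕ} {E : Set Pt} (h : Sup k E) (hk : k ≤ k') : Sup k' E :=
  ⟨h.1, fun x hx => (h.2 x hx).trans_le hk⟩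

theorem gp_fst (σ : ↥Gp) (x : Pt) : (σ.1 x).1 = x.1 := by
  obtain ⟨r, hr⟩ := σ.2
  exact (hr x).1

theorem conj_mem {k : ℕ} {E : Set Pt} (g : ↥Gp) {h : ↥Gp} (hh : h ∈ H k (g.1 '' E)) :
    g⁻¹ * h * g ∈ H k E := by
  refine ⟨fun x hx => ?_, fun x hx => ?_⟩
  · change (g.1⁻¹ (h.1 (g.1 x))).2.1 = x.2.1
    obtain ⟨r, hr⟩ := g.2
    have h1 := hr (g.1⁻¹ (h.1 (g.1 x)))
    rw [ais] at h1
    have h2 := hh.1 (g.1 x) (by rw [gp_fst]; exact hx)
    have h3 := hr x
    have h4 : (g.1⁻¹ (h.1 (g.1 x))).1 = x.1 := by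
      rw [← h1.1, gp_fst h, gp_fst]
    rw [h2, h3.2, h4] at h1
    exact (add_right_cancel h1.2).symm
  · change g.1⁻¹ (h.1 (g.1 x)) = x
    rw [hh.2 _ ⟨x, hx, rfl⟩, ias]

/-- The symmetric system. -/
noncomputable abbrev sys : SymSys B where
  G := ↥Gp
  act := actB
  F := {K | ∃ k E, Sup k E ∧ H k E ≤ K}
  top_mem := ⟨0, ∅, ⟨Set.countable_empty, fun x hx => absurd hx (by simp)⟩, le_top⟩
  up := by
    rintro K ⟨k, E, h, hK⟩ L hL
    exact ⟨k, E, h, hK.trans hL⟩
  inf_mem := by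
    rintro K ⟨k, E, h, hK⟩ L ⟨k', E', h', hL⟩
    refine ⟨max k k', E ∪ E', h.union h', le_inf ?_ ?_⟩
    · exact (H_mono (le_max_left _ _) Set.subset_union_left).trans hK
    · exact (H_mono (le_max_right _ _) Set.subset_union_right).trans hL
  conj := by
    rintro K ⟨k, E, h, hK⟩ g
    refine ⟨H k (g.1 '' E), ⟨k, g.1 '' E, ⟨h.1.image _, ?_⟩, le_rfl⟩, fun σ hσ =>
      hK (conj_mem g hσ)⟩
    rintro _ ⟨x, hx, rfl⟩
    rw [gp_fst]
    exact h.2 x hx

theorem H_mem {k : ℕ} {E : Set Pt} (h : Sup k E) : H k E ∈ sys.F := ⟨k, E, h, le_rfl⟩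

/-! ### Fresh copies -/

/-- Translation of the third coordinate. -/
def sh (c : Set ℕ) (x : Pt) : Pt := (x.1, x.2.1, symmDiff x.2.2 c)

theorem sh_sh (c : Set ℕ) (x : Pt) : sh c (sh c x) = x := by
  simp [sh, symmDiff_symmDiff_cancel_right]

theorem exists_fresh {A D : Set Pt} (hA : A.Countable) (hD : D.Countable) :
    ∃ c, ∀ x ∈ A, sh c x ∉ D := by
  obtain ⟨c, hc⟩ := set_not_countable
    (hA.image2 hD fun (x y : Pt) => symmDiff x.2.2 y.2.2)
  refine ⟨c, fun x hx h => hc ⟨x, hx, sh c x, h, ?_⟩⟩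
  simp [sh]

open Classical in
/-- The map exchanging `A` with its translate. -/
noncomputable def flipF (A : Set Pt) (c : Set ℕ) (x : Pt) : Pt :=
  if x ∈ A ∨ sh c x ∈ A then sh c x else x

theorem flip_invol (A : Set Pt) (c : Set ℕ) : Function.Involutive (flipF A c) := by
  intro x
  by_cases h : x ∈ A ∨ sh c x ∈ A
  · have h1 : flipF A c x = sh c x := if_pos h
    rw [h1]
    have h2 : sh c x ∈ A ∨ sh c (sh c x) ∈ A := by rw [sh_sh]; exact h.symm
    rw [flipF, if_pos h2, sh_sh]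
  · have h1 : flipF A c x = x := if_neg h
    rw [h1, h1]

/-- The permutation exchanging `A` with its translate. -/
noncomputable def flipP (A : Set Pt) (c : Set ℕ) : ↥Gp :=
  ⟨(flip_invol A c).toPerm, ⟨fun _ => 0, fun x => by
    change (flipF A c x).1 = x.1 ∧ (flipF A c x).2.1 = _
    unfold flipF
    split <;> simp [sh]⟩⟩

theorem flipP_apply (A : Set Pt) (c : Set ℕ) (x : Pt) : (flipP A c).1 x = flipF A c x := rfl

theorem flipP_mem {A : Set Pt} {c : Set ℕ} {k : ℕ} {E : Set Pt}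
    (h1 : ∀ x ∈ E, x ∉ A) (h2 : ∀ x ∈ A, sh c x ∉ E) : flipP A c ∈ H k E := by
  refine ⟨fun x _ => ?_, fun x hx => ?_⟩
  · change (flipF A c x).2.1 = x.2.1
    unfold flipF
    split <;> simp [sh]
  · change flipF A c x = x
    refine if_neg ?_
    rintro (h | h)
    · exact h1 x hx h
    · have := h2 _ h
      rw [sh_sh] at this
      exact this hx

theorem flipP_of_mem {A : Set Pt} {c : Set ℕ} {x : Pt} (h : x ∈ A) :
    (flipP A c).1 x = sh c x := if_pos (Or.inl h)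

open Classical in
/-- Exchange of two families of points. -/
theorem exists_swap {A : Set Pt} {α β : Pt → Pt} (hα : Set.InjOn α A) (hβ : Set.InjOn β A)
    (hd : ∀ x ∈ A, ∀ y ∈ A, α x ≠ β y) (hf : ∀ x ∈ A, (α x).1 = (β x).1 ∧
      (α x).2.1 = (β x).2.1) {k : ℕ} {E : Set Pt} (h1 : ∀ x ∈ A, α x ∉ E)
    (h2 : ∀ x ∈ A, β x ∉ E) : ∃ u ∈ H k E, ∀ x ∈ A, u.1 (α x) = β x := by
  let F : Pt → Pt := fun y => if h : ∃ x ∈ A, α x = y then β h.choose else
    if h : ∃ x ∈ A, β x = y then α h.choose else y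
  have e1 : ∀ x ∈ A, F (α x) = β x := by
    intro x hx
    have h : ∃ x' ∈ A, α x' = α x := ⟨x, hx, rfl⟩
    have h3 : F (α x) = β h.choose := dif_pos h
    rw [h3, hα h.choose_spec.1 hx h.choose_spec.2]
  have e2 : ∀ x ∈ A, F (β x) = α x := by
    intro x hx
    have h : ¬ ∃ x' ∈ A, α x' = β x := by
      rintro ⟨x', hx', h⟩
      exact hd x' hx' x hx h
    have h' : ∃ x' ∈ A, β x' = β x := ⟨x, hx, rfl⟩
    have h3 : F (β x) = α h'.choose := by
      simp only [F]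
      rw [dif_neg h, dif_pos h']
    rw [h3, hβ h'.choose_spec.1 hx h'.choose_spec.2]
  have e3 : ∀ y, (¬ ∃ x ∈ A, α x = y) → (¬ ∃ x ∈ A, β x = y) → F y = y := by
    intro y h h'
    simp only [F]
    rw [dif_neg h, dif_neg h']
  have hinv : Function.Involutive F := by
    intro y
    by_cases h : ∃ x ∈ A, α x = y
    · obtain ⟨x, hx, rfl⟩ := h
      rw [e1 x hx, e2 x hx]
    · by_cases h' : ∃ x ∈ A, β x = y
      · obtain ⟨x, hx, rfl⟩ := h'
        rw [e2 x hx, e1 x hx]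
      · rw [e3 y h h', e3 y h h']
  have hfib : ∀ y, (F y).1 = y.1 ∧ (F y).2.1 = y.2.1 := by
    intro y
    by_cases h : ∃ x ∈ A, α x = y
    · obtain ⟨x, hx, rfl⟩ := h
      rw [e1 x hx]
      exact ⟨(hf x hx).1.symm, (hf x hx).2.symm⟩
    · by_cases h' : ∃ x ∈ A, β x = y
      · obtain ⟨x, hx, rfl⟩ := h'
        rw [e2 x hx]
        exact hf x hx
      · rw [e3 y h h']
        exact ⟨rfl, rfl⟩
  refine ⟨⟨hinv.toPerm, ⟨fun _ => 0, fun y => ⟨(hfib y).1, ?_⟩⟩⟩, ⟨fun y _ => (hfib y).2,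
    fun y hy => ?_⟩, e1⟩
  · have := (hfib y).2
    simp only [Rat.cast_zero, AddCircle.coe_zero, add_zero]
    exact this
  · refine e3 y ?_ ?_
    · rintro ⟨x, hx, rfl⟩
      exact h1 x hx hy
    · rintro ⟨x, hx, rfl⟩
      exact h2 x hx hy

/-! ### Restriction of conditions -/

/-- If `b` is fixed by the automorphisms fixing `E`, then only the part in `E` of a condition
matters for `b`. -/
theorem restr_le {b : B} {k : ℕ} {E : Set Pt} (hE : E.Countable)
    (hb : ∀ g ∈ H k E, actB g b = b) {p : Cond} (hp : e p ≤ b) : e (rs p E) ≤ b := by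
  refine RO.dense_e.le_of_dense fun q hq => ?_
  obtain ⟨c, hc⟩ := exists_fresh (A := dm p \ E) ((dm_ctb p).mono Set.sdiff_subset)
    ((hE.union (dm_ctb q)))
  have hσ : flipP (dm p \ E) c ∈ H k E :=
    flipP_mem (fun x hx h => h.2 hx) fun x hx h => hc x hx (Or.inl h)
  obtain ⟨r, h1, h2, _⟩ := exists_union2 (p := q) (q := ac (flipP (dm p \ E) c).1 p) (by
    intro x η b b' h1 h2
    rw [ac_f] at h2
    set y := (flipP (dm p \ E) c).1⁻¹ x with hy
    have hx : (flipP (dm p \ E) c).1 y = x := by rw [hy, ais]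
    by_cases hyE : y ∈ E
    · rw [hσ.2 y hyE] at hx
      rw [hx] at h2 hyE
      have h3 := hq x η b' (rs_f.2 ⟨hyE, h2⟩)
      rw [h1] at h3
      exact Option.some.inj h3
    · have h3 : y ∈ dm p \ E := ⟨mem_dm h2, hyE⟩
      rw [flipP_of_mem h3] at hx
      have := hc y h3
      rw [hx] at this
      exact absurd (Or.inr (mem_dm h1)) this)
  refine ⟨r, h1, (e_mono h2).trans ?_⟩
  rw [← act_e, ← hb _ hσ]
  exact (actB _).monotone hp

/-- Such a `b` is fixed by all automorphisms which fix `E` pointwise. -/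
theorem fixed_of_fixed {b : B} {k : ℕ} {E : Set Pt} (hE : E.Countable)
    (hb : ∀ g ∈ H k E, actB g b = b) {g : ↥Gp} (hg : ∀ x ∈ E, g.1 x = x) : actB g b = b := by
  have key : ∀ g : ↥Gp, (∀ x ∈ E, g.1 x = x) → b ≤ actB g b := by
    intro g hg
    have h1 : ∀ b' : B, (∀ p, e p ≤ b → ∃ q ≤ p, e q ≤ b') → b ≤ b' := by
      intro b' h
      by_contra hcon
      have h2 : b ⊓ b'ᶜ ≠ ⊥ := fun h3 => hcon (by
        rw [← disjoint_iff, disjoint_compl_right_iff] at h3; exact h3)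
      obtain ⟨p, hp⟩ := RO.dense_e.dense _ h2
      obtain ⟨q, hq, hq'⟩ := h p (hp.trans inf_le_left)
      exact RO.dense_e.not_both hq' ((e_mono hq).trans (hp.trans inf_le_right))
    refine h1 _ fun p hp => ⟨p, le_rfl, (e_mono (le_rs p E)).trans ?_⟩
    have h3 := restr_le hE hb hp
    have h4 := (actB g).monotone h3
    rwa [act_e, ac_eq_of_on (on_rs p E) hg] at h4
  refine le_antisymm ?_ (key g hg)
  have h2 := (actB g).monotone (key g⁻¹ fun x hx => by
    change g.1⁻¹ x = x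
    rw [Equiv.Perm.inv_eq_iff_eq]; exact (hg x hx).symm)
  rwa [SymSys.act_act_inv sys] at h2

theorem le_of_forall_e {b b' : B} (h : ∀ p, e p ≤ b → ∃ q ≤ p, e q ≤ b') : b ≤ b' := by
  by_contra hcon
  have h2 : b ⊓ b'ᶜ ≠ ⊥ := fun h3 => hcon (by
    rw [← disjoint_iff, disjoint_compl_right_iff] at h3; exact h3)
  obtain ⟨p, hp⟩ := RO.dense_e.dense _ h2
  obtain ⟨q, hq, hq'⟩ := h p (hp.trans inf_le_left)
  exact RO.dense_e.not_both hq' ((e_mono hq).trans (hp.trans inf_le_right))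

/-- Countably many choices. -/
theorem exists_choice {ι : Type} [Countable ι] {J : ι → Type*} (f : ∀ i, J i → B) (p : Cond)
    (h : ∀ i, e p ≤ ⨆ j, f i j) : ∃ q ≤ p, ∃ s : ∀ i, J i, ∀ i, e q ≤ f i (s i) := by
  have hstep : ∀ (i : ι) (q : Cond), ∃ r ≤ q, q ≤ p → ∃ j, e r ≤ f i j := by
    intro i q
    by_cases hq : q ≤ p
    · obtain ⟨r, hr, j, hj⟩ := RO.dense_e.exists_iSup ((e_mono hq).trans (h i))
      exact ⟨r, hr, fun _ => ⟨j, hj⟩⟩
    · exact ⟨q, le_rfl, fun h' => absurd h' hq⟩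
  choose g hg hg' using hstep
  rcases isEmpty_or_nonempty ι with hι | hι
  · exact ⟨p, le_rfl, fun i => isEmptyElim i, fun i => isEmptyElim i⟩
  obtain ⟨u, hu⟩ := exists_surjective_nat ι
  let s : ℕ → Cond := fun n => Nat.rec p (fun n q => g (u n) q) n
  have hsp : ∀ n, s n ≤ p := by
    intro n
    induction n with
    | zero => exact le_rfl
    | succ n ih => exact (hg (u n) (s n)).trans ih
  obtain ⟨q, hq, _⟩ := exists_lim s fun n => hg (u n) (s n)
  have key : ∀ i, ∃ j, e q ≤ f i j := by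
    intro i
    obtain ⟨n, rfl⟩ := hu i
    obtain ⟨j, hj⟩ := hg' (u n) (s n) (hsp n)
    exact ⟨j, (e_mono (hq (n + 1))).trans hj⟩
  choose t ht using key
  exact ⟨q, hq 0, t, ht⟩

theorem le_of_inf_e {p q : Cond} {b : B} (h : ∀ s, s ≤ p → s ≤ q → e s ≤ b) :
    e p ⊓ e q ≤ b := by
  refine le_of_forall_e fun s hs => ?_
  obtain ⟨r, hr, hr'⟩ := RO.dense_e.compat s p (by
    rw [inf_eq_left.2 (hs.trans inf_le_left)]; exact e_ne_bot s)
  obtain ⟨r', h1, h2⟩ := RO.dense_e.compat r q (by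
    rw [inf_eq_left.2 ((e_mono hr).trans (hs.trans inf_le_right))]; exact e_ne_bot r)
  exact ⟨r', h1.trans hr, h r' (h1.trans hr') h2⟩

/-- Countably many decisions. -/
theorem exists_decide {ι : Type} [Countable ι] (b : ι → B) (p : Cond) :
    ∃ q ≤ p, ∀ i, e q ≤ b i ∨ e q ≤ (b i)ᶜ := by
  have hstep : ∀ (i : ι) (p : Cond), ∃ q ≤ p, e q ≤ b i ∨ e q ≤ (b i)ᶜ := by
    intro i p
    by_cases h : e p ≤ b i
    · exact ⟨p, le_rfl, Or.inl h⟩
    · obtain ⟨q, hq, hq'⟩ := RO.dense_e.exists_compl h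
      exact ⟨q, hq, Or.inr hq'⟩
  choose g hg hg' using hstep
  rcases isEmpty_or_nonempty ι with hι | hι
  · exact ⟨p, le_rfl, fun i => hι.elim i⟩
  obtain ⟨u, hu⟩ := exists_surjective_nat ι
  let s : ℕ → Cond := fun n => Nat.rec p (fun n q => g (u n) q) n
  obtain ⟨q, hq, _⟩ := exists_lim s fun n => hg (u n) (s n)
  refine ⟨q, hq 0, fun i => ?_⟩
  obtain ⟨n, rfl⟩ := hu i
  rcases hg' (u n) (s n) with h | h
  · exact Or.inl ((e_mono (hq (n + 1))).trans h)
  · exact Or.inr ((e_mono (hq (n + 1))).trans h)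

end Cir

end SymExt
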