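import Pool.Agent.Lib.MP_4e922d_lc.Nonsep

/-!
# The model
-/

namespace SymExt

namespace Cir

open Name

/-- Codes of the additional operations. -/
abbrev OpI : Type := (ℕ × ℕ) ⊕ (Σ k : ℕ, Rt k)

/-- The additional operations. -/
noncomputable def opM : OpI → List (Name B) → Name B
  | .inl (0, _), l => unop true (l.getD 0 empN)
  | .inl (1, _), l => unop false (l.getD 0 empN)
  | .inl (2, i), l => compN i (l.getD 0 empN)
  | .inl (3, _), l => bigN (unR (l.getD 0 empN))
  | .inl (4, _), l => smallN (unR (l.getD 0 empN))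
  | .inl (5, _), _ => XN
  | .inl (6, _), _ => GN
  | .inl (7, n), _ => AN n 0
  | .inl (_, _), _ => empN
  | .inr ⟨_, r⟩, l => sys.am (rot r) (l.getD 0 empN)

/-- The additional requirements. -/
noncomputable def reqM (r : ℕ × ℕ × ℕ × ℚ) (l : List (Name B)) : Set (B × List (Name B)) :=
  let j := r.2.1
  let m := r.2.2.1
  let a := l.getD 0 empN
  let b := l.getD 1 empN
  let c := l.getD 2 empN
  match r.1 with
  | 0 => rqA a 3 (βtri b j)
  | 1 => rqA a 2 (βsep b)
  | 2 => rqA a (m + 1) (βtb b j m)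
  | 3 => fam (fun j => (ALL a 3 (βtri b j))ᶜ) fun _ : ℕ => []
  | 4 => fam (fun j => (⨆ m, ALL a (m + 1) (βtb b j m))ᶜ) fun _ : ℕ => []
  | 5 => rqS a b j
  | 6 => rqR fun n => bmem (natN n) a
  | 7 => rqR (γc a b)
  | 8 => fam (fun i : a.idx => bd b c (Cir.unop false (a.elt i)) (cd j)) fun _ => []
  | 9 => fam (fun r : Rt j => (beq (sys.am (rot r) a) a)ᶜ) fun _ => []
  | 10 => fam (fun t : T => (⨆ J : {J // t ∈ arc J}, bJ a j J.1)ᶜ) fun t => [AN j t]
  | 11 => fam (fun t : {t // t ∈ arc (r.2.2.2, m)} => (bmem (AN j t.1) a)ᶜ) fun t => [AN j t.1]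
  | 12 => fam (fun L : {L : List (ℚ × ℕ) // ∀ t, ∃ J ∈ L, t ∈ arc J} =>
    ⨅ J : {J // J ∈ L.1}, bJ a j J.1) fun _ => []
  | 13 => fam (fun i : a.idx => a.wt i ⊓
    ⨅ t : {t // t ∈ arc (r.2.2.2, m)}, bmem (AN j t.1) (a.elt i)) fun i => [a.elt i]
  | _ => ∅

instance (k : ℕ) : Countable (Rt k) := inferInstance

/-- There is a countable transitive model of ZF in which every uncountable compact metrizable
space has size at least the continuum, but some compact metrizable space is not separable. -/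
theorem main : ∃ N : Set ZFSet.{0}, N.Countable ∧ IsZF N ∧ MCU N ∧ ¬ MCS N := by
  obtain ⟨C, U, h, _, hop, hreq⟩ := exists_good sys opM reqM ⊤ top_ne_bot
  have hmem : ∀ {a : Name B}, a ∈ C → ∀ x ∈ [a], x ∈ C := by
    intro a ha x hx
    rw [List.mem_singleton] at hx
    rwa [hx]
  have hmem2 : ∀ {a b : Name B}, a ∈ C → b ∈ C → ∀ x ∈ [a, b], x ∈ C := by
    intro a b ha hb x hx
    simp only [List.mem_cons, List.not_mem_nil, or_false] at hx
    rcases hx with rfl | rfl
    · exact ha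
    · exact hb
  have hmem3 : ∀ {a b c : Name B}, a ∈ C → b ∈ C → c ∈ C → ∀ x ∈ [a, b, c], x ∈ C := by
    intro a b c ha hb hc x hx
    simp only [List.mem_cons, List.not_mem_nil, or_false] at hx
    rcases hx with rfl | rfl | rfl
    · exact ha
    · exact hb
    · exact hc
  have hnil : ∀ x ∈ ([] : List (Name B)), x ∈ C := by simp
  have hunop : ∀ x y : Name B, opN x y ∈ C → x ∈ C ∧ y ∈ C := fun x y hxy => by
    have e1 := hop (.inl (0, 0)) [opN x y] (hmem hxy)
    have e2 := hop (.inl (1, 0)) [opN x y] (hmem hxy)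
    change unop true (opN x y) ∈ C at e1
    change unop false (opN x y) ∈ C at e2
    rw [unop_opN] at e1 e2
    exact ⟨e1, e2⟩
  have hrot : ∀ w ∈ C, ∀ (k : ℕ) (r : Rt k), sys.am (rot r) w ∈ C := fun w hw k r =>
    hop (.inr ⟨k, r⟩) [w] (hmem hw)
  have hM : GoodM C U :=
    { unop := hunop
      comp := fun z hz i => hop (.inl (2, i)) [z] (hmem hz)
      rotm := hrot
      bigm := fun s hs => by
        have e1 := hop (.inl (3, 0)) [rN s] (hmem hs)
        change bigN (unR (rN s)) ∈ C at e1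
        rwa [unR_rN] at e1
      smallm := fun s hs => by
        have e1 := hop (.inl (4, 0)) [rN s] (hmem hs)
        change smallN (unR (rN s)) ∈ C at e1
        rwa [unR_rN] at e1
      tri := fun Y hY G hG j => hreq (0, j, 0, 0) [Y, G] (hmem2 hY hG)
      sep := fun Y hY G hG => hreq (1, 0, 0, 0) [Y, G] (hmem2 hY hG)
      tb := fun Y hY G hG j m => hreq (2, j, m, 0) [Y, G] (hmem2 hY hG)
      trij := fun Y hY G hG => hreq (3, 0, 0, 0) [Y, G] (hmem2 hY hG)
      tbj := fun Y hY G hG => hreq (4, 0, 0, 0) [Y, G] (hmem2 hY hG)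
      seqr := fun Y hY G hG k => hreq (5, k, 0, 0) [Y, G] (hmem2 hY hG)
      real := fun w hw => hreq (6, 0, 0, 0) [w] (hmem hw)
      code := fun z hz G hG => hreq (7, 0, 0, 0) [z, G] (hmem2 hz hG)
      near := fun z hz G hG w hw j => hreq (8, j, 0, 0) [z, G, w] (hmem3 hz hG hw)
      rotr := fun w hw k => hreq (9, k, 0, 0) [w] (hmem hw) }
  have hA : GoodA C U :=
    { unop := hunop
      rotm := hrot
      XN := hop (.inl (5, 0)) [] hnil
      GN := hop (.inl (6, 0)) [] hnil
      AN0 := fun n => hop (.inl (7, n)) [] hnil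
      c1 := fun V hV n => hreq (10, n, 0, 0) [V] (hmem hV)
      c2 := fun O hO n J => hreq (11, n, J.2, J.1) [O] (hmem hO)
      c3 := fun V hV n => hreq (12, n, 0, 0) [V] (hmem hV)
      c4 := fun V hV n J => hreq (13, n, J.2, J.1) [V] (hmem hV) }
  exact ⟨model sys C U, model_countable h, h.isZF, mcu h hM, not_mcs h hA⟩

end Cir

end SymExt
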