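import Pool.Agent.Lib.MP_4e922d_lc.Spec
import Pool.Agent.Lib.MP_694cb9_lc.Model
import Pool.Agent.Lib.MP_694cb9_lc.SName

/-!
# Compact metric spaces with sequence data
-/

namespace SymExt

universe u

namespace S

/-! ### Rational bounds -/

theorem rat_surj {q : ℚ} (hq : 0 ≤ q) : ∃ l, rat l = (q : ℝ) := by
  refine ⟨Nat.pair q.num.natAbs (q.den - 1), ?_⟩
  rw [rat, Nat.unpair_pair]
  have h1 : ((q.num.natAbs : ℕ) : ℝ) = (q.num : ℝ) := by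
    have h : ((q.num.natAbs : ℕ) : ℤ) = q.num := Int.natAbs_of_nonneg (Rat.num_nonneg.2 hq)
    calc ((q.num.natAbs : ℕ) : ℝ) = (((q.num.natAbs : ℕ) : ℤ) : ℝ) := (Int.cast_natCast _).symm
      _ = (q.num : ℝ) := by rw [h]
  have h2 : (((q.den - 1 : ℕ) : ℝ) + 1) = (q.den : ℝ) := by
    have h : q.den - 1 + 1 = q.den := Nat.sub_add_cancel q.den_pos
    calc (((q.den - 1 : ℕ) : ℝ) + 1) = ((q.den - 1 + 1 : ℕ) : ℝ) := by push_cast; rfl
      _ = (q.den : ℝ) := by rw [h]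
  simp only
  rw [h1, h2]
  conv_rhs => rw [Rat.cast_def]

theorem exists_rat_small {ε : ℝ} (hε : 0 < ε) : ∃ l, 0 < rat l ∧ rat l < ε := by
  obtain ⟨q, hq0, hq1⟩ := exists_rat_btwn hε
  obtain ⟨l, hl⟩ := rat_surj (q := q) (by exact_mod_cast hq0.le)
  exact ⟨l, by rw [hl]; exact hq0, by rw [hl]; exact hq1⟩

theorem eq_of_rat {a b : ℝ} (ha : 0 ≤ a) (h : ∀ l, a < rat l ↔ b < rat l) : a = b := by
  have hb : 0 ≤ b := by
    by_contra hb
    obtain ⟨l, hl⟩ := rat_surj (q := 0) le_rfl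
    have h1 := (h l).2 (by rw [hl]; push Not at hb; simpa using hb)
    rw [hl] at h1
    simp at h1
    linarith
  rcases lt_trichotomy a b with hab | hab | hab
  · obtain ⟨q, h1, h2⟩ := exists_rat_btwn hab
    obtain ⟨l, hl⟩ := rat_surj (q := q) (by
      have : (0 : ℝ) ≤ q := ha.trans h1.le
      exact_mod_cast this)
    have := (h l).1 (by rw [hl]; exact h1)
    rw [hl] at this
    linarith
  · exact hab
  · obtain ⟨q, h1, h2⟩ := exists_rat_btwn hab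
    obtain ⟨l, hl⟩ := rat_surj (q := q) (by
      have : (0 : ℝ) ≤ q := hb.trans h1.le
      exact_mod_cast this)
    have := (h l).2 (by rw [hl]; exact h1)
    rw [hl] at this
    linarith

/-! ### The graph of the metric -/

section

variable {N : Set ZFSet.{u}} {X τ g : ZFSet.{u}} {d : ZFSet.{u} → ZFSet.{u} → ℝ}

theorem mem_graph (hg : IsGraph X g d) {x y : ZFSet.{u}} {l : ℕ} :
    ZFSet.pair (ZFSet.pair x y) (natSet l) ∈ g ↔ x ∈ X ∧ y ∈ X ∧ d x y < rat l := by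
  rw [hg]
  constructor
  · rintro ⟨a, ha, b, hb, k, hk, e⟩
    obtain ⟨e1, e2⟩ := ZFSet.pair_inj.1 e
    obtain ⟨e3, e4⟩ := ZFSet.pair_inj.1 e1
    obtain rfl := natSet_inj e2
    subst e3 e4
    exact ⟨ha, hb, hk⟩
  · rintro ⟨ha, hb, h⟩
    exact ⟨x, ha, y, hb, l, h, rfl⟩

/-- Balls with rational radius are open sets of the model. -/
theorem ball_mem (hN : IsZF N) (hb : StBall N) (hX : X ∈ N) (hg : g ∈ N) (hd : MetricIn N X d)
    (hgr : IsGraph X g d) (hτ : ∀ O, O ∈ τ ↔ O ∈ N ∧ OpenFor X d O) {x : ZFSet.{u}} (hx : x ∈ X)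
    (l : ℕ) : ∃ O ∈ τ, ∀ y, y ∈ O ↔ y ∈ X ∧ d x y < rat l := by
  obtain ⟨O, hO, h⟩ := hb X hX g hg x (hN.trans X hX x hx) l
  have h' : ∀ y, y ∈ O ↔ y ∈ X ∧ d x y < rat l := fun y => by
    rw [h, mem_graph hgr]
    exact ⟨fun k => ⟨k.1, k.2.2.2⟩, fun k => ⟨k.1, hx, k.1, k.2⟩⟩
  refine ⟨O, (hτ O).2 ⟨hO, fun y hy => ((h' y).1 hy).1, fun y hy => ?_⟩, h'⟩
  obtain ⟨hy1, hy2⟩ := (h' y).1 hy
  refine ⟨rat l - d x y, by linarith, fun z hz hyz => (h' z).2 ⟨hz, ?_⟩⟩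
  have := hd.tri x hx y hy1 z hz
  linarith

theorem dself (hd : MetricIn N X d) {x : ZFSet.{u}} (hx : x ∈ X) : d x x = 0 :=
  (hd.zero_iff x hx x hx).2 rfl

end

end S

open S

theorem stTB : StTB.{u} := by
  intro N hN hb hc X τ d hX hτN hd hτ hcomp ε hε
  obtain ⟨g, hg, hgr⟩ := hd.mem
  obtain ⟨l, hl0, hl⟩ := exists_rat_small (half_pos hε)
  obtain ⟨V, hV, hVm⟩ := hc X hX g hg τ hτN l
  obtain ⟨s, hs, hsV, hsX⟩ := hcomp V hV (fun O hO => ((hVm O).1 hO).1) (by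
    intro x hx
    obtain ⟨O, hO, h⟩ := ball_mem hN hb hX hg hd hgr hτ hx l
    refine ⟨O, (hVm O).2 ⟨hO, x, hx, fun y hy => ?_⟩, (h x).2 ⟨hx, by rw [dself hd hx]; exact hl0⟩⟩
    exact (mem_graph hgr).2 ⟨hx, ((h y).1 hy).1, ((h y).1 hy).2⟩)
  refine ⟨s.ncard, fun t ht => ?_⟩
  choose O hOs hOt using fun a => hsX (t a) (ht a)
  have hfin : Fintype s := hs.fintype
  have hcard : Fintype.card s < Fintype.card (Fin (s.ncard + 1)) := by
    rw [Fintype.card_fin, ← Nat.card_eq_fintype_card, Nat.card_coe_set_eq]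
    exact Nat.lt_succ_self _
  obtain ⟨a, b, hab, e⟩ := Fintype.exists_ne_map_eq_of_card_lt (fun a => (⟨O a, hOs a⟩ : s)) hcard
  have e' : O a = O b := congrArg Subtype.val e
  have key : ∀ a b, O a = O b → d (t a) (t b) < ε := by
    intro a b e
    obtain ⟨-, x, hx, h⟩ := (hVm (O a)).1 (hsV _ (hOs a))
    have h1 := ((mem_graph hgr).1 (h (t a) (hOt a))).2.2
    have h2 := ((mem_graph hgr).1 (h (t b) (e ▸ hOt b))).2.2
    have h3 := hd.tri (t a) (ht a) x hx (t b) (ht b)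
    rw [hd.symm (t a) (ht a) x hx] at h3
    linarith
  rcases lt_or_gt_of_ne hab with h | h
  · exact ⟨a, b, h, key a b e'⟩
  · exact ⟨b, a, h, key b a e'.symm⟩

namespace S

section

variable {N : Set ZFSet.{u}} {X τ g : ZFSet.{u}} {d : ZFSet.{u} → ZFSet.{u} → ℝ}
  {I : Set ℕ} {y : ℕ → ZFSet.{u}} {sq : ZFSet.{u}}

theorem pmet (hd : MetricIn N X d) (hy : ∀ i ∈ I, y i ∈ X) :
    PMet I (fun i j => d (y i) (y j)) :=
  ⟨fun i hi => dself hd (hy i hi), fun i hi j hj => hd.symm _ (hy i hi) _ (hy j hj),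
    fun i hi j hj k hk => hd.tri _ (hy i hi) _ (hy j hj) _ (hy k hk)⟩

theorem mem_seq (hsq : ∀ z, z ∈ sq ↔ ∃ i ∈ I, z = ZFSet.pair (natSet i) (y i)) {i : ℕ}
    {x : ZFSet.{u}} : ZFSet.pair (natSet i) x ∈ sq ↔ i ∈ I ∧ x = y i := by
  rw [hsq]
  constructor
  · rintro ⟨j, hj, e⟩
    obtain ⟨e1, e2⟩ := ZFSet.pair_inj.1 e
    obtain rfl := natSet_inj e1
    exact ⟨hj, e2⟩
  · rintro ⟨hi, rfl⟩
    exact ⟨i, hi, rfl⟩

/-- The distances from a point in the closure of the sequence form a row. -/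
theorem row_of_near (hd : MetricIn N X d) (hy : ∀ i ∈ I, y i ∈ X) {x : ZFSet.{u}} (hx : x ∈ X)
    (h : ∀ ε > 0, ∃ i ∈ I, d x (y i) < ε) :
    Row I (fun i j => d (y i) (y j)) (fun i => d x (y i)) := by
  refine ⟨h, fun i hi j hj => ⟨?_, ?_⟩⟩
  · have := hd.tri x hx (y j) (hy j hj) (y i) (hy i hi)
    rw [hd.symm (y j) (hy j hj) (y i) (hy i hi)] at this
    simp only
    linarith
  · have := hd.tri (y i) (hy i hi) x hx (y j) (hy j hj)
    rw [hd.symm (y i) (hy i hi) x hx] at this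
    exact this

theorem row_congr {M : ℕ → ℕ → ℝ} {ρ σ : ℕ → ℝ} (h : Row I M ρ) (e : ∀ i ∈ I, ρ i = σ i) :
    Row I M σ := by
  refine ⟨fun ε hε => ?_, fun i hi j hj => ?_⟩
  · obtain ⟨i, hi, h1⟩ := h.1 ε hε
    exact ⟨i, hi, by rw [← e i hi]; exact h1⟩
  · rw [← e i hi, ← e j hj]
    exact h.2 i hi j hj

/-- Two points with the same row are equal. -/
theorem eq_of_row (hd : MetricIn N X d) (hy : ∀ i ∈ I, y i ∈ X) {x x' : ZFSet.{u}} (hx : x ∈ X)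
    (hx' : x' ∈ X) {ρ : ℕ → ℝ} (hρ : ∀ ε > 0, ∃ i ∈ I, ρ i < ε) (e : ∀ i ∈ I, d x (y i) = ρ i)
    (e' : ∀ i ∈ I, d x' (y i) = ρ i) : x = x' := by
  rw [← hd.zero_iff x hx x' hx']
  refine le_antisymm (le_of_forall_pos_le_add fun ε hε => ?_) (hd.nonneg x hx x' hx')
  obtain ⟨i, hi, h1⟩ := hρ _ (half_pos hε)
  have := hd.tri x hx (y i) (hy i hi) x' hx'
  rw [hd.symm (y i) (hy i hi) x' hx', e i hi, e' i hi] at this
  linarith

theorem realSet_inj {r r' : Set ℕ} (h : (realSet r : ZFSet.{u}) = realSet r') : r = r' := by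
  have key : ∀ {r r' : Set ℕ}, (realSet r : ZFSet.{u}) = realSet r' → r ⊆ r' := by
    intro r r' h n hn
    have h1 : natSet n ∈ (realSet r : ZFSet.{u}) := by
      rw [realSet, ZFSet.mem_sep]
      exact ⟨mem_omega_iff.2 ⟨n, rfl⟩, n, hn, rfl⟩
    rw [h, realSet, ZFSet.mem_sep] at h1
    obtain ⟨-, m, hm, e⟩ := h1
    rwa [natSet_inj e]
  exact Set.Subset.antisymm (key h) (key h.symm)

theorem exists_realSet {r : ZFSet.{u}} (h : r ⊆ ZFSet.omega) : ∃ r₀ : Set ℕ, r = realSet r₀ := by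
  refine ⟨{n | natSet n ∈ r}, ?_⟩
  ext z
  rw [realSet, ZFSet.mem_sep]
  constructor
  · intro hz
    obtain ⟨n, rfl⟩ := mem_omega_iff.1 (h hz)
    exact ⟨h hz, n, hz, rfl⟩
  · rintro ⟨-, n, hn, rfl⟩
    exact hn

theorem exists_delta {α : Type*} {s : Set α} (hs : s.Finite) (h : α → ℝ) (hp : ∀ a ∈ s, 0 < h a) :
    ∃ δ > 0, ∀ a ∈ s, δ ≤ h a := by
  rcases s.eq_empty_or_nonempty with rfl | hne
  · exact ⟨1, one_pos, by simp⟩
  · obtain ⟨a, ha, h1⟩ := Set.exists_min_image s h hs hne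
    exact ⟨h a, hp a ha, h1⟩

/-- Compactness: a row defined in the model is realised by a point. -/
theorem realised (hN : IsZF N) (hb : StBall N) (h2 : StCov2 N) (hX : X ∈ N) (hτN : τ ∈ N)
    (hg : g ∈ N) (hd : MetricIn N X d) (hgr : IsGraph X g d)
    (hτ : ∀ O, O ∈ τ ↔ O ∈ N ∧ OpenFor X d O) (hcomp : CompactIn N X τ)
    (hy : ∀ i ∈ I, y i ∈ X) (hsqN : sq ∈ N)
    (hsq : ∀ z, z ∈ sq ↔ ∃ i ∈ I, z = ZFSet.pair (natSet i) (y i)) {Φ r : ZFSet.{u}} (hΦ : Φ ∈ N)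
    (hr : r ∈ N) {ρ : ℕ → ℝ} (hρ : Row I (fun i j => d (y i) (y j)) ρ)
    (hΦr : ∀ i l : ℕ, ZFSet.pair (ZFSet.pair r (natSet i)) (natSet l) ∈ Φ ↔
      i ∈ I ∧ ρ i < rat l) : ∃ x ∈ X, ∀ i ∈ I, d x (y i) = ρ i := by
  by_contra hne
  push Not at hne
  obtain ⟨V, hV, hVm⟩ := h2 X hX g hg τ hτN sq hsqN Φ hΦ r hr
  have hcov : ∀ x ∈ X, ∃ O ∈ V, x ∈ O := by
    intro x hx
    obtain ⟨i₀, hi₀, hne₀⟩ := hne x hx
    have hl : ∃ l, 0 < rat l ∧ ∀ i ∈ I, ρ i < rat l → ¬ d x (y i) < rat l := by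
      by_contra hcon
      push Not at hcon
      apply hne₀
      rw [← sub_eq_zero, ← abs_nonpos_iff]
      refine le_of_forall_pos_le_add fun ε hε => ?_
      obtain ⟨l, hl0, hl⟩ := exists_rat_small (half_pos hε)
      obtain ⟨i, hi, h3, h4⟩ := hcon l hl0
      have h5 := hρ.2 i hi i₀ hi₀
      have h6 := (hρ.2 i₀ hi₀ i hi).1
      simp only at h5 h6
      have h7 := hd.tri x hx (y i) (hy i hi) (y i₀) (hy i₀ hi₀)
      have h8 := hd.tri (y i) (hy i hi) x hx (y i₀) (hy i₀ hi₀)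
      rw [hd.symm (y i) (hy i hi) x hx] at h8
      rw [hd.symm (y i₀) (hy i₀ hi₀) (y i) (hy i hi)] at h6
      rw [zero_add, abs_le]
      constructor
      · linarith
      · linarith [h5.2]
    obtain ⟨l, hl0, hl⟩ := hl
    obtain ⟨O, hO, hOm⟩ := ball_mem hN hb hX hg hd hgr hτ hx l
    refine ⟨O, (hVm O).2 ⟨hO, l, ⟨x, hx, ?_⟩, ?_⟩, (hOm x).2 ⟨hx, by rw [dself hd hx]; exact hl0⟩⟩
    · exact (mem_graph hgr).2 ⟨hx, hx, by rw [dself hd hx]; exact hl0⟩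
    · intro i z h3 h4 h5
      obtain ⟨hi, rfl⟩ := (mem_seq hsq).1 h4
      exact hl i hi ((hΦr i l).1 h3).2 ((hOm _).1 h5).2
  obtain ⟨s, hs, hsV, hsX⟩ := hcomp V hV (fun O hO => ((hVm O).1 hO).1) hcov
  have hch : ∀ O ∈ s, ∃ l : ℕ, 0 < rat l ∧ ∀ i ∈ I, ρ i < rat l → y i ∉ O := by
    intro O hO
    obtain ⟨-, l, ⟨x, hx, hx2⟩, h3⟩ := (hVm O).1 (hsV O hO)
    refine ⟨l, ?_, fun i hi h4 => h3 i (y i) ((hΦr i l).2 ⟨hi, h4⟩) ((mem_seq hsq).2 ⟨hi, rfl⟩)⟩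
    have := ((mem_graph hgr).1 hx2).2.2
    rwa [dself hd hx] at this
  choose! L hL using hch
  obtain ⟨δ, hδ, hδs⟩ := exists_delta hs (fun O => rat (L O)) (fun O hO => (hL O hO).1)
  obtain ⟨i, hi, h3⟩ := hρ.1 δ hδ
  obtain ⟨O, hO, h4⟩ := hsX (y i) (hy i hi)
  exact (hL O hO).2 i hi (h3.trans_le (hδs O hO)) h4

end

end S

theorem stS : StS.{u} := by
  intro hV1 N hN ⟨_, _, hb, _, h2, hrel, hrel'⟩ X τ d hX hτN hd hτ hcomp I y D
  obtain ⟨g, hg, hgr⟩ := hd.mem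
  by_cases hA : ∃ k, ∃ ρ, RowsBig (I k) (fun i j => d (y k i) (y k j)) ρ
  · right
    obtain ⟨k, hk⟩ := hA
    obtain ⟨ρ, hρ, Φ, hΦ, hΦm⟩ := D.big k hk
    obtain ⟨sq, hsqN, hsq⟩ := D.seq k
    obtain ⟨R, hR, hRm⟩ := hN.power ZFSet.omega hN.omega
    refine ⟨R, hR, hRm, ?_⟩
    obtain ⟨f, hf, hfm⟩ := hrel R hR X hX g hg sq hsqN Φ hΦ
    have hy := D.mem k
    have hΦr : ∀ r : Set ℕ, realSet r ∈ N → ∀ i l : ℕ,
        ZFSet.pair (ZFSet.pair (realSet r) (natSet i)) (natSet l) ∈ Φ ↔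
          i ∈ I k ∧ ρ r i < rat l := by
      intro r hr i l
      rw [hΦm]
      constructor
      · rintro ⟨r', i', l', h3, h4, h5, e⟩
        obtain ⟨e1, e2⟩ := ZFSet.pair_inj.1 e
        obtain ⟨e3, e4⟩ := ZFSet.pair_inj.1 e1
        obtain rfl := realSet_inj e3
        obtain rfl := natSet_inj e4
        obtain rfl := natSet_inj e2
        exact ⟨h4, h5⟩
      · rintro ⟨h4, h5⟩
        exact ⟨r, i, l, hr, h4, h5, rfl⟩
    have key : ∀ r : Set ℕ, realSet r ∈ R → ∀ x, ZFSet.pair (realSet r) x ∈ f ↔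
        x ∈ X ∧ ∀ i ∈ I k, d x (y k i) = ρ r i := by
      intro r hr x
      have hrN := ((hRm _).1 hr).1
      rw [hfm]
      constructor
      · rintro ⟨r', hr', x', hx', e, h3⟩
        obtain ⟨e1, e2⟩ := ZFSet.pair_inj.1 e
        subst e2
        refine ⟨hx', fun i hi => ?_⟩
        have hyi := hy i hi
        refine eq_of_rat (hd.nonneg _ hx' _ hyi) fun l => ?_
        have h4 := h3 i (y k i) l ((mem_seq hsq).2 ⟨hi, rfl⟩)
        rw [← e1, hΦr r hrN, mem_graph hgr] at h4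
        exact ⟨fun h => (h4.1 ⟨hx', hyi, h⟩).2, fun h => (h4.2 ⟨hi, h⟩).2.2⟩
      · rintro ⟨hx, h3⟩
        refine ⟨realSet r, hr, x, hx, rfl, fun i z l hz => ?_⟩
        obtain ⟨hi, rfl⟩ := (mem_seq hsq).1 hz
        rw [hΦr r hrN, mem_graph hgr, h3 i hi]
        exact ⟨fun h => ⟨hi, h.2.2⟩, fun h => ⟨hx, hy i hi, h.2⟩⟩
    refine ⟨f, hf, ?_, ?_, ?_, ?_⟩
    · intro z hz
      obtain ⟨r, hr, x, hx, e, -⟩ := (hfm z).1 hz
      exact ⟨r, hr, x, hx, e⟩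
    · intro a ha
      obtain ⟨r, rfl⟩ := exists_realSet ((hRm a).1 ha).2
      obtain ⟨x, hx, h3⟩ := realised hN hb h2 hX hτN hg hd hgr hτ hcomp hy hsqN hsq hΦ
        ((hRm _).1 ha).1 (hρ.1 r) (hΦr r ((hRm _).1 ha).1)
      exact ⟨x, (key r ha x).2 ⟨hx, h3⟩⟩
    · intro a b b' h3 h4
      have ha : a ∈ R := by
        obtain ⟨r, hr, x, hx, e, -⟩ := (hfm _).1 h3
        rw [(ZFSet.pair_inj.1 e).1]; exact hr
      obtain ⟨r, rfl⟩ := exists_realSet ((hRm a).1 ha).2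
      obtain ⟨hb1, hb2⟩ := (key r ha b).1 h3
      obtain ⟨hb1', hb2'⟩ := (key r ha b').1 h4
      exact eq_of_row hd hy hb1 hb1' (hρ.1 r).1 hb2 hb2'
    · intro a a' b h3 h4
      have ha : a ∈ R := by
        obtain ⟨r, hr, x, hx, e, -⟩ := (hfm _).1 h3
        rw [(ZFSet.pair_inj.1 e).1]; exact hr
      have ha' : a' ∈ R := by
        obtain ⟨r, hr, x, hx, e, -⟩ := (hfm _).1 h4
        rw [(ZFSet.pair_inj.1 e).1]; exact hr
      obtain ⟨r, rfl⟩ := exists_realSet ((hRm a).1 ha).2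
      obtain ⟨r', rfl⟩ := exists_realSet ((hRm a').1 ha').2
      have h5 := ((key r ha b).1 h3).2
      have h6 := ((key r' ha' b).1 h4).2
      rw [hρ.2 r r' fun i hi => (h5 i hi).symm.trans (h6 i hi)]
  · left
    push Not at hA
    have hsm : ∀ k, ∃ ζ, RowsSmall (I k) (fun i j => d (y k i) (y k j)) ζ := by
      intro k
      rcases hV1 (I k) _ (pmet hd (D.mem k)) with h | h
      · exact absurd h (by push Not; exact hA k)
      · exact h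
    obtain ⟨ζ, hζ, Φ, hΦ, hΦm⟩ := D.small 0 (hsm 0)
    obtain ⟨sq, hsqN, hsq⟩ := D.seq 0
    obtain ⟨f, hf, hfm⟩ := hrel' ZFSet.omega hN.omega X hX g hg sq hsqN Φ hΦ
    have hy := D.mem 0
    have hnear : ∀ x ∈ X, ∀ ε > 0, ∃ i ∈ I 0, d x (y 0 i) < ε := by
      intro x hx ε hε
      obtain ⟨k, hk⟩ := D.cover x hx
      obtain ⟨i, hi, h3⟩ := hk _ (half_pos hε)
      obtain ⟨j, hj, h4⟩ := D.rigid k (hsm k) i hi _ (half_pos hε)
      refine ⟨j, hj, ?_⟩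
      have := hd.tri x hx (y k i) (D.mem k i hi) (y 0 j) (hy j hj)
      linarith
    have hΦr : ∀ n i l : ℕ, ZFSet.pair (ZFSet.pair (natSet n) (natSet i)) (natSet l) ∈ Φ ↔
        i ∈ I 0 ∧ ζ n i < rat l := by
      intro n i l
      rw [hΦm]
      constructor
      · rintro ⟨n', i', l', h4, h5, e⟩
        obtain ⟨e1, e2⟩ := ZFSet.pair_inj.1 e
        obtain ⟨e3, e4⟩ := ZFSet.pair_inj.1 e1
        obtain rfl := natSet_inj e3
        obtain rfl := natSet_inj e4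
        obtain rfl := natSet_inj e2
        exact ⟨h4, h5⟩
      · rintro ⟨h4, h5⟩
        exact ⟨n, i, l, h4, h5, rfl⟩
    have key : ∀ n x, ZFSet.pair x (natSet n) ∈ f ↔ x ∈ X ∧ ∀ i ∈ I 0, d x (y 0 i) = ζ n i := by
      intro n x
      rw [hfm]
      constructor
      · rintro ⟨r', hr', x', hx', e, h3⟩
        obtain ⟨e1, e2⟩ := ZFSet.pair_inj.1 e
        subst e1
        refine ⟨hx', fun i hi => ?_⟩
        have hyi := hy i hi
        refine eq_of_rat (hd.nonneg _ hx' _ hyi) fun l => ?_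
        have h4 := h3 i (y 0 i) l ((mem_seq hsq).2 ⟨hi, rfl⟩)
        rw [← e2, hΦr, mem_graph hgr] at h4
        exact ⟨fun h => (h4.1 ⟨hx', hyi, h⟩).2, fun h => (h4.2 ⟨hi, h⟩).2.2⟩
      · rintro ⟨hx, h3⟩
        refine ⟨natSet n, mem_omega_iff.2 ⟨n, rfl⟩, x, hx, rfl, fun i z l hz => ?_⟩
        obtain ⟨hi, rfl⟩ := (mem_seq hsq).1 hz
        rw [hΦr, mem_graph hgr, h3 i hi]
        exact ⟨fun h => ⟨hi, h.2.2⟩, fun h => ⟨hx, hy i hi, h.2⟩⟩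
    have dec : ∀ a b, ZFSet.pair a b ∈ f → ∃ n, b = natSet n := by
      intro a b h
      obtain ⟨r, hr, x, hx, e, -⟩ := (hfm _).1 h
      obtain ⟨n, hn⟩ := mem_omega_iff.1 hr
      exact ⟨n, by rw [(ZFSet.pair_inj.1 e).2, hn]⟩
    refine ⟨f, hf, ?_, ?_, ?_, ?_⟩
    · intro z hz
      obtain ⟨r, hr, x, hx, e, -⟩ := (hfm z).1 hz
      exact ⟨x, hx, r, hr, e⟩
    · intro a ha
      obtain ⟨n, hn⟩ := hζ.1 _ (row_of_near hd hy ha (hnear a ha))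
      exact ⟨natSet n, (key n a).2 ⟨ha, hn⟩⟩
    · intro a b b' h3 h4
      obtain ⟨n, rfl⟩ := dec a b h3
      obtain ⟨m, rfl⟩ := dec a b' h4
      obtain ⟨ha, h5⟩ := (key n a).1 h3
      obtain ⟨-, h6⟩ := (key m a).1 h4
      have hrow := row_of_near hd hy ha (hnear a ha)
      rw [hζ.2 n m (row_congr hrow h5) (row_congr hrow h6)
        fun i hi => (h5 i hi).symm.trans (h6 i hi)]
    · intro a a' b h3 h4
      obtain ⟨n, rfl⟩ := dec a b h3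
      obtain ⟨ha, h5⟩ := (key n a).1 h3
      obtain ⟨ha', h6⟩ := (key n a').1 h4
      refine eq_of_row hd hy ha ha' (ρ := ζ n) (fun ε hε => ?_) h5 h6
      obtain ⟨i, hi, h7⟩ := hnear a ha ε hε
      exact ⟨i, hi, by rw [← h5 i hi]; exact h7⟩

end SymExt
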