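import Pool.Agent.Lib.MP_4e922d_lc.Spec

/-!
# The completion of a countable pseudometric space
-/

namespace SymExt

open Filter Topology

namespace V1

section

variable {I : Set ℕ} {M : ℕ → ℕ → ℝ}

/-- The index set as a pseudometric space. -/
def Pt (_ : PMet I M) : Type := {i // i ∈ I}

instance (h : PMet I M) : PseudoMetricSpace (Pt h) where
  dist a b := M a.1 b.1
  dist_self a := h.1 a.1 a.2
  dist_comm a b := h.2.1 a.1 a.2 b.1 b.2
  dist_triangle a b c := h.2.2 a.1 a.2 b.1 b.2 c.1 c.2

instance (h : PMet I M) : Countable (Pt h) := by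
  unfold Pt; infer_instance

/-- The completion. -/
abbrev Kp (h : PMet I M) : Type := UniformSpace.Completion (Pt h)

/-- The point of the completion with index `i`. -/
def pt (h : PMet I M) (i : ℕ) (hi : i ∈ I) : Kp h :=
  UniformSpace.Completion.coe' (show Pt h from ⟨i, hi⟩)

theorem dist_pt (h : PMet I M) {i j : ℕ} (hi : i ∈ I) (hj : j ∈ I) :
    dist (pt h i hi) (pt h j hj) = M i j := UniformSpace.Completion.dist_eq _ _

open Classical in
/-- The row of distances of a point of the completion. -/
noncomputable def row (h : PMet I M) (z : Kp h) (i : ℕ) : ℝ :=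
  if hi : i ∈ I then dist z (pt h i hi) else 0

theorem row_eq (h : PMet I M) (z : Kp h) {i : ℕ} (hi : i ∈ I) :
    row h z i = dist z (pt h i hi) := by rw [row, dif_pos hi]

theorem exists_near (h : PMet I M) (z : Kp h) {ε : ℝ} (hε : 0 < ε) :
    ∃ i, ∃ hi : i ∈ I, dist z (pt h i hi) < ε := by
  obtain ⟨⟨i, hi⟩, h1⟩ := (UniformSpace.Completion.denseRange_coe (α := Pt h)).exists_dist_lt z hε
  exact ⟨i, hi, h1⟩

theorem row_row (h : PMet I M) (z : Kp h) : Row I M (row h z) := by
  refine ⟨fun ε hε => ?_, fun i hi j hj => ?_⟩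
  · obtain ⟨i, hi, h1⟩ := exists_near h z hε
    exact ⟨i, hi, by rw [row_eq h z hi]; exact h1⟩
  · rw [row_eq h z hi, row_eq h z hj, ← dist_pt h hi hj]
    refine ⟨?_, ?_⟩
    · have := dist_triangle z (pt h j hj) (pt h i hi)
      rw [dist_comm (pt h j hj)] at this
      linarith
    · have := dist_triangle (pt h i hi) z (pt h j hj)
      rw [dist_comm (pt h i hi) z] at this
      linarith

theorem row_inj (h : PMet I M) {z w : Kp h} (e : ∀ i ∈ I, row h z i = row h w i) : z = w := by
  refine dist_le_zero.1 (le_of_forall_pos_le_add fun ε hε => ?_)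
  obtain ⟨i, hi, h1⟩ := exists_near h z (half_pos hε)
  have h2 := e i hi
  rw [row_eq h z hi, row_eq h w hi] at h2
  have := dist_triangle z (pt h i hi) w
  rw [dist_comm (pt h i hi) w, ← h2] at this
  linarith

theorem row_nonneg (h : PMet I M) {ρ : ℕ → ℝ} (hρ : Row I M ρ) {i : ℕ} (hi : i ∈ I) : 0 ≤ ρ i := by
  have := (hρ.2 i hi i hi).2
  rw [h.1 i hi] at this
  linarith

theorem row_surj (h : PMet I M) {ρ : ℕ → ℝ} (hρ : Row I M ρ) :
    ∃ z : Kp h, ∀ i ∈ I, ρ i = row h z i := by
  have hpos : ∀ n : ℕ, (0 : ℝ) < 1 / ((n : ℝ) + 1) := fun n => by positivity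
  choose s hs hs' using fun n : ℕ => hρ.1 _ (hpos n)
  have hlim : Tendsto (fun n : ℕ => (1 : ℝ) / ((n : ℝ) + 1)) atTop (𝓝 0) :=
    tendsto_one_div_add_atTop_nhds_zero_nat
  have hc : CauchySeq (fun n => pt h (s n) (hs n)) := by
    refine cauchySeq_of_le_tendsto_0 (fun n : ℕ => 2 * (1 / ((n : ℝ) + 1))) ?_ ?_
    · intro n m N hn hm
      rw [dist_pt]
      have h1 := (hρ.2 (s n) (hs n) (s m) (hs m)).2
      have h2 := hs' n
      have h3 := hs' m
      have h4 : (1 : ℝ) / ((n : ℝ) + 1) ≤ 1 / ((N : ℝ) + 1) := by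
        apply one_div_le_one_div_of_le (by positivity)
        have : (N : ℝ) ≤ n := by exact_mod_cast hn
        linarith
      have h5 : (1 : ℝ) / ((m : ℝ) + 1) ≤ 1 / ((N : ℝ) + 1) := by
        apply one_div_le_one_div_of_le (by positivity)
        have : (N : ℝ) ≤ m := by exact_mod_cast hm
        linarith
      linarith
    · simpa using hlim.const_mul 2
  obtain ⟨z, hz⟩ := cauchySeq_tendsto_of_complete hc
  refine ⟨z, fun i hi => ?_⟩
  rw [row_eq h z hi]
  have h1 : Tendsto (fun n => dist (pt h (s n) (hs n)) (pt h i hi)) atTop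
      (𝓝 (dist z (pt h i hi))) := hz.dist tendsto_const_nhds
  have h2 : Tendsto (fun n => dist (pt h (s n) (hs n)) (pt h i hi)) atTop (𝓝 (ρ i)) := by
    rw [tendsto_iff_norm_sub_tendsto_zero]
    refine squeeze_zero (fun n => norm_nonneg _) (fun n => ?_) hlim
    rw [dist_pt, Real.norm_eq_abs, abs_le]
    have h3 := hρ.2 (s n) (hs n) i hi
    have h4 := (hρ.2 i hi (s n) (hs n)).1
    have h5 := hs' n
    have h6 := h.2.1 (s n) (hs n) i hi
    refine ⟨?_, ?_⟩
    · rw [← h6] at h4; linarith
    · linarith [h3.2]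
  exact tendsto_nhds_unique h2 h1

end

end V1

open V1

theorem stV1 : StV1 := by
  intro I M h
  classical
  by_cases hc : (Set.univ : Set (Kp h)).Countable
  · right
    have hcc : Countable (Kp h) := Set.countable_univ_iff.1 hc
    obtain ⟨g, hg⟩ := exists_injective_nat (Kp h)
    refine ⟨fun n => if hn : ∃ z, g z = n then row h hn.choose else fun _ => -1, ?_, ?_⟩
    · intro ρ hρ
      obtain ⟨z, hz⟩ := row_surj h hρ
      refine ⟨g z, fun i hi => ?_⟩
      have hn : ∃ w, g w = g z := ⟨z, rfl⟩
      show ρ i = (if hn : ∃ w, g w = g z then row h hn.choose else fun _ => -1) i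
      rw [dif_pos hn, hg hn.choose_spec]
      exact hz i hi
    · intro n m hn hm e
      have key : ∀ n, Row I M (if hn : ∃ z, g z = n then row h hn.choose else fun _ => -1) →
          ∃ z, g z = n := by
        intro n hn
        by_contra hne
        rw [dif_neg hne] at hn
        obtain ⟨i, hi, -⟩ := hn.1 1 one_pos
        have := row_nonneg h hn hi
        norm_num at this
      have h1 := key n hn
      have h2 := key m hm
      simp only [dif_pos h1, dif_pos h2] at e
      rw [← h1.choose_spec, ← h2.choose_spec, row_inj h e]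
  · left
    obtain ⟨f, -, -, hf⟩ := isClosed_univ.exists_nat_bool_injection_of_not_countable hc
    refine ⟨fun r => row h (f fun n => decide (n ∈ r)), fun r => row_row h _, ?_⟩
    intro r r' e
    have h1 := hf (row_inj h e)
    ext n
    have := congrFun h1 n
    simpa using this

end SymExt
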