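import Pool.Agent.Lib.MP_4e922d_lc.Spec

/-!
# Module V2: divisible groups act trivially
-/

namespace SymExt

universe u

open Set Metric

section V2

variable {Γ : Type} [AddCommGroup Γ] {X : Type u} [MetricSpace X]

theorem v2_countable (I : Set ℕ) (y : ℕ → X) (ζ : ℕ → ℕ → ℝ)
    (hζ : ∀ ρ, Row I (fun i j => dist (y i) (y j)) ρ → ∃ n, ∀ i ∈ I, ρ i = ζ n i)
    (f : Γ → X) (hI : ∀ a, ∀ ε > (0 : ℝ), ∃ i ∈ I, dist (f a) (y i) < ε) :
    (closure (range fun a => ((f a : X) : UniformSpace.Completion X))).Countable := by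
  have hC : ∀ z ∈ closure (range fun a => ((f a : X) : UniformSpace.Completion X)),
      ∀ ε > (0 : ℝ), ∃ i ∈ I, dist z (y i : UniformSpace.Completion X) < ε := by
    intro z hz ε hε
    obtain ⟨w, ⟨a, rfl⟩, hw⟩ := Metric.mem_closure_iff.1 hz (ε / 2) (by positivity)
    obtain ⟨i, hi, hi2⟩ := hI a (ε / 2) (by positivity)
    refine ⟨i, hi, ?_⟩
    have h1 : dist ((f a : X) : UniformSpace.Completion X) (y i : UniformSpace.Completion X) =
        dist (f a) (y i) := UniformSpace.Completion.dist_eq _ _
    have h2 := dist_triangle z ((f a : X) : UniformSpace.Completion X)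
      (y i : UniformSpace.Completion X)
    simp only at hw
    linarith
  have hrow : ∀ z ∈ closure (range fun a => ((f a : X) : UniformSpace.Completion X)),
      ∃ n, ∀ i ∈ I, dist z (y i : UniformSpace.Completion X) = ζ n i := by
    intro z hz
    refine hζ (fun i => dist z (y i : UniformSpace.Completion X)) ⟨hC z hz, ?_⟩
    intro i _ j _
    have h1 : dist (y i : UniformSpace.Completion X) (y j : UniformSpace.Completion X) =
        dist (y i) (y j) := UniformSpace.Completion.dist_eq _ _
    constructor
    · have := dist_triangle z (y j : UniformSpace.Completion X) (y i : UniformSpace.Completion X)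
      rw [dist_comm (y j : UniformSpace.Completion X), h1] at this
      simp only
      linarith
    · have := dist_triangle (y i : UniformSpace.Completion X) z (y j : UniformSpace.Completion X)
      rw [dist_comm (y i : UniformSpace.Completion X) z, h1] at this
      exact this
  choose! g hg using hrow
  refine Set.countable_iff_exists_injOn.2 ⟨g, ?_⟩
  intro z hz w hw hzw
  refine eq_of_forall_dist_le fun ε hε => ?_
  obtain ⟨i, hi, hi2⟩ := hC z hz (ε / 2) (by positivity)
  have h1 := hg z hz i hi
  have h2 := hg w hw i hi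
  rw [hzw, ← h2] at h1
  have h3 := dist_triangle z (y i : UniformSpace.Completion X) w
  rw [dist_comm (y i : UniformSpace.Completion X) w] at h3
  linarith

theorem v2_gap (f : Γ → X) (hinv : ∀ a b c, dist (f (a + c)) (f (b + c)) = dist (f a) (f b))
    (hc : (closure (range fun a => ((f a : X) : UniformSpace.Completion X))).Countable) :
    ∃ ε > (0 : ℝ), ∀ a b, dist (f a) (f b) < ε → f a = f b := by
  by_contra hcon
  push Not at hcon
  have hpre : Preperfect (range fun a => ((f a : X) : UniformSpace.Completion X)) := by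
    rintro z ⟨a, rfl⟩
    rw [accPt_iff_nhds]
    intro U hU
    obtain ⟨ε, hε, hεU⟩ := Metric.mem_nhds_iff.1 hU
    obtain ⟨b, c, hbc, hne⟩ := hcon ε hε
    -- move `b` to `a`
    have h1 : dist (f a) (f (c + (a - b))) = dist (f b) (f c) := by
      rw [← hinv b c (a - b), add_sub_cancel]
    refine ⟨((f (c + (a - b)) : X) : UniformSpace.Completion X), ⟨hεU ?_, ⟨_, rfl⟩⟩, ?_⟩
    · rw [Metric.mem_ball, dist_comm]
      have h2 : dist ((f a : X) : UniformSpace.Completion X)
          ((f (c + (a - b)) : X) : UniformSpace.Completion X) = dist (f a) (f (c + (a - b))) :=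
        UniformSpace.Completion.dist_eq _ _
      rw [h2, h1]
      exact hbc
    · intro h
      have h3 : f (c + (a - b)) = f a := UniformSpace.Completion.coe_injective X h
      rw [h3, dist_self] at h1
      exact hne (dist_eq_zero.1 h1.symm)
  have hperf := hpre.perfect_closure
  obtain ⟨F, hF, -, hinj⟩ := hperf.exists_nat_bool_injection
    (closure_nonempty_iff.2 (range_nonempty _))
  have h1 : (range F).Countable := hc.mono hF
  have h2 : Countable (ℕ → Bool) := by
    have := h1.to_subtype
    exact (Equiv.ofInjective F hinj).countable_iff.2 this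
  have h3 : ¬ Countable (ℕ → Bool) := by
    intro h
    obtain ⟨G, hG⟩ := exists_surjective_nat (ℕ → Bool)
    obtain ⟨n, hn⟩ := hG fun k => !(G k k)
    have h5 := congrFun hn n
    cases h6 : G n n <;> rw [h6] at h5 <;> cases h5
  exact h3 h2

/-- Module V2. -/
theorem stV2 : StV2.{u} := by
  intro Γ _ hdiv X _ htb I y ζ hζ f hinv hI a
  have hc := v2_countable I y ζ hζ f hI
  obtain ⟨ε, hε, hgap⟩ := v2_gap f hinv hc
  obtain ⟨m, hm⟩ := htb ε hε
  obtain ⟨b, rfl⟩ := hdiv m.factorial (Nat.factorial_ne_zero m) a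
  obtain ⟨i, j, hij, hd⟩ := hm fun j => f ((j : ℕ) • b)
  have h1 : f ((i : ℕ) • b) = f ((j : ℕ) • b) := hgap _ _ hd
  set d := (j : ℕ) - (i : ℕ) with hdd
  have hd1 : 1 ≤ d := by
    have : (i : ℕ) < (j : ℕ) := hij
    omega
  have hd2 : d ≤ m := by
    have := j.2
    omega
  have h2 : f (d • b) = f 0 := by
    have h3 := hinv (d • b) 0 ((i : ℕ) • b)
    rw [zero_add, ← add_nsmul, hdd, Nat.sub_add_cancel (le_of_lt hij), h1, dist_self] at h3
    exact dist_eq_zero.1 h3.symm
  have h3 : ∀ k : ℕ, f (k • (d • b)) = f 0 := by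
    intro k
    induction k with
    | zero => rw [zero_nsmul]
    | succ k ih =>
      have h4 := hinv (d • b) 0 (k • (d • b))
      rw [zero_add, h2, dist_self, ih] at h4
      rw [succ_nsmul, add_comm]
      exact dist_eq_zero.1 h4
  obtain ⟨k, hk⟩ := Nat.dvd_factorial hd1 hd2
  rw [hk, mul_comm, mul_nsmul']
  exact h3 k

end V2

end SymExt
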