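import Pool.Agent.Lib.MP_4e922d_lc.Mod
import Pool.Agent.Lib.MP_4e922d_lc.V1
import Pool.Agent.Lib.MP_4e922d_lc.V2
import Pool.Agent.Lib.MP_4e922d_lc.T
import Pool.Agent.Lib.MP_4e922d_lc.S

/-!
# Every uncountable compact metrizable space of the model has size at least the continuum
-/

namespace SymExt

namespace Cir

open Name

variable {C : Set (Name B)} {U : Set B}

theorem rat_cd (j : ℕ) : rat (cd j) = 1 / 2 ^ j := by
  unfold rat cd
  rw [Nat.unpair_pair]
  have h1 : (1 : ℕ) ≤ 2 ^ j := Nat.one_le_two_pow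
  push_cast [Nat.cast_sub h1]
  simp

theorem rat_cd_pos (j : ℕ) : 0 < rat (cd j) := by rw [rat_cd]; positivity

theorem exists_cd {ε : ℝ} (hε : 0 < ε) : ∃ j, rat (cd j) < ε := by
  obtain ⟨j, hj⟩ := exists_pow_lt_of_lt_one hε (by norm_num : (1 / 2 : ℝ) < 1)
  refine ⟨j, ?_⟩
  rw [rat_cd, one_div, ← inv_pow, ← one_div]
  exact hj

theorem dec_bmem (h : Good sys C U) {x y : Name B} (hx : x ∈ C) (hy : y ∈ C) :
    bmem x y ∈ U ∨ (bmem x y)ᶜ ∈ U :=
  h.dec 2 (.mem 0 1) ![x, y] (by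
    intro i
    fin_cases i
    · exact hx
    · exact hy)

theorem bd_iff (h : Good sys C U) {G : Name B} (hG : G ∈ C) {X : ZFSet.{0}}
    {d : ZFSet.{0} → ZFSet.{0} → ℝ} (hg : IsGraph X (val C U G) d) {x y : Name B} (hx : x ∈ C)
    (hy : y ∈ C) (hxX : val C U x ∈ X) (hyX : val C U y ∈ X) (l : ℕ) :
    bd G x y l ∈ U ↔ d (val C U x) (val C U y) < rat l := by
  have h1 := h.opN_mem hx hy
  rw [bd, h.bmem_iff (h.opN_mem h1 (h.nat l)) hG, h.val_opN h1 (h.nat l), h.val_opN hx hy,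
    h.val_natN, hg]
  constructor
  · rintro ⟨x', _, y', _, k, hk, he⟩
    rw [ZFSet.pair_inj, ZFSet.pair_inj] at he
    obtain ⟨⟨rfl, rfl⟩, h3⟩ := he
    rwa [natSet_inj h3]
  · intro h2
    exact ⟨_, hxX, _, hyX, l, h2, rfl⟩

/-- All the data about a compact metric space of the model. -/
structure Dat (C : Set (Name B)) (U : Set B) (X : ZFSet.{0}) (d : ZFSet.{0} → ZFSet.{0} → ℝ)
    (Y G : Name B) : Prop where
  good : Good sys C U
  goodM : GoodM C U
  memY : Y ∈ C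
  hsY : sys.HS Y
  valY : X = val C U Y
  memG : G ∈ C
  hsG : sys.HS G
  graph : IsGraph X (val C U G) d
  met : MetricIn (model sys C U) X d
  tb : ∀ ε > (0 : ℝ), ∃ m : ℕ, ∀ t : Fin (m + 1) → ZFSet.{0}, (∀ a, t a ∈ X) →
    ∃ a b, a < b ∧ d (t a) (t b) < ε

namespace Dat

variable {X : ZFSet.{0}} {d : ZFSet.{0} → ZFSet.{0} → ℝ} {Y G : Name B} (D : Dat C U X d Y G)
include D

theorem bmem_iff {x : Name B} (hx : x ∈ C) : bmem x Y ∈ U ↔ val C U x ∈ X := by
  rw [D.valY]; exact D.good.bmem_iff hx D.memY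

theorem bd_iff {x y : Name B} (hx : x ∈ C) (hy : y ∈ C) (hxX : val C U x ∈ X)
    (hyX : val C U y ∈ X) (l : ℕ) : bd G x y l ∈ U ↔ d (val C U x) (val C U y) < rat l :=
  Cir.bd_iff D.good D.memG D.graph hx hy hxX hyX l

theorem cM_mem : cM Y G ∈ U := by
  have h := D.good
  have hM := D.goodM
  rw [cM, h.inf_iff, h.inf_iff]
  refine ⟨⟨?_, ?_⟩, ?_⟩
  · have key : ∀ j, ALL Y 3 (βtri G j) ∈ U := by
      intro j
      refine ALL_mem h (hM.tri Y D.memY G D.memG j) fun t ht ht' hcon => ?_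
      rw [βtri, himp_eq, compl_sup, compl_compl, h.inf_iff, h.inf_iff] at hcon
      obtain ⟨h1, h2, h3⟩ := hcon
      have m0 := (D.bmem_iff (ht 0)).1 (ht' 0)
      have m1 := (D.bmem_iff (ht 1)).1 (ht' 1)
      have m2 := (D.bmem_iff (ht 2)).1 (ht' 2)
      rw [D.bd_iff (ht 0) (ht 2) m0 m2] at h2
      rw [D.bd_iff (ht 1) (ht 2) m1 m2] at h3
      refine h.not_compl ?_ h1
      rw [D.bd_iff (ht 0) (ht 1) m0 m1]
      have h4 := D.met.tri _ m0 _ m2 _ m1
      rw [D.met.symm _ m2 _ m1] at h4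
      rw [rat_cd] at h2 h3 ⊢
      have h5 : (1 : ℝ) / 2 ^ j = 1 / 2 ^ (j + 1) + 1 / 2 ^ (j + 1) := by
        rw [pow_succ]; field_simp; norm_num
      linarith
    rcases (hM.trij Y D.memY G D.memG).dec with h1 | h1
    · exfalso
      obtain ⟨j, h2, _⟩ := (hM.trij Y D.memY G D.memG).wit h1
      exact h.not_compl (key j) h2
    · rw [compl_iSup] at h1
      simpa only [compl_compl] using h1
  · refine ALL_mem h (hM.sep Y D.memY G D.memG) fun t ht ht' hcon => ?_
    rw [βsep, himp_eq, compl_sup, compl_compl, h.inf_iff] at hcon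
    obtain ⟨h1, h2⟩ := hcon
    have m0 := (D.bmem_iff (ht 0)).1 (ht' 0)
    have m1 := (D.bmem_iff (ht 1)).1 (ht' 1)
    refine h.not_compl ?_ h1
    rw [h.beq_iff _ _ (ht 0) (ht 1), ← D.met.zero_iff _ m0 _ m1]
    refine le_antisymm (le_of_forall_pos_le_add fun ε hε => ?_) (D.met.nonneg _ m0 _ m1)
    obtain ⟨j, hj⟩ := exists_cd hε
    have h3 := h.up _ h2 _ (iInf_le _ j)
    rw [D.bd_iff (ht 0) (ht 1) m0 m1] at h3
    linarith
  · have key : ∀ j, (⨆ m, ALL Y (m + 1) (βtb G j m)) ∈ U := by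
      intro j
      obtain ⟨m, hm⟩ := D.tb _ (rat_cd_pos j)
      refine h.up (ALL Y (m + 1) (βtb G j m)) ?_ _ (le_iSup (fun m => ALL Y (m + 1) (βtb G j m)) m)
      refine ALL_mem h (hM.tb Y D.memY G D.memG j m) fun t ht ht' hcon => ?_
      have mt : ∀ a, val C U (t a) ∈ X := fun a => (D.bmem_iff (ht a)).1 (ht' a)
      obtain ⟨a, b, hab, h1⟩ := hm (fun a => val C U (t a)) mt
      refine h.not_compl ?_ hcon
      refine h.up (bd G (t b) (t a) (cd j)) ?_ _
        (le_iSup (fun p : {p : Fin (m + 1) × Fin (m + 1) // p.1 < p.2} =>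
          bd G (t p.1.2) (t p.1.1) (cd j)) ⟨(a, b), hab⟩)
      rw [D.bd_iff (ht b) (ht a) (mt b) (mt a), D.met.symm _ (mt b) _ (mt a)]
      exact h1
    rcases (hM.tbj Y D.memY G D.memG).dec with h1 | h1
    · exfalso
      obtain ⟨j, h2, _⟩ := (hM.tbj Y D.memY G D.memG).wit h1
      exact h.not_compl (key j) h2
    · rw [compl_iSup] at h1
      simpa only [compl_compl] using h1

theorem exists_seq (k : ℕ) (hk : (spp Y G).1 ≤ k) :
    ∃ (q : Cond) (I : Set ℕ) (y : ℕ → Name B), GoodSeq Y G k (spp Y G).2 q I y ∧ e q ∈ U ∧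
      seqN I y ∈ C := by
  obtain ⟨h1, h2, h3⟩ := spp_spec D.hsY D.hsG
  have h4 := le_iSup_goodSeq (k := k) h1.1 (h2.mono (H_mono hk subset_rfl))
    (h3.mono (H_mono hk subset_rfl))
  have h5 := D.good.up _ D.cM_mem _ h4
  obtain ⟨a, h6, h7⟩ := (D.goodM.seqr Y D.memY G D.memG k).wit h5
  exact ⟨a.1.1, a.1.2.1, a.1.2.2, a.2, h6, h7 _ (by simp)⟩

theorem near {I : Set ℕ} {y : ℕ → Name B} (hs : seqN I y ∈ C) (hy : ∀ i ∈ I, y i ∈ C)
    (hyX : ∀ i ∈ I, val C U (y i) ∈ X) {w : Name B} (hw : w ∈ C) (hwX : val C U w ∈ X)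
    (h : ∀ j, (⨆ i : {i // i ∈ I}, bd G w (y i.1) (cd j)) ∈ U) :
    ∀ ε > 0, ∃ i ∈ I, d (val C U w) (val C U (y i)) < ε := by
  intro ε hε
  obtain ⟨j, hj⟩ := exists_cd hε
  have e1 : (fun i : (seqN I y).idx => bd G w (unop false ((seqN I y).elt i)) (cd j)) =
      fun i : {i // i ∈ I} => bd G w (y i.1) (cd j) := by
    funext i
    change bd G w (unop false (opN (natN i.1) (y i.1))) (cd j) = _
    rw [unop_opN]; rfl
  have h1 := D.goodM.near _ hs G D.memG w hw j
  rw [e1] at h1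
  obtain ⟨i, h2, _⟩ := h1.wit (h j)
  refine ⟨i.1, i.2, lt_trans ?_ hj⟩
  exact (D.bd_iff hw (hy _ i.2) hwX (hyX _ i.2) _).1 h2

end Dat

/-- The main theorem of this file. -/
theorem seqData (h : Good sys C U) (hM : GoodM C U) {X : ZFSet.{0}}
    {d : ZFSet.{0} → ZFSet.{0} → ℝ} {Y G : Name B} (D : Dat C U X d Y G) :
    ∃ (I : ℕ → Set ℕ) (y : ℕ → ℕ → ZFSet.{0}), SeqData (model sys C U) X d I y := by
  obtain ⟨s1, s2, s3⟩ := spp_spec D.hsY D.hsG
  set k0 := (spp Y G).1 with hk0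
  set E := (spp Y G).2 with hE
  have hex := fun n : ℕ => D.exists_seq (k0 + n) (Nat.le_add_right _ _)
  choose q I yn hgs hq hseq using hex
  have s2' : ∀ n, sys.Fixed (H (k0 + n) E) Y := fun n =>
    s2.mono (H_mono (Nat.le_add_right _ _) subset_rfl)
  have s3' : ∀ n, sys.Fixed (H (k0 + n) E) G := fun n =>
    s3.mono (H_mono (Nat.le_add_right _ _) subset_rfl)
  have hyC : ∀ n, ∀ i ∈ I n, yn n i ∈ C := by
    intro n i hi
    have h1 := hM.comp _ (hseq n) i
    rw [compN, compO_seqN hi] at h1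
    exact h1
  have hyX : ∀ n, ∀ i ∈ I n, val C U (yn n i) ∈ X := by
    intro n i hi
    rw [← D.bmem_iff (hyC n i hi)]
    exact h.up _ (hq n) _ ((hgs n).mem i hi)
  have hcM := D.cM_mem
  -- the code of the metric
  have hcode : ∀ n, ∃ s, rN s ∈ C ∧
      Codes s (I n) (fun i j => d (val C U (yn n i)) (val C U (yn n j))) := by
    intro n
    obtain ⟨s, h1, h2⟩ := exists_real h (hM.code _ (hseq n) G D.memG)
    refine ⟨s, h1, fun i hi j hj => D.met.nonneg _ (hyX n i hi) _ (hyX n j hj), fun i j l => ?_⟩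
    rw [h2]
    by_cases hij : i ∈ I n ∧ j ∈ I n
    · rw [γc_tr hij.1 hij.2, D.bd_iff (hyC _ _ hij.1) (hyC _ _ hij.2) (hyX _ _ hij.1)
        (hyX _ _ hij.2)]
      exact ⟨fun h3 => ⟨hij.1, hij.2, h3⟩, fun h3 => h3.2.2⟩
    · rw [γc_tr' hij]
      exact ⟨fun h3 => absurd h3 h.bot, fun h3 => absurd ⟨h3.1, h3.2.1⟩ hij⟩
  choose s hsC hsM using hcode
  have hreal : ∀ r : Set ℕ, rN r ∈ C ↔ realSet r ∈ model sys C U := by
    intro r
    constructor
    · intro hr
      exact ⟨rN r, hr, SymSys.hs_pure sys (pure_rN r), (val_rN h r).symm⟩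
    · rintro ⟨w, hw, _, hw2⟩
      obtain ⟨r', h1, h2⟩ := exists_real h (hM.real w hw)
      have : r = r' := by
        ext n
        rw [h2, h.bmem_iff (h.nat n) hw, ← hw2, h.val_natN, mem_realSet]
      rwa [this]
  refine ⟨I, fun n i => val C U (yn n i), hyX, fun n => ?_, fun x hx => ?_, fun n hn => ?_,
    fun n hn => ?_, fun n hn i hi => ?_⟩
  · -- the sequences
    refine ⟨val C U (seqN (I n) (yn n)), ⟨_, hseq n, hs_seqN (s1.mono (Nat.le_add_right _ n))
      (hgs n).fix, rfl⟩, fun z => ?_⟩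
    rw [mem_val]
    constructor
    · rintro ⟨⟨i, hi⟩, _, _, rfl⟩
      refine ⟨i, hi, ?_⟩
      change val C U (opN (natN i) (yn n i)) = _
      rw [h.val_opN (h.nat i) (hyC n i hi), h.val_natN]
    · rintro ⟨i, hi, rfl⟩
      refine ⟨⟨i, hi⟩, h.opN_mem (h.nat i) (hyC n i hi), h.top, ?_⟩
      change _ = val C U (opN (natN i) (yn n i))
      rw [h.val_opN (h.nat i) (hyC n i hi), h.val_natN]
  · -- the cover
    rw [D.valY] at hx
    obtain ⟨j, h1, h2, rfl⟩ := mem_val.1 hx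
    rw [← D.valY] at hx
    have hw := D.hsY.elt j
    obtain ⟨k', E', h3, h4⟩ := exists_supp hw
    refine ⟨k', D.near (hseq k') (hyC k') (hyX k') h1 hx fun j' => ?_⟩
    have h5 := approx (s1.mono (Nat.le_add_right _ k')) (h3.mono (Nat.le_add_left k' k0))
      (s2' k') (s3' k') (hgs k') hw (h4.mono (H_mono (Nat.le_add_left k' k0) subset_rfl)) j'
    refine h.up _ ?_ _ h5
    exact h.inf _ (h.inf _ hcM _ (hq k')) _ ((D.bmem_iff h1).2 hx)
  · -- big
    have h1 := bigR_spec (hsM n) hn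
    refine ⟨_, h1, val C U (bigN (s n)), ⟨_, hM.bigm _ (hsC n), SymSys.hs_pure sys (pure_bigN _),
      rfl⟩, fun z => ?_⟩
    have hI := (hsM n).idxS
    rw [mem_val]
    constructor
    · rintro ⟨⟨⟨r, i, l⟩, h2, h3⟩, h4, _, rfl⟩
      change opN (opN (rN r) (natN i)) (natN l) ∈ C at h4
      change ∃ r' i' l', _ ∧ _ ∧ _ ∧ val C U (opN (opN (rN r) (natN i)) (natN l)) = _
      have h5 := (hM.unop _ _ (hM.unop _ _ h4).1).1
      refine ⟨r, i, l, (hreal r).1 h5, hI ▸ h2, h3, ?_⟩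
      rw [h.val_opN (h.opN_mem h5 (h.nat i)) (h.nat l), h.val_opN h5 (h.nat i), h.val_natN,
        h.val_natN, val_rN h]
    · rintro ⟨r, i, l, h2, h3, h4, rfl⟩
      have h5 := (hreal r).2 h2
      refine ⟨⟨(r, i, l), hI.symm ▸ h3, h4⟩, h.opN_mem (h.opN_mem h5 (h.nat i)) (h.nat l),
        h.top, ?_⟩
      change _ = val C U (opN (opN (rN r) (natN i)) (natN l))
      rw [h.val_opN (h.opN_mem h5 (h.nat i)) (h.nat l), h.val_opN h5 (h.nat i), h.val_natN,
        h.val_natN, val_rN h]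
  · -- small
    have h1 := smallR_spec (hsM n) hn
    refine ⟨_, h1, val C U (smallN (s n)), ⟨_, hM.smallm _ (hsC n),
      SymSys.hs_pure sys (pure_smallN _), rfl⟩, fun z => ?_⟩
    have hI := (hsM n).idxS
    rw [mem_val]
    constructor
    · rintro ⟨⟨⟨r, i, l⟩, h2, h3⟩, h4, _, rfl⟩
      change ∃ r' i' l', _ ∧ _ ∧ val C U (opN (opN (natN r) (natN i)) (natN l)) = _
      refine ⟨r, i, l, hI ▸ h2, h3, ?_⟩
      rw [h.val_opN (h.opN_mem (h.nat r) (h.nat i)) (h.nat l), h.val_opN (h.nat r) (h.nat i),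
        h.val_natN, h.val_natN, h.val_natN]
    · rintro ⟨r, i, l, h3, h4, rfl⟩
      refine ⟨⟨(r, i, l), hI.symm ▸ h3, h4⟩, h.opN_mem (h.opN_mem (h.nat r) (h.nat i)) (h.nat l),
        h.top, ?_⟩
      change _ = val C U (opN (opN (natN r) (natN i)) (natN l))
      rw [h.val_opN (h.opN_mem (h.nat r) (h.nat i)) (h.nat l), h.val_opN (h.nat r) (h.nat i),
        h.val_natN, h.val_natN, h.val_natN]
  · -- rigid
    obtain ⟨ζ, hζ⟩ := hn
    have hle : k0 ≤ k0 + n := Nat.le_add_right _ _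
    set w := yn n i with hw
    have hwC : w ∈ C := hyC n i hi
    have hwX : val C U w ∈ X := hyX n i hi
    have hwf : FixN (k0 + n) E w := (hgs n).fix i hi
    have hrC : ∀ r : Rt k0, sys.am (rot r) w ∈ C := fun r => hM.rotm w hwC k0 r
    have hrX : ∀ r : Rt k0, val C U (sys.am (rot r) w) ∈ X := by
      intro r
      rw [← D.bmem_iff (hrC r), bmem_rot s1 hle s2 hwf.2 r, D.bmem_iff hwC]
      exact hwX
    let XT : Type 1 := {x : ZFSet.{0} // x ∈ X}
    let _ : MetricSpace XT :=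
      { dist := fun x y => d x.1 y.1
        dist_self := fun x => (D.met.zero_iff _ x.2 _ x.2).2 rfl
        dist_comm := fun x y => D.met.symm _ x.2 _ y.2
        dist_triangle := fun x y z => D.met.tri _ x.2 _ y.2 _ z.2
        eq_of_dist_eq_zero := fun {x y} h' => Subtype.ext ((D.met.zero_iff _ x.2 _ y.2).1 h') }
    have hdist : ∀ x y : XT, dist x y = d x.1 y.1 := fun _ _ => rfl
    have hne : Nonempty XT := ⟨⟨val C U w, hwX⟩⟩
    classical
    let y' : ℕ → XT := fun j => if hj : j ∈ I n then ⟨val C U (yn n j), hyX n j hj⟩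
      else Classical.choice hne
    have hy' : ∀ j (hj : j ∈ I n), y' j = ⟨val C U (yn n j), hyX n j hj⟩ := fun j hj => dif_pos hj
    let f : Rt k0 → XT := fun r => ⟨val C U (sys.am (rot r) w), hrX r⟩
    have hconst := stV2.{1} (Rt k0) (by
        intro m hm a
        refine ⟨(m : ℚ)⁻¹ • a, ?_⟩
        rw [← Nat.cast_smul_eq_nsmul ℚ, smul_smul, mul_inv_cancel₀ (by exact_mod_cast hm), one_smul])
      XT (by
        intro ε hε
        obtain ⟨m, hm⟩ := D.tb ε hε
        refine ⟨m, fun t => ?_⟩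
        exact hm (fun a => (t a).1) fun a => (t a).2) (I n) y' ζ (by
        have h1 : ∀ i ∈ I n, ∀ j ∈ I n, d (val C U (yn n i)) (val C U (yn n j)) =
            dist (y' i) (y' j) := by
          intro i hi j hj
          rw [hy' i hi, hy' j hj]
          rfl
        exact (smallCongr h1 hζ).1) f (by
        intro a b c
        change d (val C U (sys.am (rot (a + c)) w)) (val C U (sys.am (rot (b + c)) w)) =
          d (val C U (sys.am (rot a) w)) (val C U (sys.am (rot b) w))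
        refine le_antisymm (le_of_rat (D.met.nonneg _ (hrX _) _ (hrX _)) fun l hl => ?_)
          (le_of_rat (D.met.nonneg _ (hrX _) _ (hrX _)) fun l hl => ?_)
        · rw [← D.bd_iff (hrC _) (hrC _) (hrX _) (hrX _), bd_rot s1 hle s3 hwf.2,
            D.bd_iff (hrC _) (hrC _) (hrX _) (hrX _)]
          exact hl
        · rw [← D.bd_iff (hrC _) (hrC _) (hrX _) (hrX _), ← bd_rot s1 hle s3 hwf.2 a b c,
            D.bd_iff (hrC _) (hrC _) (hrX _) (hrX _)]
          exact hl) (by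
        intro a ε hε
        have h1 := D.near (hseq n) (hyC n) (hyX n) (hrC a) (hrX a) (fun j' => by
          refine h.up _ (h.inf _ (hq n) _ ((D.bmem_iff (hrC a)).2 (hrX a))) _
            ((hgs n).dense _ ⟨SymSys.HS.am sys _ _ hwf.1, fixed_rot s1 a hwf.2⟩ j')) ε hε
        obtain ⟨j, hj, h2⟩ := h1
        refine ⟨j, hj, ?_⟩
        rw [hy' j hj]
        exact h2)
    have hrot0 : rot (0 : Rt k0) = 1 := by
      have h1 := rot_add (0 : Rt k0) 0
      rw [add_zero] at h1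
      exact (mul_eq_left.1 h1.symm)
    have hfix : bfix k0 Y w ∈ U := by
      rw [bfix, h.inf_iff]
      refine ⟨(D.bmem_iff hwC).2 hwX, ?_⟩
      have h1 := hM.rotr w hwC k0
      rcases h1.dec with h2 | h2
      · exfalso
        obtain ⟨r, h3, _⟩ := h1.wit h2
        refine h.not_compl ?_ h3
        rw [h.beq_iff _ _ (hrC r) hwC]
        have h4 := congrArg Subtype.val (hconst r)
        change val C U (sys.am (rot r) w) = val C U (sys.am (rot 0) w) at h4
        rw [h4, hrot0, SymSys.am_one]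
      · rw [compl_iSup] at h2
        simpa only [compl_compl] using h2
    refine D.near (hseq 0) (hyC 0) (hyX 0) hwC hwX fun j' => ?_
    exact h.up _ (h.inf _ (hq 0) _ hfix) _ (approx_fix s1 hle s2 (hgs 0) hwf j')

/-- Every uncountable compact metrizable space of the model has size at least the continuum. -/
theorem mcu (h : Good sys C U) (hM : GoodM C U) : MCU (model sys C U) := by
  rintro X τ ⟨hX, hτ, ⟨d, hd, hτd⟩, hc⟩ hunc
  have hN := h.isZF
  have hT := stT _ hN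
  obtain ⟨Y, hYC, hYH, hXY⟩ := hX
  obtain ⟨g, ⟨G, hGC, hGH, rfl⟩, hg⟩ := hd.mem
  have D : Dat C U X d Y G :=
    { good := h
      goodM := hM
      memY := hYC
      hsY := hYH
      valY := hXY
      memG := hGC
      hsG := hGH
      graph := hg
      met := hd
      tb := stTB _ hN hT.2.2.1 hT.2.2.2.1 X τ d ⟨Y, hYC, hYH, hXY⟩ hτ hd hτd hc }
  obtain ⟨I, y, hs⟩ := seqData h hM D
  rcases stS stV1 _ hN hT X τ d ⟨Y, hYC, hYH, hXY⟩ hτ hd hτd hc I y hs with h1 | h1
  · exact absurd h1 hunc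
  · exact h1

end Cir

end SymExt
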