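import Pool.Agent.Lib.MP_4e922d_lc.Defs

/-!
# Statements of the modules
-/

namespace SymExt

universe u

/-! ### Modules V1, V2 (pure Mathlib) -/

/-- `ρ` is the row of distances from a point of the completion of the pseudometric space
`(I, M)`. -/
def Row (I : Set ℕ) (M : ℕ → ℕ → ℝ) (ρ : ℕ → ℝ) : Prop :=
  (∀ ε > 0, ∃ i ∈ I, ρ i < ε) ∧ ∀ i ∈ I, ∀ j ∈ I, ρ i ≤ M i j + ρ j ∧ M i j ≤ ρ i + ρ j

/-- `M` is a pseudometric on `I`. -/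
def PMet (I : Set ℕ) (M : ℕ → ℕ → ℝ) : Prop :=
  (∀ i ∈ I, M i i = 0) ∧ (∀ i ∈ I, ∀ j ∈ I, M i j = M j i) ∧
    ∀ i ∈ I, ∀ j ∈ I, ∀ k ∈ I, M i k ≤ M i j + M j k

/-- `ρ` is an injective family of rows indexed by the subsets of `ω`. -/
def RowsBig (I : Set ℕ) (M : ℕ → ℕ → ℝ) (ρ : Set ℕ → ℕ → ℝ) : Prop :=
  (∀ r, Row I M (ρ r)) ∧ ∀ r r', (∀ i ∈ I, ρ r i = ρ r' i) → r = r'

/-- `ζ` enumerates all rows (and each row only once). -/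
def RowsSmall (I : Set ℕ) (M : ℕ → ℕ → ℝ) (ζ : ℕ → ℕ → ℝ) : Prop :=
  (∀ ρ, Row I M ρ → ∃ n, ∀ i ∈ I, ρ i = ζ n i) ∧
    ∀ n m, Row I M (ζ n) → Row I M (ζ m) → (∀ i ∈ I, ζ n i = ζ m i) → n = m

/-- V1: the completion of `(I, M)` has the size of the continuum or is countable. -/
def StV1 : Prop := ∀ (I : Set ℕ) (M : ℕ → ℕ → ℝ), PMet I M →
  (∃ ρ, RowsBig I M ρ) ∨ ∃ ζ, RowsSmall I M ζ

/-- V2: a divisible group acts trivially and isometrically on a totally bounded metric space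
whose relevant part has a countable completion. -/
def StV2 : Prop := ∀ (Γ : Type) [AddCommGroup Γ],
  (∀ n : ℕ, n ≠ 0 → ∀ a : Γ, ∃ b, n • b = a) →
  ∀ (X : Type u) [MetricSpace X],
  (∀ ε > (0 : ℝ), ∃ m : ℕ, ∀ t : Fin (m + 1) → X, ∃ a b, a < b ∧ dist (t a) (t b) < ε) →
  ∀ (I : Set ℕ) (y : ℕ → X) (ζ : ℕ → ℕ → ℝ),
  (∀ ρ, Row I (fun i j => dist (y i) (y j)) ρ → ∃ n, ∀ i ∈ I, ρ i = ζ n i) →
  ∀ f : Γ → X, (∀ a b c, dist (f (a + c)) (f (b + c)) = dist (f a) (f b)) →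
  (∀ a, ∀ ε > (0 : ℝ), ∃ i ∈ I, dist (f a) (y i) < ε) →
  ∀ a, f a = f 0

/-! ### Module T (sets in transitive models of ZF) -/

/-- Product. -/
def StProd (N : Set ZFSet.{u}) : Prop := ∀ X ∈ N, ∀ Z ∈ N, ∃ W ∈ N, ∀ w, w ∈ W ↔
  ∃ x ∈ X, ∃ z ∈ Z, w = ZFSet.pair x z

/-- The topology given by the graph `g` of a metric. -/
def StTop (N : Set ZFSet.{u}) : Prop := ∀ X ∈ N, ∀ g ∈ N, ∃ τ ∈ N, ∀ O, O ∈ τ ↔ O ∈ N ∧ O ⊆ X ∧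
  ∀ x ∈ O, ∃ l : ℕ, ZFSet.pair (ZFSet.pair x x) (natSet l) ∈ g ∧
    ∀ y ∈ X, ZFSet.pair (ZFSet.pair x y) (natSet l) ∈ g → y ∈ O

/-- Balls. -/
def StBall (N : Set ZFSet.{u}) : Prop := ∀ X ∈ N, ∀ g ∈ N, ∀ x ∈ N, ∀ l : ℕ, ∃ O ∈ N,
  ∀ y, y ∈ O ↔ y ∈ X ∧ ZFSet.pair (ZFSet.pair x y) (natSet l) ∈ g

/-- The cover by small open sets. -/
def StCov1 (N : Set ZFSet.{u}) : Prop := ∀ X ∈ N, ∀ g ∈ N, ∀ τ ∈ N, ∀ l : ℕ, ∃ V ∈ N,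
  ∀ O, O ∈ V ↔ O ∈ τ ∧ ∃ x ∈ X, ∀ y ∈ O, ZFSet.pair (ZFSet.pair x y) (natSet l) ∈ g

/-- The cover by the open sets that avoid the points of the sequence near a given row. -/
def StCov2 (N : Set ZFSet.{u}) : Prop := ∀ X ∈ N, ∀ g ∈ N, ∀ τ ∈ N, ∀ seq ∈ N, ∀ Φ ∈ N, ∀ r ∈ N,
  ∃ V ∈ N, ∀ O, O ∈ V ↔ O ∈ τ ∧ ∃ l : ℕ,
    (∃ x ∈ X, ZFSet.pair (ZFSet.pair x x) (natSet l) ∈ g) ∧
    ∀ (i : ℕ) (x : ZFSet.{u}), ZFSet.pair (ZFSet.pair r (natSet i)) (natSet l) ∈ Φ →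
      ZFSet.pair (natSet i) x ∈ seq → x ∉ O

/-- The relation between parameters and points with a given row. -/
def StRel (N : Set ZFSet.{u}) : Prop := ∀ A ∈ N, ∀ X ∈ N, ∀ g ∈ N, ∀ seq ∈ N, ∀ Φ ∈ N,
  ∃ f ∈ N, ∀ w, w ∈ f ↔ ∃ r ∈ A, ∃ y ∈ X, w = ZFSet.pair r y ∧
    ∀ (i : ℕ) (x : ZFSet.{u}) (l : ℕ), ZFSet.pair (natSet i) x ∈ seq →
      (ZFSet.pair (ZFSet.pair y x) (natSet l) ∈ g ↔
        ZFSet.pair (ZFSet.pair r (natSet i)) (natSet l) ∈ Φ)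

/-- The inverse relation. -/
def StRel' (N : Set ZFSet.{u}) : Prop := ∀ A ∈ N, ∀ X ∈ N, ∀ g ∈ N, ∀ seq ∈ N, ∀ Φ ∈ N,
  ∃ f ∈ N, ∀ w, w ∈ f ↔ ∃ r ∈ A, ∃ y ∈ X, w = ZFSet.pair y r ∧
    ∀ (i : ℕ) (x : ZFSet.{u}) (l : ℕ), ZFSet.pair (natSet i) x ∈ seq →
      (ZFSet.pair (ZFSet.pair y x) (natSet l) ∈ g ↔
        ZFSet.pair (ZFSet.pair r (natSet i)) (natSet l) ∈ Φ)

/-- Module T. -/
def StT : Prop := ∀ N : Set ZFSet.{u}, IsZF N →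
  StProd N ∧ StTop N ∧ StBall N ∧ StCov1 N ∧ StCov2 N ∧ StRel N ∧ StRel' N

/-! ### Module S (the semantic argument in the model) -/

/-- The real `r ⊆ ω` as a set. -/
noncomputable def realSet (r : Set ℕ) : ZFSet.{u} :=
  ZFSet.sep (fun z => ∃ n ∈ r, z = natSet n) ZFSet.omega

/-- The data about a compact metric space `(X, d)` of the model `N`: for every `k` a sequence
`y k i`, `i ∈ I k` of points, lying in `N`. -/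
structure SeqData (N : Set ZFSet.{u}) (X : ZFSet.{u}) (d : ZFSet.{u} → ZFSet.{u} → ℝ)
    (I : ℕ → Set ℕ) (y : ℕ → ℕ → ZFSet.{u}) : Prop where
  mem : ∀ k, ∀ i ∈ I k, y k i ∈ X
  seq : ∀ k, ∃ s ∈ N, ∀ z, z ∈ s ↔ ∃ i ∈ I k, z = ZFSet.pair (natSet i) (y k i)
  cover : ∀ x ∈ X, ∃ k, ∀ ε > 0, ∃ i ∈ I k, d x (y k i) < ε
  big : ∀ k, (∃ ρ, RowsBig (I k) (fun i j => d (y k i) (y k j)) ρ) →
    ∃ ρ, RowsBig (I k) (fun i j => d (y k i) (y k j)) ρ ∧ ∃ Φ ∈ N, ∀ z, z ∈ Φ ↔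
      ∃ (r : Set ℕ) (i : ℕ) (l : ℕ), realSet r ∈ N ∧ i ∈ I k ∧ ρ r i < rat l ∧
        z = ZFSet.pair (ZFSet.pair (realSet r) (natSet i)) (natSet l)
  small : ∀ k, (∃ ζ, RowsSmall (I k) (fun i j => d (y k i) (y k j)) ζ) →
    ∃ ζ, RowsSmall (I k) (fun i j => d (y k i) (y k j)) ζ ∧ ∃ Φ ∈ N, ∀ z, z ∈ Φ ↔
      ∃ (n : ℕ) (i : ℕ) (l : ℕ), i ∈ I k ∧ ζ n i < rat l ∧
        z = ZFSet.pair (ZFSet.pair (natSet n) (natSet i)) (natSet l)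
  rigid : ∀ k, (∃ ζ, RowsSmall (I k) (fun i j => d (y k i) (y k j)) ζ) →
    ∀ i ∈ I k, ∀ ε > 0, ∃ j ∈ I 0, d (y k i) (y 0 j) < ε

/-- Module S: such a compact space is countable or of size at least the continuum. -/
def StS : Prop := StV1 → ∀ N : Set ZFSet.{u}, IsZF N →
  StProd N ∧ StTop N ∧ StBall N ∧ StCov1 N ∧ StCov2 N ∧ StRel N ∧ StRel' N →
  ∀ (X τ : ZFSet.{u}) (d : ZFSet.{u} → ZFSet.{u} → ℝ), X ∈ N → τ ∈ N → MetricIn N X d →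
  (∀ O, O ∈ τ ↔ O ∈ N ∧ OpenFor X d O) → CompactIn N X τ →
  ∀ (I : ℕ → Set ℕ) (y : ℕ → ℕ → ZFSet.{u}), SeqData N X d I y →
  Embeds N X ZFSet.omega ∨ ContinuumLe N X

/-- Module S2: total boundedness. -/
def StTB : Prop := ∀ N : Set ZFSet.{u}, IsZF N → StBall N → StCov1 N →
  ∀ (X τ : ZFSet.{u}) (d : ZFSet.{u} → ZFSet.{u} → ℝ), X ∈ N → τ ∈ N → MetricIn N X d →
  (∀ O, O ∈ τ ↔ O ∈ N ∧ OpenFor X d O) → CompactIn N X τ →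
  ∀ ε > (0 : ℝ), ∃ m : ℕ, ∀ t : Fin (m + 1) → ZFSet.{u}, (∀ a, t a ∈ X) →
    ∃ a b, a < b ∧ d (t a) (t b) < ε

end SymExt
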