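import Pool.Agent.Lib.MP_4e922d_lc.Seq
import Pool.Agent.Lib.MP_4e922d_lc.Spec

/-!
# Compact metric spaces in the model
-/

namespace SymExt

namespace Cir

open Name

/-! ### Names of reals and sequences -/

theorem opN_inj {x y x' y' : Name B} (h : opN x y = opN x' y') : x = x' ∧ y = y' := by
  have key : ∀ {a b a' b' : Name B}, pairN a b = pairN a' b' → a = a' ∧ b = b' := by
    intro a b a' b' h
    have h1 := (Name.mk.inj h).2.1
    have h2 := eq_of_heq h1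
    exact ⟨congrFun h2 ⟨true⟩, congrFun h2 ⟨false⟩⟩
  obtain ⟨h1, h2⟩ := key h
  exact ⟨(key h1).1, (key h2).2⟩

open Classical in
/-- Components of an ordered pair. -/
noncomputable def unop (c : Bool) (x : Name B) : Name B :=
  if h : ∃ p : Name B × Name B, x = opN p.1 p.2 then cond c h.choose.1 h.choose.2 else empN

theorem unop_opN (c : Bool) (x y : Name B) : unop c (opN x y) = cond c x y := by
  have h : ∃ p : Name B × Name B, opN x y = opN p.1 p.2 := ⟨(x, y), rfl⟩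
  rw [unop, dif_pos h]
  obtain ⟨h1, h2⟩ := opN_inj h.choose_spec
  cases c
  · exact h2.symm
  · exact h1.symm

theorem nrank_natN (k : ℕ) : nrank (natN k : Name B) = k := by
  induction k with
  | zero =>
    change (⨆ i : PEmpty, _) = _
    simp
  | succ k ihk =>
    apply le_antisymm
    · change (⨆ i : Option (natN k : Name B).idx, Order.succ (nrank
        (i.elim (natN k) (natN k : Name B).elt))) ≤ _
      refine Ordinal.iSup_le fun i => ?_
      cases i with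
      | none =>
        change Order.succ (nrank (natN k : Name B)) ≤ _
        rw [ihk]; push_cast; exact le_rfl
      | some i =>
        change Order.succ (nrank ((natN k : Name B).elt i)) ≤ _
        have := nrank_elt_lt (natN k : Name B) i
        rw [ihk] at this
        push_cast
        exact Order.succ_le_of_lt (this.trans (Order.lt_succ _))
    · have := nrank_elt_lt (natN (k + 1) : Name B) none
      change nrank (natN k : Name B) < _ at this
      rw [ihk] at this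
      push_cast
      exact Order.succ_le_of_lt this

theorem natN_inj {n m : ℕ} (h : (natN n : Name B) = natN m) : n = m := by
  have h6 := congrArg nrank h
  rw [nrank_natN, nrank_natN] at h6
  exact_mod_cast h6

/-- The name of a real. -/
noncomputable def rN (s : Set ℕ) : Name B := Name.mk {n // n ∈ s} (fun n => natN n.1) fun _ => ⊤

theorem rN_inj {s t : Set ℕ} (h : rN s = rN t) : s = t := by
  have key : ∀ s : Set ℕ, ∀ n, n ∈ s ↔ natN n ∈ Set.range (rN s).elt := by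
    intro s n
    constructor
    · intro hn; exact ⟨⟨n, hn⟩, rfl⟩
    · rintro ⟨⟨m, hm⟩, hm'⟩
      change natN m = natN n at hm'
      rwa [← natN_inj hm']
  ext n
  rw [key s, key t, h]

theorem pure_rN (s : Set ℕ) : Pure (rN s) := by
  rw [pure_iff]; exact ⟨fun _ => rfl, fun _ => pure_natN _⟩

open Classical in
/-- The real coded by a name. -/
noncomputable def unR (x : Name B) : Set ℕ := if h : ∃ s, x = rN s then h.choose else ∅

theorem unR_rN (s : Set ℕ) : unR (rN s) = s := by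
  have h : ∃ t, rN s = rN t := ⟨s, rfl⟩
  rw [unR, dif_pos h]
  exact (rN_inj h.choose_spec).symm

/-- The name of a sequence. -/
noncomputable def seqN (I : Set ℕ) (y : ℕ → Name B) : Name B :=
  Name.mk {i // i ∈ I} (fun i => opN (natN i.1) (y i.1)) fun _ => ⊤

open Classical in
/-- A component of a sequence. -/
noncomputable def compO (i : ℕ) (z : Name B) : Option (Name B) :=
  if h : ∃ w : Name B, ∃ a, z.elt a = opN (natN i) w then some h.choose else none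

/-- A component of a sequence. -/
noncomputable def compN (i : ℕ) (z : Name B) : Name B := (compO i z).getD empN

theorem compO_seqN {I : Set ℕ} {y : ℕ → Name B} {i : ℕ} (hi : i ∈ I) :
    compO i (seqN I y) = some (y i) := by
  have h : ∃ w : Name B, ∃ a, (seqN I y).elt a = opN (natN i) w := ⟨y i, ⟨i, hi⟩, rfl⟩
  rw [compO, dif_pos h]
  obtain ⟨a, ha⟩ := h.choose_spec
  change opN (natN a.1) (y a.1) = _ at ha
  obtain ⟨h1, h2⟩ := opN_inj ha
  rw [← h2, natN_inj h1]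

theorem compO_seqN' {I : Set ℕ} {y : ℕ → Name B} {i : ℕ} (hi : i ∉ I) :
    compO i (seqN I y) = none := by
  rw [compO, dif_neg]
  rintro ⟨w, a, ha⟩
  change opN (natN a.1) (y a.1) = _ at ha
  exact hi (natN_inj (opN_inj ha).1 ▸ a.2)

theorem hs_seqN {k : ℕ} {E : Set Pt} (hE : Sup k E) {I : Set ℕ} {y : ℕ → Name B}
    (hy : ∀ i ∈ I, FixN k E (y i)) : sys.HS (seqN I y) := by
  rw [SymSys.hs_iff]
  refine ⟨⟨_, H_mem hE, SymSys.fixed_of_bsub fun u hu => top_le_iff.1 (le_bsub_iff.2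
    fun i Δ _ _ => ?_)⟩, fun i => SymSys.hs_opN (SymSys.hs_pure sys (pure_natN _)) (hy _ i.2).1⟩
  refine le_bmem_of_le (y := seqN I y) i le_top ?_
  change Δ ≤ beq (sys.am u (opN (natN i.1) (y i.1))) (opN (natN i.1) (y i.1))
  rw [am_opN, SymSys.am_pure sys (pure_natN _)]
  exact le_beq_opN (by rw [beq_refl]; exact le_top) ((hy _ i.2).2 u hu ▸ le_top)

/-! ### Deciding a real -/

open Classical in
/-- The Boolean value of `n ∈ γ ↔ n ∈ s`. -/
noncomputable def dcd (s : Set ℕ) (γ : ℕ → B) (n : ℕ) : B := if n ∈ s then γ n else (γ n)ᶜ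

theorem dcd_pos {s : Set ℕ} {γ : ℕ → B} {n : ℕ} (h : n ∈ s) : dcd s γ n = γ n := if_pos h

theorem dcd_neg {s : Set ℕ} {γ : ℕ → B} {n : ℕ} (h : n ∉ s) : dcd s γ n = (γ n)ᶜ := if_neg h

/-- The requirement that the real with the Boolean values `γ` is in the ground model. -/
noncomputable def rqR (γ : ℕ → B) : Set (B × List (Name B)) :=
  fam (fun s : Set ℕ => ⨅ n, dcd s γ n) fun s => [rN s]

theorem rqR_top (γ : ℕ → B) : (⨆ s : Set ℕ, ⨅ n, dcd s γ n) = ⊤ := by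
  refine RO.dense_e.eq_top_of_dense fun p => ?_
  obtain ⟨q, hq, h⟩ := exists_decide γ p
  refine ⟨q, hq, intro_iSup {n | e q ≤ γ n} (le_iInf fun n => ?_)⟩
  by_cases hn : e q ≤ γ n
  · have h1 : n ∈ {n | e q ≤ γ n} := hn
    rw [dcd_pos h1]
    exact hn
  · have h1 : n ∉ {n | e q ≤ γ n} := hn
    rw [dcd_neg h1]
    exact (h n).resolve_left hn

variable {C : Set (Name B)} {U : Set B}

theorem exists_real (h : Good sys C U) {γ : ℕ → B} (hr : Met C U (rqR γ)) :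
    ∃ s : Set ℕ, rN s ∈ C ∧ ∀ n, n ∈ s ↔ γ n ∈ U := by
  obtain ⟨s, h1, h2⟩ := hr.wit (by rw [rqR_top]; exact h.top)
  refine ⟨s, h2 _ (by simp), fun n => ?_⟩
  have h3 := h.up _ h1 _ (iInf_le _ n)
  by_cases hn : n ∈ s
  · rw [dcd_pos hn] at h3
    exact ⟨fun _ => h3, fun _ => hn⟩
  · rw [dcd_neg hn] at h3
    exact ⟨fun h' => absurd h' hn, fun h' => absurd h3 (h.not_compl h')⟩

theorem val_rN (h : Good sys C U) (s : Set ℕ) : val C U (rN s) = realSet s := by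
  ext z
  rw [mem_val, realSet, ZFSet.mem_sep]
  constructor
  · rintro ⟨⟨n, hn⟩, _, _, rfl⟩
    change val C U (natN n) ∈ _ ∧ ∃ m ∈ s, val C U (natN n) = natSet m
    rw [h.val_natN]
    exact ⟨mem_omega_iff.2 ⟨n, rfl⟩, n, hn, rfl⟩
  · rintro ⟨_, n, hn, rfl⟩
    exact ⟨⟨n, hn⟩, h.nat n, h.top, (h.val_natN n).symm⟩

theorem mem_realSet {s : Set ℕ} {n : ℕ} : natSet.{0} n ∈ realSet s ↔ n ∈ s := by
  rw [realSet, ZFSet.mem_sep]
  constructor
  · rintro ⟨_, m, hm, h⟩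
    rwa [natSet_inj h]
  · intro hn
    exact ⟨mem_omega_iff.2 ⟨n, rfl⟩, n, hn, rfl⟩

theorem realSet_inj {s t : Set ℕ} (h : realSet.{0} s = realSet t) : s = t := by
  ext n
  rw [← mem_realSet, h, mem_realSet]

/-! ### Coded metrics -/

/-- The code of a triple. -/
def tr (i j l : ℕ) : ℕ := Nat.pair (Nat.pair i j) l

/-- `s` codes the pseudometric `M` on `I`. -/
def Codes (s : Set ℕ) (I : Set ℕ) (M : ℕ → ℕ → ℝ) : Prop :=
  (∀ i ∈ I, ∀ j ∈ I, 0 ≤ M i j) ∧ ∀ i j l, tr i j l ∈ s ↔ i ∈ I ∧ j ∈ I ∧ M i j < rat l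

theorem rat_nonneg (l : ℕ) : 0 ≤ rat l := by
  unfold rat; positivity

theorem exists_rat {a b : ℝ} (ha : 0 ≤ a) (hab : a < b) : ∃ l, a < rat l ∧ rat l < b := by
  obtain ⟨q, h1, h2⟩ := exists_rat_btwn hab
  have hq : 0 < q := by exact_mod_cast ha.trans_lt h1
  refine ⟨Nat.pair q.num.toNat (q.den - 1), ?_⟩
  have h3 : rat (Nat.pair q.num.toNat (q.den - 1)) = (q : ℝ) := by
    unfold rat
    rw [Nat.unpair_pair]
    have h4 : (0 : ℤ) < q.num := Rat.num_pos.2 hq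
    have h5 : ((q.num.toNat : ℕ) : ℝ) = (q.num : ℝ) := by
      have : ((q.num.toNat : ℕ) : ℤ) = q.num := Int.toNat_of_nonneg h4.le
      exact_mod_cast congrArg (fun z : ℤ => (z : ℝ)) this
    have h6 : ((q.den - 1 : ℕ) : ℝ) + 1 = (q.den : ℝ) := by
      have : 1 ≤ q.den := q.pos
      push_cast [Nat.cast_sub this]
      ring
    simp only
    rw [h5, h6]
    exact (Rat.cast_def q).symm
  rw [h3]
  exact ⟨h1, h2⟩

theorem le_of_rat {a b : ℝ} (hb : 0 ≤ b) (h : ∀ l, b < rat l → a < rat l) : a ≤ b := by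
  by_contra hcon
  push Not at hcon
  obtain ⟨l, h1, h2⟩ := exists_rat hb hcon
  exact absurd (h l h1) (not_lt.2 h2.le)

theorem Codes.unique {s I I' : Set ℕ} {M M' : ℕ → ℕ → ℝ} (h : Codes s I M) (h' : Codes s I' M') :
    I = I' ∧ ∀ i ∈ I, ∀ j ∈ I, M i j = M' i j := by
  have key : ∀ {I I' : Set ℕ} {M M' : ℕ → ℕ → ℝ}, Codes s I M → Codes s I' M' → I ⊆ I' := by
    intro I I' M M' h h' i hi
    obtain ⟨l, hl, _⟩ := exists_rat (h.1 i hi i hi) (lt_add_one (M i i))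
    exact ((h'.2 i i l).1 ((h.2 i i l).2 ⟨hi, hi, hl⟩)).1
  have hI : I = I' := Set.Subset.antisymm (key h h') (key h' h)
  subst hI
  refine ⟨rfl, fun i hi j hj => le_antisymm ?_ ?_⟩
  · exact le_of_rat (h'.1 i hi j hj) fun l hl =>
      ((h.2 i j l).1 ((h'.2 i j l).2 ⟨hi, hj, hl⟩)).2.2
  · exact le_of_rat (h.1 i hi j hj) fun l hl =>
      ((h'.2 i j l).1 ((h.2 i j l).2 ⟨hi, hj, hl⟩)).2.2

theorem rowCongr {I : Set ℕ} {M M' : ℕ → ℕ → ℝ} (h : ∀ i ∈ I, ∀ j ∈ I, M i j = M' i j)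
    {ρ : ℕ → ℝ} (hρ : Row I M ρ) : Row I M' ρ :=
  ⟨hρ.1, fun i hi j hj => by rw [← h i hi j hj]; exact hρ.2 i hi j hj⟩

theorem bigCongr {I : Set ℕ} {M M' : ℕ → ℕ → ℝ} (h : ∀ i ∈ I, ∀ j ∈ I, M i j = M' i j)
    {ρ : Set ℕ → ℕ → ℝ} (hρ : RowsBig I M ρ) : RowsBig I M' ρ :=
  ⟨fun r => rowCongr h (hρ.1 r), hρ.2⟩

theorem smallCongr {I : Set ℕ} {M M' : ℕ → ℕ → ℝ} (h : ∀ i ∈ I, ∀ j ∈ I, M i j = M' i j)
    {ζ : ℕ → ℕ → ℝ} (hζ : RowsSmall I M ζ) : RowsSmall I M' ζ := by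
  have h' : ∀ i ∈ I, ∀ j ∈ I, M' i j = M i j := fun i hi j hj => (h i hi j hj).symm
  exact ⟨fun ρ hρ => hζ.1 ρ (rowCongr h' hρ),
    fun n m h1 h2 => hζ.2 n m (rowCongr h' h1) (rowCongr h' h2)⟩

open Classical in
/-- A big family of rows for the coded metric. -/
noncomputable def bigR (s : Set ℕ) : Set ℕ → ℕ → ℝ :=
  if h : ∃ ρ, ∃ I M, Codes s I M ∧ RowsBig I M ρ then h.choose else fun _ _ => 0

theorem bigR_spec {s I : Set ℕ} {M : ℕ → ℕ → ℝ} (h : Codes s I M) (h' : ∃ ρ, RowsBig I M ρ) :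
    RowsBig I M (bigR s) := by
  obtain ⟨ρ, hρ⟩ := h'
  have H : ∃ ρ, ∃ I M, Codes s I M ∧ RowsBig I M ρ := ⟨ρ, I, M, h, hρ⟩
  rw [bigR, dif_pos H]
  obtain ⟨I', M', h1, h2⟩ := H.choose_spec
  obtain ⟨rfl, h4⟩ := h1.unique h
  exact bigCongr h4 h2

open Classical in
/-- An enumeration of the rows for the coded metric. -/
noncomputable def smallR (s : Set ℕ) : ℕ → ℕ → ℝ :=
  if h : ∃ ζ, ∃ I M, Codes s I M ∧ RowsSmall I M ζ then h.choose else fun _ _ => 0

theorem smallR_spec {s I : Set ℕ} {M : ℕ → ℕ → ℝ} (h : Codes s I M)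
    (h' : ∃ ζ, RowsSmall I M ζ) : RowsSmall I M (smallR s) := by
  obtain ⟨ζ, hζ⟩ := h'
  have H : ∃ ζ, ∃ I M, Codes s I M ∧ RowsSmall I M ζ := ⟨ζ, I, M, h, hζ⟩
  rw [smallR, dif_pos H]
  obtain ⟨I', M', h1, h2⟩ := H.choose_spec
  obtain ⟨rfl, h4⟩ := h1.unique h
  exact smallCongr h4 h2

/-- The index set of the coded metric. -/
def idxS (s : Set ℕ) : Set ℕ := {i | ∃ l, tr i i l ∈ s}

theorem Codes.idxS {s I : Set ℕ} {M : ℕ → ℕ → ℝ} (h : Codes s I M) : idxS s = I := by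
  ext i
  constructor
  · rintro ⟨l, hl⟩
    exact ((h.2 _ _ _).1 hl).1
  · intro hi
    obtain ⟨l, hl, _⟩ := exists_rat (h.1 i hi i hi) (lt_add_one (M i i))
    exact ⟨l, (h.2 i i l).2 ⟨hi, hi, hl⟩⟩

/-- The name of the big family of rows. -/
noncomputable def bigN (s : Set ℕ) : Name B :=
  Name.mk {a : Set ℕ × ℕ × ℕ // a.2.1 ∈ idxS s ∧ bigR s a.1 a.2.1 < rat a.2.2}
    (fun a => opN (opN (rN a.1.1) (natN a.1.2.1)) (natN a.1.2.2)) fun _ => ⊤

/-- The name of the enumeration of rows. -/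
noncomputable def smallN (s : Set ℕ) : Name B :=
  Name.mk {a : ℕ × ℕ × ℕ // a.2.1 ∈ idxS s ∧ smallR s a.1 a.2.1 < rat a.2.2}
    (fun a => opN (opN (natN a.1.1) (natN a.1.2.1)) (natN a.1.2.2)) fun _ => ⊤

theorem pure_bigN (s : Set ℕ) : Pure (bigN s) := by
  rw [pure_iff]
  exact ⟨fun _ => rfl, fun _ => ((pure_rN _).opN (pure_natN _)).opN (pure_natN _)⟩

theorem pure_smallN (s : Set ℕ) : Pure (smallN s) := by
  rw [pure_iff]
  exact ⟨fun _ => rfl, fun _ => ((pure_natN _).opN (pure_natN _)).opN (pure_natN _)⟩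

/-- The Boolean values of the code of the metric on a sequence. -/
noncomputable def γc (z G : Name B) (n : ℕ) : B :=
  match compO (Nat.unpair (Nat.unpair n).1).1 z, compO (Nat.unpair (Nat.unpair n).1).2 z with
  | some x, some y => bd G x y (Nat.unpair n).2
  | _, _ => ⊥

theorem γc_tr {I : Set ℕ} {y : ℕ → Name B} {G : Name B} {i j l : ℕ} (hi : i ∈ I) (hj : j ∈ I) :
    γc (seqN I y) G (tr i j l) = bd G (y i) (y j) l := by
  unfold γc tr
  simp only [Nat.unpair_pair, compO_seqN hi, compO_seqN hj]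

theorem γc_tr' {I : Set ℕ} {y : ℕ → Name B} {G : Name B} {i j l : ℕ} (h : ¬ (i ∈ I ∧ j ∈ I)) :
    γc (seqN I y) G (tr i j l) = ⊥ := by
  unfold γc tr
  simp only [Nat.unpair_pair]
  by_cases hi : i ∈ I
  · have hj : j ∉ I := fun h' => h ⟨hi, h'⟩
    rw [compO_seqN hi, compO_seqN' hj]
  · rw [compO_seqN' hi]

/-! ### Closure and genericity properties -/

/-- The requirement for a universal statement. -/
noncomputable def rqA (Y : Name B) (m : ℕ) (β : (Fin m → Name B) → B) :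
    Set (B × List (Name B)) :=
  fam (fun t : Fin m → Y.idx => ((⨅ a, Y.wt (t a)) ⇨ β (fun a => Y.elt (t a)))ᶜ)
    fun t => List.ofFn fun a => Y.elt (t a)

theorem ALL_mem (h : Good sys C U) {Y : Name B} {m : ℕ} {β : (Fin m → Name B) → B}
    (hr : Met C U (rqA Y m β))
    (hb : ∀ t : Fin m → Name B, (∀ a, t a ∈ C) → (∀ a, bmem (t a) Y ∈ U) → (β t)ᶜ ∉ U) :
    ALL Y m β ∈ U := by
  rcases hr.dec with h1 | h1
  · exfalso
    obtain ⟨t, h2, h3⟩ := hr.wit h1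
    rw [himp_eq, compl_sup, compl_compl, h.inf_iff] at h2
    refine hb (fun a => Y.elt (t a)) (fun a => h3 _ (List.mem_ofFn.2 ⟨a, rfl⟩)) (fun a => ?_) h2.1
    exact h.up _ (h.up _ h2.2 _ (iInf_le _ a)) _ (le_bmem_elt _ le_rfl)
  · rw [compl_iSup] at h1
    simp only [compl_compl] at h1
    exact h1

open Classical in
/-- A common support of two names. -/
noncomputable def spp (Y G : Name B) : ℕ × Set Pt :=
  if h : ∃ a : ℕ × Set Pt, Sup a.1 a.2 ∧ sys.Fixed (H a.1 a.2) Y ∧ sys.Fixed (H a.1 a.2) G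
  then h.choose else (0, ∅)

theorem exists_supp {x : Name B} (hx : sys.HS x) : ∃ k E, Sup k E ∧ sys.Fixed (H k E) x := by
  obtain ⟨K, ⟨k, E, h1, h2⟩, h3⟩ := hx.symm
  exact ⟨k, E, h1, h3.mono h2⟩

theorem spp_spec {Y G : Name B} (hY : sys.HS Y) (hG : sys.HS G) :
    Sup (spp Y G).1 (spp Y G).2 ∧ sys.Fixed (H (spp Y G).1 (spp Y G).2) Y ∧
      sys.Fixed (H (spp Y G).1 (spp Y G).2) G := by
  obtain ⟨k, E, h1, h2⟩ := exists_supp hY
  obtain ⟨k', E', h1', h2'⟩ := exists_supp hG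
  have h : ∃ a : ℕ × Set Pt, Sup a.1 a.2 ∧ sys.Fixed (H a.1 a.2) Y ∧ sys.Fixed (H a.1 a.2) G :=
    ⟨(max k k', E ∪ E'), h1.union h1', h2.mono (H_mono (le_max_left _ _) Set.subset_union_left),
      h2'.mono (H_mono (le_max_right _ _) Set.subset_union_right)⟩
  rw [spp, dif_pos h]
  exact h.choose_spec

/-- The requirement for dense sequences. -/
noncomputable def rqS (Y G : Name B) (k : ℕ) : Set (B × List (Name B)) :=
  fam (fun a : {a : Cond × Set ℕ × (ℕ → Name B) //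
      GoodSeq Y G k (spp Y G).2 a.1 a.2.1 a.2.2} => e a.1.1) fun a => [seqN a.1.2.1 a.1.2.2]

/-- Closure and genericity properties. -/
structure GoodM (C : Set (Name B)) (U : Set B) : Prop where
  unop : ∀ x y : Name B, opN x y ∈ C → x ∈ C ∧ y ∈ C
  comp : ∀ z ∈ C, ∀ i, compN i z ∈ C
  rotm : ∀ w ∈ C, ∀ (k : ℕ) (r : Rt k), sys.am (rot r) w ∈ C
  bigm : ∀ s, rN s ∈ C → bigN s ∈ C
  smallm : ∀ s, rN s ∈ C → smallN s ∈ C
  tri : ∀ Y ∈ C, ∀ G ∈ C, ∀ j, Met C U (rqA Y 3 (βtri G j))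
  sep : ∀ Y ∈ C, ∀ G ∈ C, Met C U (rqA Y 2 (βsep G))
  tb : ∀ Y ∈ C, ∀ G ∈ C, ∀ j m, Met C U (rqA Y (m + 1) (βtb G j m))
  trij : ∀ Y ∈ C, ∀ G ∈ C, Met C U (fam (fun j => (ALL Y 3 (βtri G j))ᶜ) fun _ : ℕ => [])
  tbj : ∀ Y ∈ C, ∀ G ∈ C,
    Met C U (fam (fun j => (⨆ m, ALL Y (m + 1) (βtb G j m))ᶜ) fun _ : ℕ => [])
  seqr : ∀ Y ∈ C, ∀ G ∈ C, ∀ k, Met C U (rqS Y G k)
  real : ∀ w ∈ C, Met C U (rqR fun n => bmem (natN n) w)
  code : ∀ z ∈ C, ∀ G ∈ C, Met C U (rqR (γc z G))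
  near : ∀ z ∈ C, ∀ G ∈ C, ∀ w ∈ C, ∀ j, Met C U
    (fam (fun i : z.idx => bd G w (Cir.unop false (z.elt i)) (cd j)) fun _ => [])
  rotr : ∀ w ∈ C, ∀ k, Met C U (fam (fun r : Rt k => (beq (sys.am (rot r) w) w)ᶜ) fun _ => [])

end Cir

end SymExt
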