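import Pool.Agent.Lib.MP_4e922d_lc.Circ

/-!
# The compact metrizable space of the model which is not separable
-/

namespace SymExt

namespace Cir

open Name

variable {C : Set (Name B)} {U : Set B}

/-- Closure and genericity properties. -/
structure GoodA (C : Set (Name B)) (U : Set B) : Prop where
  unop : ∀ x y : Name B, opN x y ∈ C → x ∈ C ∧ y ∈ C
  rotm : ∀ w ∈ C, ∀ (k : ℕ) (r : Rt k), sys.am (rot r) w ∈ C
  XN : XN ∈ C
  GN : GN ∈ C
  AN0 : ∀ n, AN n 0 ∈ C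
  c1 : ∀ V ∈ C, ∀ n, Met C U (fam (fun t : T => (⨆ J : {J // t ∈ arc J}, bJ V n J.1)ᶜ)
    fun t => [AN n t])
  c2 : ∀ O ∈ C, ∀ n J, Met C U (fam (fun t : {t // t ∈ arc J} => (bmem (AN n t.1) O)ᶜ)
    fun t => [AN n t.1])
  c3 : ∀ V ∈ C, ∀ n, Met C U (fam (fun L : {L : List (ℚ × ℕ) // ∀ t, ∃ J ∈ L, t ∈ arc J} =>
    ⨅ J : {J // J ∈ L.1}, bJ V n J.1) fun _ => [])
  c4 : ∀ V ∈ C, ∀ n J, Met C U (fam (fun i : V.idx => V.wt i ⊓
    ⨅ t : {t // t ∈ arc J}, bmem (AN n t.1) (V.elt i)) fun i => [V.elt i])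

open Classical in
/-- The index of a point of the space. -/
noncomputable def ix (C : Set (Name B)) (U : Set B) (x : ZFSet.{0}) : P :=
  if h : ∃ i, xel i ∈ C ∧ x = val C U (xel i) then h.choose else none

/-- The metric of the space. -/
noncomputable def dd (C : Set (Name B)) (U : Set B) (x y : ZFSet.{0}) : ℝ :=
  dX (ix C U x) (ix C U y)

theorem val_xel_inj (h : Good sys C U) {i j : P} (hi : xel i ∈ C) (hj : xel j ∈ C)
    (he : val C U (xel i) = val C U (xel j)) : i = j := by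
  by_contra hcon
  have h1 := (h.beq_iff _ _ hi hj).2 he
  rw [beq_xel_ne hcon] at h1
  exact h.bot h1

theorem ix_val (h : Good sys C U) {i : P} (hi : xel i ∈ C) : ix C U (val C U (xel i)) = i := by
  have H : ∃ j, xel j ∈ C ∧ val C U (xel i) = val C U (xel j) := ⟨i, hi, rfl⟩
  rw [ix, dif_pos H]
  exact (val_xel_inj h hi H.choose_spec.1 H.choose_spec.2).symm

theorem dd_val (h : Good sys C U) {i j : P} (hi : xel i ∈ C) (hj : xel j ∈ C) :
    dd C U (val C U (xel i)) (val C U (xel j)) = dX i j := by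
  rw [dd, ix_val h hi, ix_val h hj]

theorem mem_X (h : Good sys C U) {x : ZFSet.{0}} :
    x ∈ val C U XN ↔ ∃ i, xel i ∈ C ∧ x = val C U (xel i) := by
  rw [mem_val]
  constructor
  · rintro ⟨i, h1, _, h2⟩; exact ⟨i, h1, h2⟩
  · rintro ⟨i, h1, h2⟩; exact ⟨i, h1, h.top, h2⟩

theorem graph (h : Good sys C U) (hA : GoodA C U) :
    IsGraph (val C U XN) (val C U GN) (dd C U) := by
  intro z
  rw [mem_val]
  constructor
  · rintro ⟨⟨⟨i, j, l⟩, hd⟩, h1, _, rfl⟩
    change opN (opN (xel i) (xel j)) (natN l) ∈ C at h1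
    change ∃ x ∈ val C U XN, ∃ y ∈ val C U XN, ∃ k, _ ∧
      val C U (opN (opN (xel i) (xel j)) (natN l)) = _
    obtain ⟨h2, h3⟩ := hA.unop _ _ (hA.unop _ _ h1).1
    refine ⟨_, (mem_X h).2 ⟨i, h2, rfl⟩, _, (mem_X h).2 ⟨j, h3, rfl⟩, l, ?_, ?_⟩
    · rw [dd_val h h2 h3]; exact hd
    · rw [h.val_opN (h.opN_mem h2 h3) (h.nat l), h.val_opN h2 h3, h.val_natN]
  · rintro ⟨x, hx, y, hy, k, hk, rfl⟩
    obtain ⟨i, hi, rfl⟩ := (mem_X h).1 hx
    obtain ⟨j, hj, rfl⟩ := (mem_X h).1 hy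
    rw [dd_val h hi hj] at hk
    refine ⟨⟨(i, j, k), hk⟩, h.opN_mem (h.opN_mem hi hj) (h.nat k), h.top, ?_⟩
    change _ = val C U (opN (opN (xel i) (xel j)) (natN k))
    rw [h.val_opN (h.opN_mem hi hj) (h.nat k), h.val_opN hi hj, h.val_natN]

theorem metric (h : Good sys C U) (hA : GoodA C U) :
    MetricIn (model sys C U) (val C U XN) (dd C U) where
  nonneg x _ y _ := dX_nonneg _ _
  zero_iff x hx y hy := by
    obtain ⟨i, hi, rfl⟩ := (mem_X h).1 hx
    obtain ⟨j, hj, rfl⟩ := (mem_X h).1 hy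
    rw [dd_val h hi hj, dX_zero]
    exact ⟨fun h' => by rw [h'], fun h' => val_xel_inj h hi hj h'⟩
  symm x _ y _ := dX_symm _ _
  tri x _ y _ z _ := dX_tri _ _ _
  mem := ⟨_, ⟨GN, hA.GN, hs_GN, rfl⟩, graph h hA⟩

/-- The compactness of one circle in the model. -/
theorem circle_cover (h : Good sys C U) (hA : GoodA C U) {V : Name B} (hV : V ∈ C)
    (hopen : ∀ O ∈ val C U V, OpenFor (val C U XN) (dd C U) O)
    (hcov : ∀ x ∈ val C U XN, ∃ O ∈ val C U V, x ∈ O) (n : ℕ) :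
    ∃ s : Set ZFSet.{0}, s.Finite ∧ (∀ O ∈ s, O ∈ val C U V) ∧
      ∀ t, AN n t ∈ C → ∃ O ∈ s, val C U (AN n t) ∈ O := by
  have h0 : (⨅ t : T, ⨆ J : {J // t ∈ arc J}, bJ V n J.1) ∈ U := by
    rcases (hA.c1 V hV n).dec with h1 | h1
    · exfalso
      obtain ⟨t, h2, h3⟩ := (hA.c1 V hV n).wit h1
      have htC : AN n t ∈ C := h3 _ (by simp)
      have hxX : val C U (AN n t) ∈ val C U XN := (mem_X h).2 ⟨some (n, t), htC, rfl⟩
      obtain ⟨O, hO, hxO⟩ := hcov _ hxX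
      obtain ⟨ε, hε, hb⟩ := (hopen O hO).2 _ hxO
      obtain ⟨i, hi1, hi2, rfl⟩ := mem_val.1 hO
      obtain ⟨J, hJ1, hJ2⟩ := exists_arc t hε
      refine h.not_compl ?_ h2
      refine h.up (bJ V n J) ?_ _ (le_iSup (fun J : {J // t ∈ arc J} => bJ V n J.1) ⟨J, hJ1⟩)
      refine h.up (V.wt i ⊓ ⨅ s : {s // s ∈ arc J}, bmem (AN n s.1) (V.elt i)) ?_ _
        (le_iSup (fun i : V.idx => V.wt i ⊓ ⨅ s : {s // s ∈ arc J}, bmem (AN n s.1) (V.elt i)) i)
      refine h.inf _ hi2 _ ?_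
      rcases (hA.c2 _ hi1 n J).dec with h4 | h4
      · exfalso
        obtain ⟨s, h5, h6⟩ := (hA.c2 _ hi1 n J).wit h4
        have hsC : AN n s.1 ∈ C := h6 _ (by simp)
        refine h.not_compl ?_ h5
        rw [h.bmem_iff hsC hi1]
        refine hb _ ((mem_X h).2 ⟨some (n, s.1), hsC, rfl⟩) ?_
        have h7 := dd_val h (i := some (n, t)) (j := some (n, s.1)) htC hsC
        change dd C U (val C U (AN n t)) (val C U (AN n s.1)) = _ at h7
        rw [h7]
        simp only [dX, if_true]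
        have h8 := hJ2 s.1 s.2
        have h9 : (1 / 2 : ℝ) ^ n ≤ 1 := pow_le_one₀ (by norm_num) (by norm_num)
        have h10 := norm_nonneg (t - s.1)
        nlinarith
      · rw [compl_iSup] at h4
        simpa only [compl_compl] using h4
    · rw [compl_iSup] at h1
      simpa only [compl_compl] using h1
  obtain ⟨L, h1, _⟩ := (hA.c3 V hV n).wit (h.up _ h0 _ (circle_compact V n))
  have h2 : ∀ J : {J // J ∈ L.1}, ∃ O ∈ val C U V, ∀ t ∈ arc J.1, AN n t ∈ C →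
      val C U (AN n t) ∈ O := by
    intro J
    have h3 : bJ V n J.1 ∈ U := h.up _ h1 _ (iInf_le _ J)
    obtain ⟨i, h4, h5⟩ := (hA.c4 V hV n J.1).wit h3
    have hiC : V.elt i ∈ C := h5 _ (by simp)
    rw [h.inf_iff] at h4
    refine ⟨val C U (V.elt i), mem_val.2 ⟨i, hiC, h4.1, rfl⟩, fun t ht htC => ?_⟩
    rw [← h.bmem_iff htC hiC]
    exact h.up _ h4.2 _ (iInf_le (fun t : {t // t ∈ arc J.1} => bmem (AN n t.1) (V.elt i)) ⟨t, ht⟩)
  choose f hf1 hf2 using h2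
  have hfin : Finite {J // J ∈ L.1} := (List.finite_toSet L.1)
  refine ⟨Set.range f, Set.finite_range f, ?_, fun t htC => ?_⟩
  · rintro _ ⟨J, rfl⟩
    exact hf1 J
  · obtain ⟨J, hJ, htJ⟩ := L.2 t
    exact ⟨f ⟨J, hJ⟩, ⟨_, rfl⟩, hf2 ⟨J, hJ⟩ t htJ htC⟩

/-- The space is compact in the model. -/
theorem compactX (h : Good sys C U) (hA : GoodA C U) {τ : ZFSet.{0}}
    (hτ : ∀ O, O ∈ τ ↔ O ∈ model sys C U ∧ OpenFor (val C U XN) (dd C U) O) :
    CompactIn (model sys C U) (val C U XN) τ := by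
  rintro V ⟨V, hV, _, rfl⟩ hsub hcov
  have hopen : ∀ O ∈ val C U V, OpenFor (val C U XN) (dd C U) O := fun O hO =>
    ((hτ O).1 (hsub hO)).2
  have h0 : xel none ∈ C := h.nat 0
  obtain ⟨O, hO, hxO⟩ := hcov _ ((mem_X h).2 ⟨none, h0, rfl⟩)
  obtain ⟨ε, hε, hb⟩ := (hopen O hO).2 _ hxO
  obtain ⟨m, hm⟩ := exists_pow_lt_of_lt_one hε (by norm_num : (1 / 2 : ℝ) < 1)
  have key := fun n => circle_cover h hA hV hopen hcov n
  choose s hs1 hs2 hs3 using key
  refine ⟨{O} ∪ ⋃ n ∈ Finset.range m, s n, ?_, ?_, fun x hx => ?_⟩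
  · exact (Set.finite_singleton O).union (Set.Finite.biUnion (Finset.finite_toSet _)
      fun n _ => hs1 n)
  · rintro O' (rfl | hO')
    · exact hO
    · obtain ⟨n, _, hn⟩ := Set.mem_iUnion₂.1 hO'
      exact hs2 n O' hn
  · obtain ⟨i, hi, rfl⟩ := (mem_X h).1 hx
    rcases i with _ | ⟨n, t⟩
    · exact ⟨O, Or.inl rfl, hxO⟩
    · by_cases hn : n < m
      · obtain ⟨O', hO', hx'⟩ := hs3 n t hi
        exact ⟨O', Or.inr (Set.mem_iUnion₂.2 ⟨n, Finset.mem_coe.2 (Finset.mem_range.2 hn), hO'⟩),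
          hx'⟩
      · refine ⟨O, Or.inl rfl, hb _ hx ?_⟩
        rw [dd_val h h0 hi]
        change (1 / 2 : ℝ) ^ n < ε
        refine lt_of_le_of_lt ?_ hm
        exact pow_le_pow_of_le_one (by norm_num) (by norm_num) (not_lt.1 hn)

/-- The space is not separable in the model. -/
theorem not_separable (h : Good sys C U) (hA : GoodA C U) {τ : ZFSet.{0}}
    (hτ : ∀ O, O ∈ τ ↔ O ∈ model sys C U ∧ OpenFor (val C U XN) (dd C U) O) :
    ¬ SeparableIn (model sys C U) (val C U XN) τ := by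
  rintro ⟨D, _, hDX, ⟨f, ⟨F, hFC, hFH, rfl⟩, hf1, hf2, hf3, hf4⟩, hdense⟩
  have hN := h.isZF
  have hT := stT _ hN
  obtain ⟨k, E, hE, hFk⟩ := exists_supp hFH
  -- the ball
  have hx0 : val C U (AN k 0) ∈ val C U XN := (mem_X h).2 ⟨some (k, 0), hA.AN0 k, rfl⟩
  obtain ⟨l, hl1, hl2⟩ := exists_rat (a := (1 / 2) ^ k * (1 / 2)) (b := (1 / 2) ^ k)
    (by positivity) (by have := pw_pos k; linarith)
  obtain ⟨O, hO, hO'⟩ := S.ball_mem hN hT.2.2.1 ⟨XN, hA.XN, hs_XN, rfl⟩ ⟨GN, hA.GN, hs_GN, rfl⟩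
    (metric h hA) (graph h hA) hτ hx0 l
  have hne : O ≠ ∅ := by
    intro h'
    have h1 : val C U (AN k 0) ∈ O := (hO' _).2 ⟨hx0, by
      rw [((metric h hA).zero_iff _ hx0 _ hx0).2 rfl]
      have := pw_pos k
      exact lt_trans (by positivity) hl1⟩
    rw [h'] at h1
    exact ZFSet.notMem_empty _ h1
  obtain ⟨x, hxD, hxO⟩ := hdense O hO hne
  obtain ⟨hxX, hxd⟩ := (hO' x).1 hxO
  obtain ⟨i, hi, rfl⟩ := (mem_X h).1 hxX
  -- the point is on the circle number k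
  have hik : ∃ t, i = some (k, t) := by
    have h1 := dd_val h (i := some (k, 0)) (hA.AN0 k) hi
    change dd C U (val C U (AN k 0)) (val C U (xel i)) = _ at h1
    rw [h1] at hxd
    rcases i with _ | ⟨m, t⟩
    · exfalso
      change (1 / 2 : ℝ) ^ k < rat l at hxd
      linarith
    · by_cases hkm : k = m
      · exact ⟨t, by rw [hkm]⟩
      · exfalso
        simp only [dX] at hxd
        rw [if_neg hkm] at hxd
        have := pw_pos m
        linarith
  obtain ⟨t, rfl⟩ := hik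
  change AN k t ∈ C at hi
  change val C U (AN k t) ∈ D at hxD
  obtain ⟨b, hb⟩ := hf2 _ hxD
  obtain ⟨a', _, b', hb', he⟩ := hf1 _ hb
  rw [ZFSet.pair_inj] at he
  obtain ⟨_, rfl⟩ := he
  obtain ⟨m, rfl⟩ := mem_omega_iff.1 hb'
  -- the Boolean value is fixed
  set β := bmem (opN (AN k t) (natN m)) F with hβ
  have hβU : β ∈ U := by
    rw [hβ, h.bmem_iff (h.opN_mem hi (h.nat m)) hFC, h.val_opN hi (h.nat m), h.val_natN]
    exact hb
  have hβf : ∀ g ∈ H (k + 1) E, actB g β = β := by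
    intro g hg
    have e1 := hFk g (H_mono (Nat.le_succ k) subset_rfl hg)
    rw [hβ, act_bmem e1, am_opN, SymSys.am_pure sys (pure_natN m)]
    have e2 : beq (sys.am g (AN k t)) (AN k t) = ⊤ := fixed_AN k t (Nat.lt_succ_self k) E g hg
    refine eq_of_forall_le fun Γ => ⟨fun h' => bmem_congr_left (le_beq_opN (e2 ▸ le_top)
      (by rw [beq_refl]; exact le_top)) h', fun h' => bmem_congr_left
      (le_beq_opN (le_beq_symm (e2 ▸ le_top)) (by rw [beq_refl]; exact le_top)) h'⟩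
  let r : Rt k := Finsupp.single ⟨k, le_rfl⟩ (1 / 2)
  have hrβ : actB (rot r) β = β := fixed_of_fixed hE.1 hβf (rot_fix hE r)
  have hrF := hFk (rot r) (rot_mem hE r)
  have hrC : sys.am (rot r) (AN k t) ∈ C := hA.rotm _ hi k r
  have h2 : bmem (opN (sys.am (rot r) (AN k t)) (natN m)) F ∈ U := by
    have e1 : actB (rot r) β = bmem (opN (sys.am (rot r) (AN k t)) (natN m)) F := by
      rw [hβ, act_bmem hrF, am_opN, SymSys.am_pure sys (pure_natN m)]
    rw [← e1, hrβ]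
    exact hβU
  rw [h.bmem_iff (h.opN_mem hrC (h.nat m)) hFC, h.val_opN hrC (h.nat m), h.val_natN] at h2
  have h3 := hf4 _ _ _ h2 hb
  rw [← h.beq_iff _ _ hrC hi] at h3
  have h4 : beq (sys.am (rot r) (AN k t)) (AN k t) = ⊥ := by
    have e1 := am_AN (rot r) k t
    have e2 : t + (((rt (rot r) k : ℚ) : ℝ) : T) ≠ t := by
      intro h'
      have e3 := (rt_spec (rot r) (k, t, ∅)).2
      have e4 : ((rot r).1 (k, t, ∅)).2.1 = t + (((ang r k : ℚ) : ℝ) : T) := rfl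
      rw [e4] at e3
      change t + (((ang r k : ℚ) : ℝ) : T) = t + (((rt (rot r) k : ℚ) : ℝ) : T) at e3
      rw [h'] at e3
      have e5 : ang r k = 1 / 2 := by
        unfold ang
        rw [dif_pos le_rfl]
        exact Finsupp.single_eq_same
      rw [e5] at e3
      have e6 : (((1 / 2 : ℚ) : ℝ) : T) = 0 := by
        have := congrArg (fun z => z - t) e3
        simpa using this
      rw [AddCircle.coe_eq_zero_iff] at e6
      obtain ⟨z, hz⟩ := e6
      have e7 : (z : ℝ) = 1 / 2 := by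
        simpa using hz
      have e8 : ((2 * z : ℤ) : ℝ) = ((1 : ℤ) : ℝ) := by
        push_cast
        linarith
      have e9 : 2 * z = 1 := by exact_mod_cast e8
      omega
    have e3 : beq (AN k (t + (((rt (rot r) k : ℚ) : ℝ) : T))) (AN k t) = ⊥ :=
      beq_xel_ne (i := some (k, t + (((rt (rot r) k : ℚ) : ℝ) : T))) (j := some (k, t)) (by
        intro h'
        exact e2 (congrArg Prod.snd (Option.some.inj h')))
    refine le_bot_iff.1 ?_
    rw [← e3]
    exact beq_trans _ (le_beq_symm (by rw [e1]; exact le_top)) le_rfl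
  rw [h4] at h3
  exact h.bot h3

/-- The model does not satisfy `M(C, S)`. -/
theorem not_mcs (h : Good sys C U) (hA : GoodA C U) : ¬ MCS (model sys C U) := by
  intro hcon
  have hN := h.isZF
  have hX : val C U XN ∈ model sys C U := ⟨XN, hA.XN, hs_XN, rfl⟩
  have hG : val C U GN ∈ model sys C U := ⟨GN, hA.GN, hs_GN, rfl⟩
  obtain ⟨τ, hτN, hτ⟩ := (stT _ hN).2.1 _ hX _ hG
  have hτ' : ∀ O, O ∈ τ ↔ O ∈ model sys C U ∧ OpenFor (val C U XN) (dd C U) O := by
    intro O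
    rw [hτ]
    refine and_congr_right fun _ => and_congr_right fun hOX => forall₂_congr fun x hx => ?_
    have hxX := hOX hx
    constructor
    · rintro ⟨l, hl, hl'⟩
      refine ⟨rat l, ?_, fun y hy hd => hl' y hy ((S.mem_graph (graph h hA)).2 ⟨hxX, hy, hd⟩)⟩
      have := ((S.mem_graph (graph h hA)).1 hl).2.2
      rwa [((metric h hA).zero_iff _ hxX _ hxX).2 rfl] at this
    · rintro ⟨ε, hε, hb⟩
      obtain ⟨l, hl0, hl⟩ := S.exists_rat_small hε
      refine ⟨l, (S.mem_graph (graph h hA)).2 ⟨hxX, hxX, by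
        rw [((metric h hA).zero_iff _ hxX _ hxX).2 rfl]; exact hl0⟩, fun y hy hd => ?_⟩
      exact hb y hy (lt_trans ((S.mem_graph (graph h hA)).1 hd).2.2 hl)
  exact not_separable h hA hτ' (hcon _ τ ⟨hX, hτN, ⟨dd C U, metric h hA, hτ'⟩,
    compactX h hA hτ'⟩)

end Cir

end SymExt
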