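import Pool.Agent.Lib.MP_4e922d_lc.Forc

/-!
# Names of points of compact metric spaces
-/

namespace SymExt

namespace Cir

open Name

/-! ### Congruence -/

theorem le_beq_pairN {x y x' y' : Name B} {Γ : B} (h1 : Γ ≤ beq x x') (h2 : Γ ≤ beq y y') :
    Γ ≤ beq (pairN x y) (pairN x' y') := by
  have key : ∀ {x y x' y' : Name B} {Δ : B}, Δ ≤ beq x x' → Δ ≤ beq y y' → ∀ w : Name B,
      Δ ≤ bmem w (pairN x y) → Δ ≤ bmem w (pairN x' y') := by
    intro x y x' y' Δ h1 h2 w h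
    rw [le_bmem_pairN] at h ⊢
    refine elim_sup h (fun Δ' hΔ' e => ?_) (fun Δ' hΔ' e => ?_)
    · exact (beq_trans w e (hΔ'.trans h1)).trans le_sup_left
    · exact (beq_trans w e (hΔ'.trans h2)).trans le_sup_right
  refine le_beq_of_forall fun w Δ hΔ => ⟨key (hΔ.trans h1) (hΔ.trans h2) w,
    key (le_beq_symm (hΔ.trans h1)) (le_beq_symm (hΔ.trans h2)) w⟩

theorem le_beq_opN {x y x' y' : Name B} {Γ : B} (h1 : Γ ≤ beq x x') (h2 : Γ ≤ beq y y') :
    Γ ≤ beq (opN x y) (opN x' y') :=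
  le_beq_pairN (le_beq_pairN h1 h1) (le_beq_pairN h1 h2)

/-- The Boolean value of `d(x, y) < rat l`. -/
noncomputable def bd (g x y : Name B) (l : ℕ) : B := bmem (opN (opN x y) (natN l)) g

theorem bd_congr {g x y x' y' : Name B} {l : ℕ} {Γ : B} (h1 : Γ ≤ beq x x') (h2 : Γ ≤ beq y y')
    (h : Γ ≤ bd g x y l) : Γ ≤ bd g x' y' l :=
  bmem_congr_left (le_beq_opN (le_beq_opN h1 h2) (by rw [beq_refl]; exact le_top)) h

theorem act_bd {g : Name B} {u : ↥Gp} (hg : beq (sys.am u g) g = ⊤) (x y : Name B) (l : ℕ) :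
    actB u (bd g x y l) = bd g (sys.am u x) (sys.am u y) l := by
  have h1 := SymSys.bmem_am sys u (opN (opN x y) (natN l)) g
  rw [am_opN, am_opN, SymSys.am_pure sys (pure_natN l), bmem_eq_of_beq_top hg] at h1
  exact h1.symm

theorem act_bmem {Y : Name B} {u : ↥Gp} (hY : beq (sys.am u Y) Y = ⊤) (x : Name B) :
    actB u (bmem x Y) = bmem (sys.am u x) Y := by
  have h1 := SymSys.bmem_am sys u x Y
  rw [bmem_eq_of_beq_top hY] at h1
  exact h1.symm

/-- `v` fixes `am h w` if `w` is fixed by `H k E` and `v ∈ H k (h '' E)`. -/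
theorem fixed_am {k : ℕ} {E : Set Pt} {w : Name B} (hw : sys.Fixed (H k E) w) (h : ↥Gp)
    {v : ↥Gp} (hv : v ∈ H k (h.1 '' E)) : beq (sys.am v (sys.am h w)) (sys.am h w) = ⊤ := by
  have h1 := hw _ (conj_mem h hv)
  have h2 : sys.am v (sys.am h w) = sys.am h (sys.am (h⁻¹ * v * h) w) := by
    rw [← SymSys.am_mul, ← SymSys.am_mul]; congr 1; group
  rw [h2, SymSys.beq_am, h1]
  exact (sys.act h).map_top

theorem am_congr {k : ℕ} {E : Set Pt} {w : Name B} (hw : sys.Fixed (H k E) w) {u v : ↥Gp}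
    (h : v⁻¹ * u ∈ H k E) : beq (sys.am u w) (sys.am v w) = ⊤ := by
  have h1 := hw _ h
  have h2 : beq (sys.am v (sys.am (v⁻¹ * u) w)) (sys.am v w) = sys.act v ⊤ := by
    rw [SymSys.beq_am, h1]
  rw [← SymSys.am_mul, mul_inv_cancel_left] at h2
  rw [h2]
  exact (sys.act v).map_top

theorem ac_congr {p : Cond} {E : Set Pt} (hp : On p E) {σ τ : Equiv.Perm Pt}
    (h : ∀ x ∈ E, σ x = τ x) : ac σ p = ac τ p := by
  have h1 : ac (τ⁻¹ * σ) p = p := ac_eq_of_on hp fun x hx => by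
    rw [Equiv.Perm.mul_apply, h x hx, ias]
  have h2 : ac τ (ac (τ⁻¹ * σ) p) = ac σ p := by
    rw [← ac_mul, mul_inv_cancel_left]
  rw [← h2, h1]

/-! ### Universal statements about the elements of a name -/

/-- A Boolean function of several names that respects equality. -/
def CongM {m : ℕ} (β : (Fin m → Name B) → B) : Prop :=
  ∀ (t t' : Fin m → Name B) (Γ : B), (∀ a, Γ ≤ beq (t a) (t' a)) → Γ ≤ β t → Γ ≤ β t'

/-- The Boolean value of: all tuples of elements of `Y` have the property `β`. -/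
noncomputable def ALL (Y : Name B) (m : ℕ) (β : (Fin m → Name B) → B) : B :=
  ⨅ t : Fin m → Y.idx, (⨅ a, Y.wt (t a)) ⇨ β (fun a => Y.elt (t a))

theorem le_ALL_iff {Y : Name B} {m : ℕ} {β : (Fin m → Name B) → B} (hβ : CongM β) {Γ : B} :
    Γ ≤ ALL Y m β ↔ ∀ t : Fin m → Name B, ∀ Δ ≤ Γ, (∀ a, Δ ≤ bmem (t a) Y) → Δ ≤ β t := by
  constructor
  · intro h t Δ hΔ ht
    refine le_of_forall_e fun p hp => ?_
    obtain ⟨q, hq, s, hs⟩ := exists_choice
      (fun (a : Fin m) (j : Y.idx) => Y.wt j ⊓ beq (t a) (Y.elt j)) p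
      fun a => hp.trans (ht a)
    refine ⟨q, hq, ?_⟩
    have h1 : e q ≤ β (fun a => Y.elt (s a)) := by
      refine le_himp_iff_forall.1 (le_iInf_iff.1 h s) (e q)
        ((e_mono hq).trans (hp.trans hΔ)) ?_
      exact le_iInf fun a => (hs a).trans inf_le_left
    exact hβ _ _ _ (fun a => le_beq_symm ((hs a).trans inf_le_right)) h1
  · intro h
    refine le_iInf fun s => le_himp_iff_forall.2 fun Δ hΔ hs => ?_
    exact h _ Δ hΔ fun a => le_bmem_elt _ (hs.trans (iInf_le _ a))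

theorem act_ALL {Y : Name B} {u : ↥Gp} (hY : beq (sys.am u Y) Y = ⊤) {m : ℕ}
    {β : (Fin m → Name B) → B} (hβ : CongM β)
    (hu : ∀ t, actB u (β t) = β (fun a => sys.am u (t a))) : actB u (ALL Y m β) = ALL Y m β := by
  have h1 : actB u (ALL Y m β) = ALL (sys.am u Y) m β := by
    have h2 : ALL (sys.am u Y) m β = ALL (Name.mk Y.idx (fun i => sys.am u (Y.elt i))
      (fun i => actB u (Y.wt i))) m β := by rw [SymSys.am_eq]
    rw [h2]
    simp only [ALL, OrderIso.map_iInf, map_himp, hu]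
    rfl
  rw [h1]
  refine eq_of_forall_le fun Γ => ?_
  rw [le_ALL_iff hβ, le_ALL_iff hβ]
  have h3 : ∀ x : Name B, bmem x (sys.am u Y) = bmem x Y := fun x => bmem_eq_of_beq_top hY x
  simp only [h3]

/-- Codes of the numbers `2^(-j)`. -/
def cd (j : ℕ) : ℕ := Nat.pair 1 (2 ^ j - 1)

/-- Weak triangle inequality. -/
noncomputable def βtri (g : Name B) (j : ℕ) (t : Fin 3 → Name B) : B :=
  (bd g (t 0) (t 2) (cd (j + 1)) ⊓ bd g (t 1) (t 2) (cd (j + 1))) ⇨ bd g (t 0) (t 1) (cd j)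

/-- Points at distance zero are equal. -/
noncomputable def βsep (g : Name B) (t : Fin 2 → Name B) : B :=
  (⨅ j, bd g (t 0) (t 1) (cd j)) ⇨ beq (t 0) (t 1)

/-- Among the points there are two which are close. -/
noncomputable def βtb (g : Name B) (j m : ℕ) (t : Fin (m + 1) → Name B) : B :=
  ⨆ p : {p : Fin (m + 1) × Fin (m + 1) // p.1 < p.2}, bd g (t p.1.2) (t p.1.1) (cd j)

theorem congM_tri (g : Name B) (j : ℕ) : CongM (βtri g j) := by
  intro t t' Γ h h'
  refine le_himp_iff_forall.2 fun Δ hΔ hc => ?_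
  rw [le_inf_iff] at hc
  refine bd_congr (hΔ.trans (h 0)) (hΔ.trans (h 1)) (le_himp_iff_forall.1 h' Δ hΔ ?_)
  exact le_inf (bd_congr (le_beq_symm (hΔ.trans (h 0))) (le_beq_symm (hΔ.trans (h 2))) hc.1)
    (bd_congr (le_beq_symm (hΔ.trans (h 1))) (le_beq_symm (hΔ.trans (h 2))) hc.2)

theorem congM_sep (g : Name B) : CongM (βsep g) := by
  intro t t' Γ h h'
  refine le_himp_iff_forall.2 fun Δ hΔ hc => ?_
  rw [le_iInf_iff] at hc
  have h1 : Δ ≤ beq (t 0) (t 1) := le_himp_iff_forall.1 h' Δ hΔ (le_iInf fun j =>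
    bd_congr (le_beq_symm (hΔ.trans (h 0))) (le_beq_symm (hΔ.trans (h 1))) (hc j))
  exact beq_trans _ (le_beq_symm (hΔ.trans (h 0))) (beq_trans _ h1 (hΔ.trans (h 1)))

theorem congM_tb (g : Name B) (j m : ℕ) : CongM (βtb g j m) := by
  intro t t' Γ h h'
  refine elim_iSup h' fun p Δ hΔ hp => ?_
  exact intro_iSup p (bd_congr (hΔ.trans (h _)) (hΔ.trans (h _)) hp)

/-- The Boolean value of: `Y` with the graph `g` is a totally bounded metric space. -/
noncomputable def cM (Y g : Name B) : B :=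
  (⨅ j, ALL Y 3 (βtri g j)) ⊓ ALL Y 2 (βsep g) ⊓ ⨅ j, ⨆ m, ALL Y (m + 1) (βtb g j m)

section

variable {Y g : Name B} {u : ↥Gp} (hY : beq (sys.am u Y) Y = ⊤) (hg : beq (sys.am u g) g = ⊤)

include hY hg

theorem act_tb (j m : ℕ) : actB u (ALL Y (m + 1) (βtb g j m)) = ALL Y (m + 1) (βtb g j m) :=
  act_ALL hY (congM_tb g j m) fun t => by
    simp only [βtb, OrderIso.map_iSup, act_bd hg]

theorem act_cM : actB u (cM Y g) = cM Y g := by
  simp only [cM, map_inf, OrderIso.map_iInf, OrderIso.map_iSup, act_tb hY hg]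
  congr 2
  · refine iInf_congr fun j => act_ALL hY (congM_tri g j) fun t => ?_
    simp only [βtri, map_himp, map_inf, act_bd hg]
  · refine act_ALL hY (congM_sep g) fun t => ?_
    simp only [βsep, map_himp, OrderIso.map_iInf, act_bd hg]
    congr 1
    exact (SymSys.beq_am sys u _ _).symm

end

theorem le_tri {Y g : Name B} {Γ : B} (h : Γ ≤ cM Y g) {x y z : Name B} {j : ℕ}
    (hx : Γ ≤ bmem x Y) (hy : Γ ≤ bmem y Y) (hz : Γ ≤ bmem z Y)
    (h1 : Γ ≤ bd g x z (cd (j + 1))) (h2 : Γ ≤ bd g y z (cd (j + 1))) :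
    Γ ≤ bd g x y (cd j) := by
  have h3 : Γ ≤ ALL Y 3 (βtri g j) := h.trans (inf_le_left.trans (inf_le_left.trans (iInf_le _ j)))
  have h4 := (le_ALL_iff (congM_tri g j)).1 h3 ![x, y, z] Γ le_rfl (by
    intro a; fin_cases a; exacts [hx, hy, hz])
  exact le_himp_iff_forall.1 h4 Γ le_rfl (le_inf h1 h2)

theorem le_sep {Y g : Name B} {Γ : B} (h : Γ ≤ cM Y g) {x y : Name B}
    (hx : Γ ≤ bmem x Y) (hy : Γ ≤ bmem y Y) (h1 : ∀ j, Γ ≤ bd g x y (cd j)) :
    Γ ≤ beq x y := by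
  have h3 : Γ ≤ ALL Y 2 (βsep g) := h.trans (inf_le_left.trans inf_le_right)
  have h4 := (le_ALL_iff (congM_sep g)).1 h3 ![x, y] Γ le_rfl (by
    intro a; fin_cases a; exacts [hx, hy])
  exact le_himp_iff_forall.1 h4 Γ le_rfl (le_iInf h1)

theorem le_tb {Y g : Name B} {Γ : B} (h : Γ ≤ cM Y g) (j : ℕ) :
    Γ ≤ ⨆ m, ALL Y (m + 1) (βtb g j m) := h.trans (inf_le_right.trans (iInf_le _ j))

/-! ### One step -/

theorem exists_copies {D E' : Set Pt} (hD : D.Countable) (hE' : E'.Countable) :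
    ∃ c : ℕ → Set ℕ, (∀ a, ∀ x ∈ D, sh (c a) x ∉ E') ∧
      ∀ a b, a < b → ∀ x ∈ D, ∀ y ∈ D, sh (c a) x ≠ sh (c b) y := by
  refine exists_seq_of_forall_finset_exists (fun c : Set ℕ => ∀ x ∈ D, sh c x ∉ E')
    (fun c c' => ∀ x ∈ D, ∀ y ∈ D, sh c x ≠ sh c' y) fun s _ => ?_
  obtain ⟨c, hc⟩ := exists_fresh hD (hE'.union
    (Set.Countable.biUnion s.countable_toSet fun (c' : Set ℕ) _ => hD.image (sh c')))
  refine ⟨c, fun x hx h => hc x hx (Or.inl h), fun c' hc' x hx y hy h => ?_⟩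
  exact hc y hy (Or.inr (Set.mem_iUnion₂.2 ⟨c', hc', x, hx, h⟩))

theorem step {Y g : Name B} {k : ℕ} {E E' : Set Pt} (hE' : Sup k E') (hEE : E ⊆ E')
    (hY : sys.Fixed (H k E) Y) (hg : sys.Fixed (H k E) g) {w : Name B}
    (hw : sys.Fixed (H k E') w) (j : ℕ) {p : Cond} (hp : On p E') (hpc : e p ≤ cM Y g)
    (hpw : e p ≤ bmem w Y) : ∃ p1 ≤ p, On p1 E' ∧ ∀ u ∈ H k E,
      e p1 ⊓ e (ac u.1 p1) ≤ bd g w (sys.am u w) (cd j) := by
  have hmono : H k E' ≤ H k E := H_mono le_rfl hEE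
  -- a bound for the size of separated sets
  obtain ⟨q0, hq0, m, hm0⟩ := RO.dense_e.exists_iSup (le_tb hpc (j + 1))
  set τ := ALL Y (m + 1) (βtb g (j + 1) m) with hτ
  have hτf : ∀ v ∈ H k E, actB v τ = τ := fun v hv => act_tb (hY v hv) (hg v hv) _ _
  set r := rs q0 E' with hr
  have hrp : r ≤ p := rs_le hq0 hp
  have hrτ : e r ≤ τ := restr_le hE'.1 (fun v hv => hτf v (hmono hv)) hm0
  have hrE : On r E' := on_rs _ _
  -- disjoint copies
  set D := E' \ E with hD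
  have hDc : D.Countable := hE'.1.mono Set.sdiff_subset
  obtain ⟨c, hc1, hc2⟩ := exists_copies hDc hE'.1
  have hsplit : ∀ x ∈ E', x ∈ E ∨ x ∈ D := fun x hx =>
    (Classical.em (x ∈ E)).imp id fun h => ⟨hx, h⟩
  set h : ℕ → ↥Gp := fun a => flipP D (c a) with hh
  have hhE : ∀ a, h a ∈ H k E := fun a =>
    flipP_mem (fun x hx hx' => hx'.2 hx) fun x hx hx' => hc1 a x hx (hEE hx')
  have hhD : ∀ a, ∀ x ∈ D, (h a).1 x = sh (c a) x := fun a x hx => flipP_of_mem hx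
  -- points of different copies
  have hne : ∀ a b, a ≠ b → ∀ x ∈ D, ∀ y ∈ E', (h a).1 x ≠ (h b).1 y := by
    intro a b hab x hx y hy hxy
    rw [hhD a x hx] at hxy
    rcases hsplit y hy with hyE | hyD
    · rw [(hhE b).2 y hyE] at hxy
      exact hc1 a x hx (hxy ▸ hy)
    · rw [hhD b y hyD] at hxy
      rcases lt_or_gt_of_ne hab with h1 | h1
      · exact hc2 a b h1 x hx y hyD hxy
      · exact hc2 b a h1 y hyD x hx hxy.symm
  obtain ⟨s, hs, _⟩ := exists_union (fun a : Fin (m + 1) => ac (h a).1 r) (by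
    intro a b x η b1 b2 h1 h2
    rw [ac_f] at h1 h2
    set y1 := (h a).1⁻¹ x with hy1
    set y2 := (h b).1⁻¹ x with hy2
    have e1 : (h a).1 y1 = x := by rw [hy1, ais]
    have e2 : (h b).1 y2 = x := by rw [hy2, ais]
    by_cases hab : a = b
    · subst hab
      have : y1 = y2 := (h a).1.injective (e1.trans e2.symm)
      rw [this] at h1
      exact Option.some.inj (h1.symm.trans h2)
    · have hab' : (a : ℕ) ≠ b := fun h' => hab (Fin.ext h')
      have m1 := hrE (mem_dm h1)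
      have m2 := hrE (mem_dm h2)
      rcases hsplit y1 m1 with h3 | h3
      · rcases hsplit y2 m2 with h4 | h4
        · have e3 : y1 = y2 := by
            rw [← (hhE a).2 y1 h3, e1, ← e2, (hhE b).2 y2 h4]
          rw [e3] at h1
          exact Option.some.inj (h1.symm.trans h2)
        · exact absurd (e2.trans e1.symm) (hne b a (Ne.symm hab') y2 h4 y1 m1)
      · exact absurd (e1.trans e2.symm) (hne a b hab' y1 h3 y2 m2))
  have hsτ : e s ≤ τ := by
    refine (e_mono (hs 0)).trans ?_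
    rw [← act_e, ← hτf _ (hhE _)]
    exact (actB _).monotone hrτ
  have hsw : ∀ a : Fin (m + 1), e s ≤ bmem (sys.am (h a) w) Y := by
    intro a
    refine (e_mono (hs a)).trans ?_
    rw [← act_e, ← act_bmem (hY _ (hhE _))]
    exact (actB _).monotone ((e_mono hrp).trans hpw)
  have h5 := (le_ALL_iff (congM_tb g (j + 1) m)).1 hsτ (fun a => sys.am (h a) w) (e s) le_rfl hsw
  obtain ⟨r2, hr2, ⟨⟨a, b⟩, hab⟩, h6⟩ := RO.dense_e.exists_iSup h5
  change a < b at hab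
  change e r2 ≤ bd g (sys.am (h b) w) (sys.am (h a) w) (cd (j + 1)) at h6
  have hab' : (a : ℕ) ≠ b := fun h' => (ne_of_lt hab) (Fin.ext h')
  set ha := h a with hha
  set hb := h b with hhb
  -- restriction
  set E2 := hb.1 '' E' ∪ ha.1 '' E' with hE2
  have hEE2 : E ⊆ E2 := fun x hx => Or.inl ⟨x, hEE hx, (hhE b).2 x hx⟩
  set ρ := rs r2 E2 with hρ
  have hρb : e ρ ≤ bd g (sys.am hb w) (sys.am ha w) (cd (j + 1)) := by
    refine restr_le ((hE'.1.image _).union (hE'.1.image _)) (k := k) (fun v hv => ?_) h6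
    rw [act_bd (hg v (H_mono le_rfl hEE2 hv))]
    have f1 := fixed_am hw hb (H_mono le_rfl Set.subset_union_left hv)
    have f2 := fixed_am hw ha (H_mono le_rfl Set.subset_union_right hv)
    refine eq_of_forall_le fun Γ => ⟨fun h' => bd_congr (f1 ▸ le_top) (f2 ▸ le_top) h',
      fun h' => bd_congr (le_beq_symm (f1 ▸ le_top)) (le_beq_symm (f2 ▸ le_top)) h'⟩
  set p1 := rs (ac hb.1⁻¹ ρ) E' with hp1
  set p2 := rs (ac ha.1⁻¹ ρ) E' with hp2
  have hp1E : On p1 E' := on_rs _ _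
  have hp2E : On p2 E' := on_rs _ _
  have hp1r : p1 ≤ r := by
    intro x η b0 hx
    have hxE := hrE (mem_dm hx)
    refine rs_f.2 ⟨hxE, ?_⟩
    rw [ac_f, inv_inv]
    refine rs_f.2 ⟨Or.inl ⟨x, hxE, rfl⟩, hr2 _ _ _ (hs b _ _ _ ?_)⟩
    rw [ac_f]
    change r.f (hb.1⁻¹ (hb.1 x)) η = some b0
    rw [ias]
    exact hx
  have hp2r : p2 ≤ r := by
    intro x η b0 hx
    have hxE := hrE (mem_dm hx)
    refine rs_f.2 ⟨hxE, ?_⟩
    rw [ac_f, inv_inv]
    refine rs_f.2 ⟨Or.inr ⟨x, hxE, rfl⟩, hr2 _ _ _ (hs a _ _ _ ?_)⟩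
    rw [ac_f]
    change r.f (ha.1⁻¹ (ha.1 x)) η = some b0
    rw [ias]
    exact hx
  have hagree : ∀ x ∈ E, ∀ η b0, p2.f x η = some b0 → p1.f x η = some b0 := by
    intro x hx η b0 h7
    obtain ⟨_, h8⟩ := rs_f.1 h7
    rw [ac_f, inv_inv, (hhE a).2 x hx] at h8
    refine rs_f.2 ⟨hEE hx, ?_⟩
    rw [ac_f, inv_inv, (hhE b).2 x hx]
    exact h8
  set v := hb⁻¹ * ha with hv
  have hvE : v ∈ H k E := (H k E).mul_mem ((H k E).inv_mem (hhE b)) (hhE a)
  have hstar : e p1 ⊓ e (ac v.1 p2) ≤ bd g w (sys.am v w) (cd (j + 1)) := by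
    refine le_of_inf_e fun s' h7 h8 => ?_
    have h9 : s' ≤ ac (hb⁻¹).1 ρ := by
      intro x η b0 h10
      have h11 : ρ.f (hb.1 x) η = some b0 := by
        rw [ac_f] at h10
        change ρ.f ((hb.1⁻¹)⁻¹ x) η = some b0 at h10
        rwa [inv_inv] at h10
      rcases (rs_f.1 h11).1 with ⟨y, hy, hxy⟩ | ⟨y, hy, hxy⟩
      · have : y = x := hb.1.injective hxy
        subst this
        refine h7 _ _ _ (rs_f.2 ⟨hy, ?_⟩)
        rw [ac_f, inv_inv]
        exact h11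
      · have e4 : v.1 y = x := by
          change hb.1⁻¹ (ha.1 y) = x
          rw [hxy, ias]
        have e5 : v.1⁻¹ x = y := by rw [← e4, ias]
        refine h8 _ _ _ ?_
        rw [ac_f, e5]
        refine rs_f.2 ⟨hy, ?_⟩
        rw [ac_f, inv_inv, hxy]
        exact h11
    have h12 := (actB hb⁻¹).monotone hρb
    rw [act_e, act_bd (hg _ ((H k E).inv_mem (hhE b))), ← SymSys.am_mul, ← SymSys.am_mul,
      inv_mul_cancel, SymSys.am_one] at h12
    exact (e_mono h9).trans h12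
  have hvD : ∀ x ∈ D, v.1 x ∉ E' := by
    intro x hx hx'
    refine hne a b hab' x hx (v.1 x) hx' ?_
    change ha.1 x = hb.1 (hb.1⁻¹ (ha.1 x))
    rw [ais]
  have hfib : ∀ g' ∈ H k E, ∀ x ∈ E', (g'.1 x).1 = x.1 ∧ (g'.1 x).2.1 = x.2.1 := fun g' hg' x hx =>
    ⟨gp_fst g' x, hg'.1 x (hE'.2 x hx)⟩
  have hstar2 : ∀ g' ∈ H k E, (∀ x ∈ D, g'.1 x ∉ E') →
      e p1 ⊓ e (ac g'.1 p2) ≤ bd g w (sys.am g' w) (cd (j + 1)) := by
    intro g' hg' hg'D
    obtain ⟨c', hc'⟩ := exists_fresh (A := v.1 '' D) (D := E' ∪ v.1 '' D ∪ g'.1 '' D)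
      (hDc.image _) ((hE'.1.union (hDc.image _)).union (hDc.image _))
    obtain ⟨u1, hu1, hu1'⟩ := exists_swap (A := D) (α := fun x => v.1 x)
      (β := fun x => sh c' (v.1 x)) (fun x _ y _ h' => v.1.injective h')
      (fun x _ y _ h' => v.1.injective (by
        have := congrArg (sh c') h'
        simpa [sh_sh] using this))
      (fun x hx y hy h' => hc' _ ⟨y, hy, rfl⟩ (Or.inl (Or.inr ⟨x, hx, h'⟩)))
      (fun x _ => ⟨rfl, rfl⟩) (k := k) (E := E') hvD
      (fun x hx h' => hc' _ ⟨x, hx, rfl⟩ (Or.inl (Or.inl h')))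
    obtain ⟨u2, hu2, hu2'⟩ := exists_swap (A := D) (α := fun x => sh c' (v.1 x))
      (β := fun x => g'.1 x) (fun x _ y _ h' => v.1.injective (by
        have := congrArg (sh c') h'
        simpa [sh_sh] using this)) (fun x _ y _ h' => g'.1.injective h')
      (fun x hx y hy h' => hc' _ ⟨x, hx, rfl⟩ (Or.inr ⟨y, hy, h'.symm⟩))
      (fun x hx => by
        have e6 := hfib v hvE x hx.1
        have e7 := hfib g' hg' x hx.1
        exact ⟨e6.1.trans e7.1.symm, e6.2.trans e7.2.symm⟩) (k := k) (E := E')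
      (fun x hx h' => hc' _ ⟨x, hx, rfl⟩ (Or.inl (Or.inl h'))) hg'D
    set u' := u2 * u1 with hu'
    have hu'E : u' ∈ H k E' := (H k E').mul_mem hu2 hu1
    have huv : ∀ x ∈ E', (u' * v).1 x = g'.1 x := by
      intro x hx
      change u2.1 (u1.1 (v.1 x)) = g'.1 x
      rcases hsplit x hx with h13 | h13
      · rw [hvE.2 x h13, hu1.2 x hx, hu2.2 x hx, hg'.2 x h13]
      · have e8 : u1.1 (v.1 x) = sh c' (v.1 x) := hu1' x h13
        rw [e8]
        exact hu2' x h13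
    have h14 := (actB u').monotone hstar
    rw [map_inf, act_e, act_e, ← ac_mul, act_bd (hg _ (hmono hu'E)), ← SymSys.am_mul,
      ac_eq_of_on hp1E hu'E.2] at h14
    have h15 : ac (u'.1 * v.1) p2 = ac g'.1 p2 := ac_congr hp2E huv
    rw [h15] at h14
    refine bd_congr ?_ ?_ h14
    · rw [hw u' hu'E]; exact le_top
    · rw [am_congr hw (u := u' * v) (v := g')]
      · exact le_top
      · refine ⟨fun x hx => ?_, fun x hx => ?_⟩
        · have h16 : (g'⁻¹ * (u' * v)) ∈ H k E := (H k E).mul_mem ((H k E).inv_mem hg')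
            ((H k E).mul_mem (hmono hu'E) hvE)
          exact h16.1 x hx
        · change g'.1⁻¹ ((u' * v).1 x) = x
          rw [huv x hx, ias]
  refine ⟨p1, hp1r.trans hrp, hp1E, fun u hu => ?_⟩
  have hp1c : e p1 ≤ cM Y g := (e_mono (hp1r.trans hrp)).trans hpc
  have hp1w : e p1 ≤ bmem w Y := (e_mono (hp1r.trans hrp)).trans hpw
  have hp2w : e p2 ≤ bmem w Y := (e_mono (hp2r.trans hrp)).trans hpw
  refine le_of_inf_e fun s' h7 h8 => RO.dense_e.le_of_dense fun q hq => ?_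
  obtain ⟨c', hc'⟩ := exists_fresh (A := D) (D := E' ∪ u.1 '' E' ∪ dm q) hDc
    ((hE'.1.union (hE'.1.image _)).union (dm_ctb q))
  have hg' : flipP D c' ∈ H k E := flipP_mem (fun x hx hx' => hx'.2 hx)
    fun x hx hx' => hc' x hx (Or.inl (Or.inl (hEE hx')))
  set g' := flipP D c' with hg'def
  have hg'D : ∀ x ∈ D, g'.1 x = sh c' x := fun x hx => flipP_of_mem hx
  obtain ⟨r', hr'1, hr'2, _⟩ := exists_union2 (p := q) (q := ac g'.1 p2) (by
    intro x η b0 b1 h9 h10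
    rw [ac_f] at h10
    set y := g'.1⁻¹ x with hy
    have e1 : g'.1 y = x := by rw [hy, ais]
    rcases hsplit y (hp2E (mem_dm h10)) with h11 | h11
    · rw [hg'.2 y h11] at e1
      rw [e1] at h10 h11
      have h12 := hq x η b1 (h7 x η b1 (hagree x h11 η b1 h10))
      exact Option.some.inj (h9.symm.trans h12)
    · rw [hg'D y h11] at e1
      have := hc' y h11
      rw [e1] at this
      exact absurd (Or.inr (mem_dm h9)) this)
  refine ⟨r', hr'1, ?_⟩
  have k1 : e r' ≤ e p1 := e_mono (hr'1.trans (hq.trans h7))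
  have k2 : e r' ≤ e (ac u.1 p1) := e_mono (hr'1.trans (hq.trans h8))
  have k3 : e r' ≤ e (ac g'.1 p2) := e_mono hr'2
  have k4 : e r' ≤ bd g w (sys.am g' w) (cd (j + 1)) :=
    (le_inf k1 k3).trans (hstar2 g' hg' fun x hx hx' => by
      rw [hg'D x hx] at hx'
      exact hc' x hx (Or.inl (Or.inl hx')))
  have k5 : e r' ≤ bd g (sys.am u w) (sys.am g' w) (cd (j + 1)) := by
    have h9 := hstar2 (u⁻¹ * g') ((H k E).mul_mem ((H k E).inv_mem hu) hg') (by
      intro x hx hx'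
      change u.1⁻¹ (g'.1 x) ∈ E' at hx'
      refine hc' x hx (Or.inl (Or.inr ⟨_, hx', ?_⟩))
      rw [ais, hg'D x hx])
    have h10 := (actB u).monotone h9
    rw [map_inf, act_e, act_e, ← ac_mul, act_bd (hg _ hu), ← SymSys.am_mul,
      mul_inv_cancel_left] at h10
    have h11 : u.1 * (u⁻¹ * g').1 = g'.1 := by
      change u.1 * (u.1⁻¹ * g'.1) = g'.1
      rw [mul_inv_cancel_left]
    rw [h11] at h10
    exact (le_inf k2 k3).trans h10
  have k6 : e r' ≤ bmem (sys.am u w) Y := by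
    rw [← act_bmem (hY u hu)]
    refine k2.trans ?_
    rw [← act_e]
    exact (actB u).monotone hp1w
  have k7 : e r' ≤ bmem (sys.am g' w) Y := by
    rw [← act_bmem (hY g' hg')]
    refine k3.trans ?_
    rw [← act_e]
    exact (actB g').monotone hp2w
  exact le_tri (k1.trans hp1c) (k1.trans hp1w) k6 k7 k4 k5

end Cir

end SymExt
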