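import Pool.Agent.Lib.MP_4e922d_lc.Pts

/-!
# Dense sequences of points
-/

namespace SymExt

namespace Cir

open Name

/-! ### Exact points -/

theorem exact {Y g : Name B} {k : ℕ} {E E' : Set Pt} (hE' : Sup k E') (hEE : E ⊆ E')
    (hY : sys.Fixed (H k E) Y) (hg : sys.Fixed (H k E) g) {w : Name B}
    (hw : sys.Fixed (H k E') w) {p : Cond} (hp : On p E') (hpc : e p ≤ cM Y g)
    (hpw : e p ≤ bmem w Y) : ∃ q ≤ p, On q E' ∧ ∀ u ∈ H k E,
      e q ⊓ e (ac u.1 q) ≤ beq w (sys.am u w) := by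
  have hstep : ∀ (j : ℕ) (q : {q : Cond // q ≤ p ∧ On q E'}), ∃ r : {q : Cond // q ≤ p ∧ On q E'},
      r.1 ≤ q.1 ∧ ∀ u ∈ H k E, e r.1 ⊓ e (ac u.1 r.1) ≤ bd g w (sys.am u w) (cd j) := by
    rintro j ⟨q, hq1, hq2⟩
    obtain ⟨r, hr1, hr2, hr3⟩ := step hE' hEE hY hg hw j hq2 ((e_mono hq1).trans hpc)
      ((e_mono hq1).trans hpw)
    exact ⟨⟨r, hr1.trans hq1, hr2⟩, hr1, hr3⟩
  choose F hF1 hF2 using hstep
  let s : ℕ → {q : Cond // q ≤ p ∧ On q E'} := fun n => Nat.rec ⟨p, le_rfl, hp⟩ (fun n q => F n q) n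
  obtain ⟨q, hq1, hq2⟩ := exists_lim (fun n => (s n).1) fun n => hF1 n (s n)
  refine ⟨q, hq1 0, hq2 E' fun n => (s n).2.2, fun u hu => ?_⟩
  have hqp : e q ≤ e p := e_mono (hq1 0)
  have h1 : e q ⊓ e (ac u.1 q) ≤ bmem (sys.am u w) Y := by
    refine inf_le_right.trans ?_
    rw [← act_e, ← act_bmem (hY u hu)]
    exact (actB u).monotone (hqp.trans hpw)
  refine le_sep (inf_le_left.trans (hqp.trans hpc)) (inf_le_left.trans (hqp.trans hpw)) h1
    fun j => ?_
  exact (inf_le_inf (e_mono (hq1 (j + 1))) (e_mono (ac_mono _ (hq1 (j + 1))))).trans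
    (hF2 j (s j) u hu)

/-- The symmetrization of a name. -/
noncomputable def starN (k : ℕ) (E : Set Pt) (q : Cond) (w : Name B) : Name B :=
  Name.mk (↥(H k E) × w.idx) (fun i => sys.am i.1.1 (w.elt i.2))
    fun i => e (ac i.1.1.1 q) ⊓ actB i.1.1 (w.wt i.2)

theorem fixed_starN (k : ℕ) (E : Set Pt) (q : Cond) (w : Name B) :
    sys.Fixed (H k E) (starN k E q w) := by
  refine SymSys.fixed_of_bsub fun g hg => top_le_iff.1 (le_bsub_iff.2 fun i Δ _ hi => ?_)
  obtain ⟨h, i⟩ := i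
  change Δ ≤ actB g (e (ac h.1.1 q) ⊓ actB h.1 (w.wt i)) at hi
  refine le_bmem_of_le (y := starN k E q w) ⟨⟨g * h.1, (H k E).mul_mem hg h.2⟩, i⟩ ?_ ?_
  · change Δ ≤ e (ac (g.1 * h.1.1) q) ⊓ actB (g * h.1) (w.wt i)
    rw [map_inf, act_e] at hi
    rw [ac_mul, SymSys.act_mul sys]
    exact hi
  · change Δ ≤ beq (sys.am g (sys.am h.1 (w.elt i))) (sys.am (g * h.1) (w.elt i))
    rw [← SymSys.am_mul, beq_refl]
    exact le_top

theorem hs_starN {k : ℕ} {E : Set Pt} (hE : Sup k E) (q : Cond) {w : Name B} (hw : sys.HS w) :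
    sys.HS (starN k E q w) := by
  rw [SymSys.hs_iff]
  exact ⟨⟨_, H_mem hE, fixed_starN k E q w⟩, fun i => SymSys.HS.am sys _ _ (hw.elt i.2)⟩

theorem le_beq_starN {k : ℕ} {E : Set Pt} {q : Cond} {w : Name B}
    (h : ∀ u ∈ H k E, e q ⊓ e (ac u.1 q) ≤ beq w (sys.am u w)) :
    e q ≤ beq w (starN k E q w) := by
  refine le_beq_of_forall fun z Δ hΔ => ⟨fun hz => ?_, fun hz => ?_⟩
  · refine elim_bmem hz fun i Δ' hΔ' hi he => ?_
    refine le_bmem_of_le (y := starN k E q w) ⟨1, i⟩ ?_ ?_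
    · change Δ' ≤ e (ac 1 q) ⊓ actB 1 (w.wt i)
      rw [ac_one, SymSys.act_one sys]
      exact le_inf (hΔ'.trans hΔ) hi
    · change Δ' ≤ beq z (sys.am 1 (w.elt i))
      rw [SymSys.am_one]
      exact he
  · refine elim_bmem hz fun i Δ' hΔ' hi he => ?_
    obtain ⟨u, i⟩ := i
    change Δ' ≤ e (ac u.1.1 q) ⊓ actB u.1 (w.wt i) at hi
    change Δ' ≤ beq z (sys.am u.1 (w.elt i)) at he
    rw [le_inf_iff] at hi
    have h1 : Δ' ≤ beq w (sys.am u.1 w) := (le_inf (hΔ'.trans hΔ) hi.1).trans (h u.1 u.2)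
    refine bmem_congr_right (le_beq_symm h1) (bmem_congr_left (le_beq_symm he) ?_)
    rw [SymSys.bmem_am]
    exact hi.2.trans ((actB u.1).monotone (le_bmem_elt i le_rfl))

/-! ### Nets -/

/-- `w` is a hereditarily symmetric name fixed by `H k E`. -/
def FixN (k : ℕ) (E : Set Pt) (w : Name B) : Prop := sys.HS w ∧ sys.Fixed (H k E) w

section

variable {Y g : Name B} {k : ℕ} {E : Set Pt} (hE : E.Countable)
  (hY : sys.Fixed (H k E) Y) (hg : sys.Fixed (H k E) g)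

include hY in
theorem fix_bmem {w : Name B} (hw : sys.Fixed (H k E) w) {u : ↥Gp} (hu : u ∈ H k E) :
    actB u (bmem w Y) = bmem w Y := SymSys.Fixed.bmem (S := sys) (hw u hu) (hY u hu)

include hg in
theorem fix_bd {x y : Name B} (hx : sys.Fixed (H k E) x) (hy : sys.Fixed (H k E) y) (l : ℕ)
    {u : ↥Gp} (hu : u ∈ H k E) : actB u (bd g x y l) = bd g x y l := by
  rw [act_bd (hg u hu)]
  exact eq_of_forall_le fun Γ => ⟨fun h' => bd_congr (hx u hu ▸ le_top) (hy u hu ▸ le_top) h',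
    fun h' => bd_congr (le_beq_symm (hx u hu ▸ le_top)) (le_beq_symm (hy u hu ▸ le_top)) h'⟩

include hE hY hg in
theorem net {p : Cond} (hp : On p E) (hpc : e p ≤ cM Y g) (j : ℕ) :
    ∃ q ≤ p, On q E ∧ ∃ L : List (Name B), (∀ y ∈ L, FixN k E y ∧ e q ≤ bmem y Y) ∧
      ∀ w, FixN k E w → e q ⊓ bmem w Y ≤ ⨆ y : {y // y ∈ L}, bd g w y.1 (cd j) := by
  by_contra hcon
  push Not at hcon
  obtain ⟨q0, hq0, m, hm0⟩ := RO.dense_e.exists_iSup (le_tb hpc j)
  have hr : e (rs q0 E) ≤ ALL Y (m + 1) (βtb g j m) :=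
    restr_le hE (fun v hv => act_tb (hY v hv) (hg v hv) _ _) hm0
  have key : ∀ n : ℕ, ∃ q ≤ rs q0 E, On q E ∧ ∃ t : Fin n → Name B,
      (∀ a, FixN k E (t a) ∧ e q ≤ bmem (t a) Y) ∧
      ∀ a b, a < b → e q ≤ (bd g (t b) (t a) (cd j))ᶜ := by
    intro n
    induction n with
    | zero => exact ⟨rs q0 E, le_rfl, on_rs _ _, Fin.elim0, fun a => a.elim0, fun a => a.elim0⟩
    | succ n ih =>
      obtain ⟨q, hq, hqE, t, ht1, ht2⟩ := ih
      have hqp : q ≤ p := hq.trans (rs_le hq0 hp)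
      obtain ⟨w, hw, hw2⟩ := hcon q hqp hqE (List.ofFn t) (by
        intro y hy
        obtain ⟨a, rfl⟩ := (List.mem_ofFn).1 hy
        exact ht1 a)
      have h1 : ∃ r ≤ q, e r ≤ bmem w Y ∧ ∀ a, e r ≤ (bd g w (t a) (cd j))ᶜ := by
        by_contra hcon2
        push Not at hcon2
        apply hw2
        refine le_of_forall_e fun s hs => ?_
        obtain ⟨r, hr1, hr2⟩ := RO.dense_e.compat s q (by
          rw [inf_eq_left.2 (hs.trans inf_le_left)]; exact e_ne_bot s)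
        obtain ⟨a, ha⟩ := hcon2 r hr2 ((e_mono hr1).trans (hs.trans inf_le_right))
        obtain ⟨r', hr', hr''⟩ := RO.dense_e.exists_compl ha
        rw [compl_compl] at hr''
        refine ⟨r', hr'.trans hr1, intro_iSup ⟨t a, List.mem_ofFn.2 ⟨a, rfl⟩⟩ hr''⟩
      obtain ⟨r, hr1, hr2, hr3⟩ := h1
      refine ⟨rs r E, (rs_le hr1 hqE).trans hq, on_rs _ _, Fin.snoc t w, ?_, ?_⟩
      · intro a
        refine Fin.lastCases ?_ (fun a => ?_) a
        · rw [Fin.snoc_last]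
          exact ⟨hw, restr_le hE (fun v hv => fix_bmem hY hw.2 hv) hr2⟩
        · rw [Fin.snoc_castSucc]
          exact ⟨(ht1 a).1, (e_mono (rs_le hr1 hqE)).trans (ht1 a).2⟩
      · intro a b
        refine Fin.lastCases ?_ (fun b => ?_) b
        · refine Fin.lastCases ?_ (fun a => ?_) a
          · intro h; exact absurd h (lt_irrefl _)
          · intro _
            rw [Fin.snoc_last, Fin.snoc_castSucc]
            refine restr_le hE (k := k) (fun v hv => ?_) (hr3 a)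
            rw [map_compl, fix_bd hg hw.2 (ht1 a).1.2 _ hv]
        · refine Fin.lastCases ?_ (fun a => ?_) a
          · intro h; exact absurd h (not_lt.2 (Fin.le_last _))
          · intro h
            rw [Fin.snoc_castSucc, Fin.snoc_castSucc]
            exact (e_mono (rs_le hr1 hqE)).trans (ht2 a b (by simpa using h))
  obtain ⟨q, hq, _, t, ht1, ht2⟩ := key (m + 1)
  have h1 := (le_ALL_iff (congM_tb g j m)).1 ((e_mono hq).trans hr) t (e q) le_rfl
    fun a => (ht1 a).2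
  obtain ⟨r, hr, ⟨⟨a, b⟩, hab⟩, h2⟩ := RO.dense_e.exists_iSup h1
  exact RO.dense_e.not_both h2 ((e_mono hr).trans (ht2 a b hab))

end

/-- A sequence of names of points that is forced to be dense among the points fixed by
`H k E`. -/
structure GoodSeq (Y g : Name B) (k : ℕ) (E : Set Pt) (q : Cond) (I : Set ℕ)
    (y : ℕ → Name B) : Prop where
  on : On q E
  fix : ∀ i ∈ I, FixN k E (y i)
  mem : ∀ i ∈ I, e q ≤ bmem (y i) Y
  dense : ∀ w, FixN k E w → ∀ j, e q ⊓ bmem w Y ≤ ⨆ i : {i // i ∈ I}, bd g w (y i.1) (cd j)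

theorem exists_goodSeq {Y g : Name B} {k : ℕ} {E : Set Pt} (hE : E.Countable)
    (hY : sys.Fixed (H k E) Y) (hg : sys.Fixed (H k E) g) {p : Cond} (hp : On p E)
    (hpc : e p ≤ cM Y g) : ∃ q ≤ p, ∃ I y, GoodSeq Y g k E q I y := by
  have hstep : ∀ (j : ℕ) (q : {q : Cond // q ≤ p ∧ On q E}),
      ∃ r : {q : Cond // q ≤ p ∧ On q E} × List (Name B), r.1.1 ≤ q.1 ∧
      (∀ y ∈ r.2, FixN k E y ∧ e r.1.1 ≤ bmem y Y) ∧
      ∀ w, FixN k E w → e r.1.1 ⊓ bmem w Y ≤ ⨆ y : {y // y ∈ r.2}, bd g w y.1 (cd j) := by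
    rintro j ⟨q, hq1, hq2⟩
    obtain ⟨r, hr1, hr2, L, h1, h2⟩ := net hE hY hg hq2 ((e_mono hq1).trans hpc) j
    exact ⟨⟨⟨r, hr1.trans hq1, hr2⟩, L⟩, hr1, h1, h2⟩
  choose F hF1 hF2 hF3 using hstep
  let s : ℕ → {q : Cond // q ≤ p ∧ On q E} := fun n =>
    Nat.rec ⟨p, le_rfl, hp⟩ (fun n q => (F n q).1) n
  obtain ⟨q, hq1, hq2⟩ := exists_lim (fun n => (s n).1) fun n => hF1 n (s n)
  let L : ℕ → List (Name B) := fun n => (F n (s n)).2
  have hqF : ∀ n, q ≤ (F n (s n)).1.1 := fun n => hq1 (n + 1)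
  let I : Set ℕ := {i | (Nat.unpair i).2 < (L (Nat.unpair i).1).length}
  let y : ℕ → Name B := fun i => (L (Nat.unpair i).1).getD (Nat.unpair i).2 empN
  have hyL : ∀ i ∈ I, y i ∈ L (Nat.unpair i).1 := by
    intro i hi
    have hi' : (Nat.unpair i).2 < (L (Nat.unpair i).1).length := hi
    simp only [y, List.getD_eq_getElem?_getD, List.getElem?_eq_getElem hi', Option.getD_some]
    exact List.getElem_mem hi'
  refine ⟨q, hq1 0, I, y, hq2 E fun n => (s n).2.2, fun i hi => (hF2 _ _ _ (hyL i hi)).1,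
    fun i hi => (e_mono (hqF _)).trans (hF2 _ _ _ (hyL i hi)).2, fun w hw j => ?_⟩
  refine (inf_le_inf (e_mono (hqF j)) le_rfl).trans ((hF3 j (s j) w hw).trans
    (iSup_le fun z => ?_))
  obtain ⟨z, hz⟩ := z
  obtain ⟨n, hn, rfl⟩ := List.mem_iff_getElem.1 hz
  have hI : Nat.pair j n ∈ I := by
    change (Nat.unpair (Nat.pair j n)).2 < (L (Nat.unpair (Nat.pair j n)).1).length
    rw [Nat.unpair_pair]
    exact hn
  refine le_iSup_of_le ⟨Nat.pair j n, hI⟩ (le_of_eq ?_)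
  have : y (Nat.pair j n) = (L j)[n] := by
    simp only [y, Nat.unpair_pair, List.getD_eq_getElem?_getD]
    rw [List.getElem?_eq_getElem hn, Option.getD_some]
  change bd g w ((L j)[n]) (cd j) = bd g w (y (Nat.pair j n)) (cd j)
  rw [this]

/-- Dense sequences exist generically. -/
theorem le_iSup_goodSeq {Y g : Name B} {k : ℕ} {E : Set Pt} (hE : E.Countable)
    (hY : sys.Fixed (H k E) Y) (hg : sys.Fixed (H k E) g) :
    cM Y g ≤ ⨆ a : {a : Cond × Set ℕ × (ℕ → Name B) // GoodSeq Y g k E a.1 a.2.1 a.2.2},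
      e a.1.1 := by
  refine le_of_forall_e fun p hp => ?_
  have h1 : e (rs p E) ≤ cM Y g := restr_le hE (fun v hv => act_cM (hY v hv) (hg v hv)) hp
  obtain ⟨q, hq, I, y, hq2⟩ := exists_goodSeq hE hY hg (on_rs p E) h1
  obtain ⟨r, hr1, hr2, _⟩ := exists_union2 (p := q) (q := p) (by
    intro x η b b' h2 h3
    have h4 := hq2.on (mem_dm h2)
    have h5 := hq x η b' (rs_f.2 ⟨h4, h3⟩)
    exact Option.some.inj (h2.symm.trans h5))
  exact ⟨r, hr2, intro_iSup ⟨(q, I, y), hq2⟩ (e_mono hr1)⟩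

/-- Every point is approximated by the sequence. -/
theorem approx {Y g : Name B} {k : ℕ} {E E' : Set Pt} (hE : Sup k E) (hE' : Sup k E')
    (hY : sys.Fixed (H k E) Y) (hg : sys.Fixed (H k E) g) {q : Cond} {I : Set ℕ}
    {y : ℕ → Name B} (hq : GoodSeq Y g k E q I y) {w : Name B} (hw : sys.HS w)
    (hw2 : sys.Fixed (H k E') w) (j : ℕ) :
    cM Y g ⊓ e q ⊓ bmem w Y ≤ ⨆ i : {i // i ∈ I}, bd g w (y i.1) (cd j) := by
  have hE2 : Sup k (E ∪ E') := by simpa using hE.union hE'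
  have m1 : H k (E ∪ E') ≤ H k E := H_mono le_rfl Set.subset_union_left
  have m2 : H k (E ∪ E') ≤ H k E' := H_mono le_rfl Set.subset_union_right
  refine le_of_forall_e fun p hp => ?_
  have h1 : e (rs p (E ∪ E')) ≤ cM Y g ⊓ e q ⊓ bmem w Y := by
    refine restr_le hE2.1 (k := k) (fun v hv => ?_) hp
    rw [map_inf, map_inf, act_cM (hY v (m1 hv)) (hg v (m1 hv)), act_e,
      ac_eq_of_on hq.on (m1 hv).2]
    congr 1
    exact SymSys.Fixed.bmem (S := sys) (hw2 v (m2 hv)) (hY v (m1 hv))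
  obtain ⟨q', hq'1, hq'2, hq'3⟩ := exact hE2 Set.subset_union_left hY hg (hw2.mono m2)
    (on_rs p _) (h1.trans (inf_le_left.trans inf_le_left)) (h1.trans inf_le_right)
  obtain ⟨r, hr1, hr2, _⟩ := exists_union2 (p := q') (q := p) (by
    intro x η b b' h2 h3
    have h4 := hq'2 (mem_dm h2)
    have h5 := hq'1 x η b' (rs_f.2 ⟨h4, h3⟩)
    exact Option.some.inj (h2.symm.trans h5))
  have h6 : e r ≤ beq w (starN k E q' w) := (e_mono hr1).trans (le_beq_starN hq'3)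
  have h7 : e r ≤ cM Y g ⊓ e q ⊓ bmem w Y := (e_mono hr2).trans hp
  have h8 : e r ≤ ⨆ i : {i // i ∈ I}, bd g (starN k E q' w) (y i.1) (cd j) := by
    refine (le_inf (h7.trans (inf_le_left.trans inf_le_right)) ?_).trans
      (hq.dense _ ⟨hs_starN hE q' hw, fixed_starN k E q' w⟩ j)
    exact bmem_congr_left h6 (h7.trans inf_le_right)
  refine ⟨r, hr2, elim_iSup h8 fun i Δ hΔ hi => intro_iSup i ?_⟩
  exact bd_congr (le_beq_symm (hΔ.trans h6)) (by rw [beq_refl]; exact le_top) hi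

/-! ### Rotations -/

/-- The group of the finitely supported rational rotations of the circles `n ≥ k`. -/
abbrev Rt (k : ℕ) : Type := {n : ℕ // k ≤ n} →₀ ℚ

open Classical in
/-- The angle of a rotation. -/
noncomputable def ang {k : ℕ} (r : Rt k) (n : ℕ) : ℚ := if h : k ≤ n then r ⟨n, h⟩ else 0

theorem ang_add {k : ℕ} (r s : Rt k) (n : ℕ) : ang (r + s) n = ang r n + ang s n := by
  unfold ang
  split <;> simp

/-- The rotation as an automorphism. -/
noncomputable def rot {k : ℕ} (r : Rt k) : ↥Gp :=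
  ⟨{ toFun := fun x => (x.1, x.2.1 + (((ang r x.1 : ℚ) : ℝ) : T), x.2.2)
     invFun := fun x => (x.1, x.2.1 - (((ang r x.1 : ℚ) : ℝ) : T), x.2.2)
     left_inv := fun x => by simp
     right_inv := fun x => by simp }, ⟨ang r, fun x => ⟨rfl, rfl⟩⟩⟩

theorem rot_apply {k : ℕ} (r : Rt k) (x : Pt) :
    (rot r).1 x = (x.1, x.2.1 + (((ang r x.1 : ℚ) : ℝ) : T), x.2.2) := rfl

theorem rot_add {k : ℕ} (r s : Rt k) : rot (r + s) = rot r * rot s := by
  refine Subtype.ext (Equiv.ext fun x => ?_)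
  change (x.1, x.2.1 + (((ang (r + s) x.1 : ℚ) : ℝ) : T), x.2.2) =
    (x.1, (x.2.1 + (((ang s x.1 : ℚ) : ℝ) : T)) + (((ang r x.1 : ℚ) : ℝ) : T), x.2.2)
  rw [ang_add, add_assoc, ← AddCircle.coe_add]
  push_cast
  rw [add_comm ((ang r x.1 : ℚ) : ℝ)]

theorem rot_fix {k : ℕ} {E : Set Pt} (hE : Sup k E) (r : Rt k) : ∀ x ∈ E, (rot r).1 x = x := by
  intro x hx
  have h1 : ang r x.1 = 0 := by
    unfold ang
    rw [dif_neg (not_le.2 (hE.2 x hx))]
  rw [rot_apply, h1]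
  simp

theorem rot_mem {k : ℕ} {E : Set Pt} (hE : Sup k E) (r : Rt k) : rot r ∈ H k E := by
  refine ⟨fun x hx => ?_, rot_fix hE r⟩
  have h1 : ang r x.1 = 0 := by
    unfold ang
    rw [dif_neg (not_le.2 hx)]
  rw [rot_apply, h1]
  simp

/-- Every automorphism in `H k0 E` is a rotation up to `H k E`. -/
theorem exists_rot {k0 k : ℕ} {E : Set Pt} (hE : Sup k0 E) {u : ↥Gp} (hu : u ∈ H k0 E) :
    ∃ r : Rt k0, (rot r)⁻¹ * u ∈ H k E := by
  obtain ⟨a, ha⟩ := u.2
  let r : Rt k0 := Finsupp.onFinset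
    ((Finset.range k).subtype (fun n => k0 ≤ n)) (fun n => if n.1 < k then a n.1 else 0) (by
      intro n hn
      rw [Finset.mem_subtype, Finset.mem_range]
      by_contra hcon
      rw [if_neg hcon] at hn
      exact hn rfl)
  refine ⟨r, fun x hx => ?_, fun x hx => ?_⟩
  · change ((rot r).1⁻¹ (u.1 x)).2.1 = x.2.1
    have h1 : (rot r).1 ((rot r).1⁻¹ (u.1 x)) = u.1 x := ais _ _
    set z := (rot r).1⁻¹ (u.1 x) with hz
    rw [rot_apply] at h1
    have h2 : z.1 = x.1 := by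
      have := congrArg Prod.fst h1
      exact this.trans (ha x).1
    have h3 : z.2.1 + (((ang r z.1 : ℚ) : ℝ) : T) = (u.1 x).2.1 :=
      congrArg (fun y : Pt => y.2.1) h1
    rw [h2] at h3
    by_cases h4 : k0 ≤ x.1
    · have h5 : ang r x.1 = a x.1 := by
        unfold ang
        rw [dif_pos h4]
        change (if x.1 < k then a x.1 else 0) = _
        rw [if_pos hx]
      rw [h5, (ha x).2] at h3
      exact add_right_cancel h3
    · have h5 : ang r x.1 = 0 := by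
        unfold ang
        rw [dif_neg h4]
      rw [h5, hu.1 x (not_le.1 h4)] at h3
      simpa using h3
  · change (rot r).1⁻¹ (u.1 x) = x
    rw [hu.2 x hx, Equiv.Perm.inv_eq_iff_eq]
    exact (rot_fix hE r x hx).symm

theorem conj_rot {k0 k : ℕ} {E : Set Pt} (hE : Sup k0 E) (r : Rt k0) {v : ↥Gp}
    (hv : v ∈ H k E) : (rot r)⁻¹ * v * rot r ∈ H k E := by
  refine conj_mem (rot r) ?_
  have : (rot r).1 '' E = E := by
    ext x
    constructor
    · rintro ⟨y, hy, rfl⟩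
      rw [rot_fix hE r y hy]
      exact hy
    · intro hx
      exact ⟨x, hx, rot_fix hE r x hx⟩
  rwa [this]

theorem fixed_rot {k0 k : ℕ} {E : Set Pt} (hE : Sup k0 E) (r : Rt k0) {w : Name B}
    (hw : sys.Fixed (H k E) w) : sys.Fixed (H k E) (sys.am (rot r) w) := by
  intro v hv
  have h1 := hw _ (conj_rot hE r hv)
  have h2 : sys.am v (sys.am (rot r) w) = sys.am (rot r) (sys.am ((rot r)⁻¹ * v * rot r) w) := by
    rw [← SymSys.am_mul, ← SymSys.am_mul]; congr 1; group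
  rw [h2, SymSys.beq_am, h1]
  exact (sys.act _).map_top

/-- The Boolean value of: `w` is a point of `Y` which is fixed by all rotations. -/
noncomputable def bfix (k0 : ℕ) (Y w : Name B) : B :=
  bmem w Y ⊓ ⨅ r : Rt k0, beq (sys.am (rot r) w) w

/-- Points which are fixed by the rotations are approximated by the first sequence. -/
theorem approx_fix {Y g : Name B} {k0 k : ℕ} {E : Set Pt} (hE : Sup k0 E) (hk : k0 ≤ k)
    (hY : sys.Fixed (H k0 E) Y) {q : Cond} {I : Set ℕ}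
    {y : ℕ → Name B} (hq : GoodSeq Y g k0 E q I y) {w : Name B} (hw : FixN k E w) (j : ℕ) :
    e q ⊓ bfix k0 Y w ≤ ⨆ i : {i // i ∈ I}, bd g w (y i.1) (cd j) := by
  set b := bfix k0 Y w with hb
  have hmono : H k E ≤ H k0 E := H_mono hk subset_rfl
  have hbk : ∀ v ∈ H k E, actB v b = b := by
    intro v hv
    rw [hb, bfix, map_inf, OrderIso.map_iInf]
    congr 1
    · exact SymSys.Fixed.bmem (S := sys) (hw.2 v hv) (hY v (hmono hv))
    · refine iInf_congr fun r => ?_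
      exact SymSys.Fixed.beq (S := sys) (fixed_rot hE r hw.2 v hv) (hw.2 v hv)
  have hb0 : ∀ v ∈ H k0 E, actB v b = b := fun v hv => fixed_of_fixed hE.1 hbk hv.2
  have hbu : ∀ u ∈ H k0 E, b ≤ beq (sys.am u w) w := by
    intro u hu
    obtain ⟨r, hr⟩ := exists_rot (k := k) hE hu
    have h1 := am_congr hw.2 hr
    exact beq_trans _ (h1 ▸ le_top) (inf_le_right.trans (iInf_le _ r))
  have hcong : Cong fun _ : Name B => b := fun _ _ _ _ h => h
  set w' := sepN w (fun _ => b) with hw'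
  have hw'f : sys.Fixed (H k0 E) w' := by
    refine SymSys.fixed_of_bsub fun u hu => ?_
    rw [hw', SymSys.am_sepN (S := sys) u w (fun _ => b) (fun _ => b) fun _ => hb0 u hu]
    refine top_le_iff.1 (le_bsub_of_forall fun z Δ _ hz => ?_)
    rw [le_bmem_sepN hcong] at hz ⊢
    exact ⟨bmem_congr_right (hz.2.trans (hbu u hu)) hz.1, hz.2⟩
  have hw'h : sys.HS w' := by
    rw [SymSys.hs_iff]
    exact ⟨⟨_, H_mem hE, hw'f⟩, fun i => hw.1.elt i⟩
  have hww' : b ≤ beq w w' := le_beq_of_forall fun z Δ hΔ => by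
    rw [hw', le_bmem_sepN hcong]
    exact ⟨fun h => ⟨h, hΔ⟩, fun h => h.1⟩
  have h1 : e q ⊓ b ≤ ⨆ i : {i // i ∈ I}, bd g w' (y i.1) (cd j) := by
    refine (le_inf inf_le_left ?_).trans (hq.dense w' ⟨hw'h, hw'f⟩ j)
    exact bmem_congr_left (inf_le_right.trans hww') (inf_le_right.trans inf_le_left)
  refine elim_iSup h1 fun i Δ hΔ hi => intro_iSup i ?_
  exact bd_congr (le_beq_symm ((hΔ.trans inf_le_right).trans hww'))
    (by rw [beq_refl]; exact le_top) hi

/-- Membership in `Y` and distances are not changed by rotations. -/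
theorem bmem_rot {Y : Name B} {k0 k : ℕ} {E : Set Pt} (hE : Sup k0 E) (hk : k0 ≤ k)
    (hY : sys.Fixed (H k0 E) Y) {w : Name B} (hw : sys.Fixed (H k E) w) (r : Rt k0) :
    bmem (sys.am (rot r) w) Y = bmem w Y := by
  rw [← act_bmem (hY _ (rot_mem hE r))]
  exact fixed_of_fixed hE.1 (k := k)
    (fun v hv => fix_bmem (hY.mono (H_mono hk subset_rfl)) hw hv) (rot_fix hE r)

theorem bd_rot {g : Name B} {k0 k : ℕ} {E : Set Pt} (hE : Sup k0 E) (hk : k0 ≤ k)
    (hg : sys.Fixed (H k0 E) g) {w : Name B} (hw : sys.Fixed (H k E) w) (r s t : Rt k0) (l : ℕ) :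
    bd g (sys.am (rot (r + t)) w) (sys.am (rot (s + t)) w) l =
      bd g (sys.am (rot r) w) (sys.am (rot s) w) l := by
  have h1 : bd g (sys.am (rot r) w) (sys.am (rot s) w) l =
      actB (rot t) (bd g (sys.am (rot r) w) (sys.am (rot s) w) l) :=
    (fixed_of_fixed hE.1 (k := k) (fun v hv => fix_bd (hg.mono (H_mono hk subset_rfl))
      (fixed_rot hE r hw) (fixed_rot hE s hw) l hv) (rot_fix hE t)).symm
  rw [h1, act_bd (hg _ (rot_mem hE t)), ← SymSys.am_mul, ← SymSys.am_mul, ← rot_add, ← rot_add,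
    add_comm t, add_comm t]

end Cir

end SymExt
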